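import Pool.Agent.Lib.MP_4eed4e_an_XN.NCrit

set_option autoImplicit false

/-!
Project X, block N, module NMirS: reflections.
-/

namespace Pool.Agent.MP4eed4eX.N

open MeasureTheory Set Filter Topology Pool.Agent.MP4eed4eP

variable {m : ℕ}

/-- The reflection in terms of the parameters. -/
noncomputable def mc (c : Par m) : Par m :=
  Sum.elim ![c (iS m), c (iX m), -c (iY m)]
    (Sum.elim (fun j => c (iT j)) (fun j => -c (iR j)))

private theorem NMirS_mir_mir (v : P) : mir (mir v) = v := by
  simp [mir]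

private theorem NMirS_mir_zero : mir 0 = 0 := by
  simp [mir]

private theorem NMirS_mir_add (v w : P) : mir (v + w) = mir v + mir w := by
  refine Prod.ext rfl ?_
  simp only [mir, Prod.snd_add]
  ring

private theorem NMirS_mir_sub (v w : P) : mir (v - w) = mir v - mir w := by
  refine Prod.ext rfl ?_
  simp only [mir, Prod.snd_sub]
  ring

private theorem NMirS_mir_smul (t : ℝ) (v : P) : mir (t • v) = t • mir v := by
  refine Prod.ext rfl ?_
  simp only [mir, Prod.smul_snd, smul_eq_mul]
  ring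

private theorem NMirS_mir_sum {n : ℕ} (f : Fin n → P) : mir (∑ i, f i) = ∑ i, mir (f i) := by
  classical
  have h : ∀ s : Finset (Fin n), mir (∑ i ∈ s, f i) = ∑ i ∈ s, mir (f i) := by
    intro s
    induction s using Finset.induction_on with
    | empty => simp only [Finset.sum_empty, NMirS_mir_zero]
    | insert i s hi ih =>
      rw [Finset.sum_insert hi, Finset.sum_insert hi, NMirS_mir_add, ih]
  exact h Finset.univ

theorem nf_mc (c : Par m) (i : Fin (m + 3)) : nf (mc c) i = mir (nf c i) := by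
  unfold nf
  split_ifs with h0 h1 h2
  · exact NMirS_mir_zero.symm
  · refine Prod.ext rfl ?_
    simp only [mir, neg_zero]
  · rfl
  · rfl

private theorem NMirS_fr (u v : P) : fr (mir u) (mir v) = mir (fr u v) := by
  have h1 : ∀ a b : P, dt (mir a) (mir b) = dt a b := by
    intro a b
    simp only [dt, mir]
    ring
  have h2 : det2 (mir u) (mir v) = -det2 u v := by
    simp only [det2, mir]
    ring
  unfold fr
  rw [h1, h1, h2]
  refine Prod.ext rfl ?_
  simp only [mir]
  rw [neg_div]

theorem nc_mir (q : Fin (m + 3) → P) : nc (fun i => mir (q i)) = mc (nc q) := by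
  have key : ∀ i j : Fin (m + 3), fr (mir (q 1) - mir (q 0)) (mir (q i) - mir (q j)) =
      mir (fr (q 1 - q 0) (q i - q j)) := by
    intro i j
    rw [← NMirS_mir_sub, ← NMirS_mir_sub, NMirS_fr]
  funext k
  rcases k with k | k | k
  · fin_cases k
    · exact (congrArg Prod.fst (key 1 0) :)
    · exact (congrArg Prod.fst (key 2 0) :)
    · exact (congrArg Prod.snd (key 2 0) :)
  · exact (congrArg Prod.fst (key ⟨(k : ℕ) + 3, by omega⟩ 0) :)
  · exact (congrArg Prod.snd (key ⟨(k : ℕ) + 3, by omega⟩ 0) :)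

/-- Proof. `b̃ i x = b i (mir x)`. -/
theorem hat_mir {n : ℕ} {p : Fin n → P} {E : Finset (Fin n × Fin n)} {b : Fin n → P → ℝ}
    (h : Hat p E b) : Hat (fun i => mir (p i)) E (fun i x => b i (mir x)) := by
  classical
  have hm : LipschitzWith 1 mir := by
    refine LipschitzWith.of_dist_le_mul fun x y => ?_
    rw [NNReal.coe_one, one_mul, Prod.dist_eq, Prod.dist_eq]
    have h2 : dist (mir x).2 (mir y).2 = dist x.2 y.2 := by
      simp only [mir, dist_neg_neg]
    rw [h2]
    rfl
  constructor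
  · intro i
    obtain ⟨K, hK⟩ := h.lip i
    exact ⟨K * 1, hK.comp hm⟩
  · intro i
    obtain ⟨A, hA⟩ := h.wpa i
    refine ⟨A.image fun t => (t.1, t.2.1, -t.2.2), fun x => ?_⟩
    obtain ⟨t, ht, hx⟩ := hA (mir x)
    refine ⟨(t.1, t.2.1, -t.2.2), Finset.mem_image_of_mem _ ht, ?_⟩
    change b i (mir x) = t.1 + t.2.1 * x.1 + -t.2.2 * x.2
    rw [hx]
    simp only [mir]
    ring
  · intro i k
    rw [NMirS_mir_mir]
    exact h.vert i k
  · intro i e he s hs
    rw [← NMirS_mir_smul, ← NMirS_mir_smul, ← NMirS_mir_add, NMirS_mir_mir, NMirS_mir_mir,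
      NMirS_mir_mir]
    exact h.edge i e he s hs

/-- Proof. `ph b̃ (mir ∘ d) (mir x) = mir (ph b d x)`, `lamL_mir`. -/
theorem psi_mir {ι : Type} (a : ι → ℕ) (b : Fin (m + 3) → P → ℝ) (c0 : Par m) (D : Set P)
    (c : Par m) :
    Psi a (fun i x => b i (mir x)) (mc c0) (mir '' D) (mc c) = Psi a b c0 D c := by
  have h1 : ph (fun i x => b i (mir x)) (fun i => nf (mc c) i - nf (mc c0) i) '' (mir '' D) =
      mir '' (ph b (fun i => nf c i - nf c0 i) '' D) := by
    rw [Set.image_image, Set.image_image]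
    refine Set.image_congr fun x _ => ?_
    unfold ph
    rw [NMirS_mir_add, NMirS_mir_sum]
    refine congrArg _ (Finset.sum_congr rfl fun i _ => ?_)
    change b i (mir (mir x)) • (nf (mc c) i - nf (mc c0) i) = mir (b i x • (nf c i - nf c0 i))
    rw [NMirS_mir_mir, NMirS_mir_smul, NMirS_mir_sub, nf_mc, nf_mc]
  unfold Psi
  rw [h1]
  funext i
  simp only [Tr, fa, lamL_mir]

private theorem NMirS_mc_mc (c : Par m) : mc (mc c) = c := by
  refine nf_inj fun i => ?_
  rw [nf_mc, nf_mc, NMirS_mir_mir]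

private theorem NMirS_exists_mcL (m : ℕ) : ∃ L : Par m →L[ℝ] Par m, ∀ c, L c = mc c := by
  have h1 : ∀ c c' : Par m, mc (c + c') = mc c + mc c' := by
    intro c c'
    funext k
    rcases k with k | k | k
    · fin_cases k
      · rfl
      · rfl
      · exact neg_add _ _
    · rfl
    · exact neg_add _ _
  have h2 : ∀ (t : ℝ) (c : Par m), mc (t • c) = t • mc c := by
    intro t c
    funext k
    rcases k with k | k | k
    · fin_cases k
      · rfl
      · rfl
      · exact (mul_neg _ _).symm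
    · rfl
    · exact (mul_neg _ _).symm
  let l : Par m →ₗ[ℝ] Par m :=
    { toFun := fun c => mc c
      map_add' := h1
      map_smul' := h2 }
  exact ⟨LinearMap.toContinuousLinearMap l, fun c => rfl⟩

/-- Proof. `mc` is a linear homeomorphism with `mc (mc c) = c`, and `mir (mir x) = x`. Suppose
`SS a (mc c0) E` and let `D`, `b` be over `nf c0`, with the Jacobian of `Psi` zero near `c0`. Then
`mir '' D`, `b̃` are over `nf (mc c0)` (`fig_mir`, `hat_mir`), and by `psi_mir` and the chain rule
(composition with a linear equivalence) the Jacobian there is zero near `mc c0`. -/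
theorem SS_mir {a : Ix m → ℕ} {c0 : Par m} {E : Finset (Fin (m + 3) × Fin (m + 3))}
    (h : SS a (mc c0) E) : SS a c0 E := by
  intro D hD b hb hJ
  obtain ⟨L, hL⟩ := NMirS_exists_mcL m
  have hLL : ∀ c, L (L c) = c := fun c => by
    rw [hL, hL, NMirS_mc_mc]
  let e : Par m ≃L[ℝ] Par m := ContinuousLinearEquiv.equivOfInverse L L hLL hLL
  have he : ∀ c, e c = mc c := fun c => hL c
  have hf : (fun i => mir (nf c0 i)) = nf (mc c0) := by
    funext i
    rw [nf_mc]
  have hD' : Fig (mir '' D) (nf (mc c0)) E := by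
    have := fig_mir hD
    rwa [hf] at this
  have hb' : Hat (nf (mc c0)) E (fun i x => b i (mir x)) := by
    have := hat_mir hb
    rwa [hf] at this
  refine h (mir '' D) hD' _ hb' ?_
  have hP : Psi a (fun i x => b i (mir x)) (mc c0) (mir '' D) = Psi a b c0 D ∘ e := by
    funext c
    have h1 := psi_mir a b c0 D (mc c)
    rw [NMirS_mc_mc] at h1
    rw [h1, Function.comp_apply, he]
  have hc : Tendsto e (𝓝 (mc c0)) (𝓝 c0) := by
    have h1 := e.continuous.tendsto (mc c0)
    rwa [he (mc c0), NMirS_mc_mc] at h1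
  refine (hc.eventually hJ).mono fun c hc' => ?_
  rw [hP, e.comp_right_fderiv]
  change LinearMap.det ((fderiv ℝ (Psi a b c0 D) (e c) : Par m →ₗ[ℝ] (Ix m → ℝ)) ∘ₗ
    (e : Par m →L[ℝ] Par m)) = 0
  rw [LinearMap.det_comp]
  have h3 : LinearMap.det (fderiv ℝ (Psi a b c0 D) (e c) : Par m →ₗ[ℝ] (Ix m → ℝ)) = 0 := hc'
  rw [h3, zero_mul]

end Pool.Agent.MP4eed4eX.N
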