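import Pool.Agent.Lib.MP_4eed4e_an_XN.NBaseB
import Pool.Agent.Lib.MP_4eed4e_an_XN.NMirS

set_option autoImplicit false

/-!
Project X, block N, module NAll: all simple polygons.
-/

namespace Pool.Agent.MP4eed4eX.N

open MeasureTheory Set Filter Topology Pool.Agent.MP4eed4eP

variable {m : ℕ}

private theorem ne01 {p : Fin (m + 3) → P} (h : SLG p (cyc (m + 3))) : p 0 ≠ p 1 := by
  intro h01
  have := h.inj h01
  simp at this

private theorem slg_nf {p : Fin (m + 3) → P} (h : SLG p (cyc (m + 3))) :
    SLG (nf (nc p)) (cyc (m + 3)) := by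
  obtain ⟨-, θ, hθ⟩ := exists_rig (ne01 h)
  obtain ⟨e, he, θ', β', he'⟩ := rig_homeo θ (p 0)
  have h1 := slg_rig h θ' β'
  have h2 : (fun i => rig θ' β' (p i)) = nf (nc p) := by
    funext i
    rw [← he', hθ i, ← he, e.symm_apply_apply]
  rwa [h2] at h1

private theorem mir_mir (x : P) : mir (mir x) = x := by
  simp [mir]

private theorem mir_img (D : Set P) : mir '' (mir '' D) = D := by
  rw [← image_comp]
  have : mir ∘ mir = id := funext mir_mir
  rw [this, image_id]

/-- A property of simple polygons which is locally constant and true for convex polygons (in both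
orientations) is true for all simple polygons. Proof. `joined` gives a path `γ` in the set of
simple polygons from `p` to a convex one; `{t | S (γ t)}` is open and closed in the unit
interval, and contains `1`. -/
theorem induct {S : (Fin (m + 3) → P) → Prop}
    (hloc : ∀ p, SLG p (cyc (m + 3)) → ∀ᶠ p' in 𝓝 p, (S p' ↔ S p))
    (h1 : ∀ q, Ccw q → S q) (h2 : ∀ q, Ccw (fun i => mir (q i)) → S q)
    {p : Fin (m + 3) → P} (h : SLG p (cyc (m + 3))) : S p := by
  obtain ⟨q, hJ, hq⟩ := joined h
  have hc : IsLocallyConstant (fun t : unitInterval => S (hJ.somePath t)) := by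
    rw [IsLocallyConstant.iff_eventually_eq]
    intro t
    have h3 := hloc _ (hJ.somePath_mem t)
    have h4 := hJ.somePath.continuous.continuousAt.eventually h3
    exact h4.mono fun y hy => propext hy
  have h5 := hc.apply_eq_of_preconnectedSpace 0 1
  simp only [Path.source, Path.target] at h5
  have hSq : S q := by
    rcases hq with hq | hq
    · exact h1 q hq
    · exact h2 q hq
  rw [h5]
  exact hSq

/-- Proof. `induct` for `S p = SS a (nc p) (cyc _)`: `SS_loc`, `nc_contAt`, `SS_ccw`,
`SS_mir`, `nc_mir`. (`p 0 ≠ p 1` by `SLG.inj`; `nf (nc p)` is `SLG` by `exists_rig` and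
`slg_rig`-like arguments: `fig_unrig` without `D`.) -/
theorem SS_all {a : Ix m → ℕ} (ha : ∀ i, 1 ≤ a i)
    (hd : ∃ c ∈ CM m, (fderiv ℝ (fun (c : Par m) (i : Ix m) => Fn m (a i) c) c).det ≠ 0)
    {p : Fin (m + 3) → P} (h : SLG p (cyc (m + 3))) : SS a (nc p) (cyc (m + 3)) := by
  refine induct (S := fun p => SS a (nc p) (cyc (m + 3))) ?_ ?_ ?_ h
  · intro p hp
    have h01 := ne01 hp
    exact (nc_contAt h01).eventually (SS_loc ha (exists_rig h01).1 (slg_nf hp))
  · intro q hq
    exact SS_ccw ha hd hq
  · intro q hq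
    apply SS_mir
    rw [← nc_mir]
    exact SS_ccw ha hd hq

/-- Every simple polygon has exactly one inside. Proof. `induct` for
`S p = ∃! D, Fig D p (cyc _)`: locally constant by `exists_hat` and `chart` (for `p' = p + d` the
figures over `p'` are the images of those over `p` under the injective map `ph b d`); `fig_Kp`,
`fig_ccw`, and `fig_mir` for the other orientation (`mir (mir x) = x`). -/
theorem unique_fig {p : Fin (m + 3) → P} (h : SLG p (cyc (m + 3))) :
    ∃! D, Fig D p (cyc (m + 3)) := by
  refine induct (S := fun p => ∃! D, Fig D p (cyc (m + 3))) ?_ ?_ ?_ h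
  · intro p hp
    obtain ⟨b, hb⟩ := exists_hat hp
    obtain ⟨ρ, hρ, hch⟩ := chart hp hb
    filter_upwards [Metric.ball_mem_nhds p hρ] with p' hp'
    have hd : ‖p' - p‖ < ρ := by
      rw [← dist_eq_norm]
      exact hp'
    obtain ⟨⟨φ, hφ⟩, -, h3, h4⟩ := hch (p' - p) hd
    have h5 : (fun i => p i + (p' - p) i) = p' := by
      funext i
      simp
    rw [h5] at h3 h4
    have hinj : Function.Injective (ph b (p' - p)) := by
      intro x y hxy
      rw [← hφ, ← hφ] at hxy
      exact φ.injective hxy
    constructor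
    · rintro ⟨D', hD', hu⟩
      obtain ⟨D, hD, rfl⟩ := h4 D' hD'
      refine ⟨D, hD, fun D1 hD1 => ?_⟩
      exact hinj.image_injective (hu _ (h3 D1 hD1))
    · rintro ⟨D, hD, hu⟩
      refine ⟨ph b (p' - p) '' D, h3 D hD, fun D' hD' => ?_⟩
      obtain ⟨D1, hD1, rfl⟩ := h4 D' hD'
      rw [hu D1 hD1]
  · intro q hq
    exact ⟨Kp q, fig_Kp hq, fun D hD => fig_ccw hq hD⟩
  · intro q hq
    refine ⟨mir '' Kp (fun i => mir (q i)), ?_, fun D hD => ?_⟩
    · have h3 := fig_mir (fig_Kp hq)
      simp only [mir_mir] at h3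
      exact h3
    · rw [← fig_ccw hq (fig_mir hD), mir_img]

end Pool.Agent.MP4eed4eX.N
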