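import Pool.Agent.Lib.MP_4eed4e_an_XN.NNf

set_option autoImplicit false

/-!
Project X, block N, module NNc: the normal form.
-/

namespace Pool.Agent.MP4eed4eX.N

open MeasureTheory Set Filter Topology Pool.Agent.MP4eed4eP

variable {m : ℕ}

private theorem NNc_ne {a b : P} (h : a ≠ b) : 0 < dt (b - a) (b - a) := by
  have h1 : b - a ≠ 0 := sub_ne_zero.2 h.symm
  by_contra hn
  have h2 : dt (b - a) (b - a) ≤ 0 := not_lt.1 hn
  unfold dt at h2
  apply h1
  have h3 : (b - a).1 = 0 := by nlinarith [sq_nonneg (b - a).1, sq_nonneg (b - a).2]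
  have h4 : (b - a).2 = 0 := by nlinarith [sq_nonneg (b - a).1, sq_nonneg (b - a).2]
  exact Prod.ext h3 h4

private theorem NNc_fr0 (u : P) : fr u 0 = 0 := by
  simp [fr, dt, det2]

private theorem NNc_fr_self (u : P) : (fr u u).2 = 0 := by
  have h : det2 u u = 0 := by
    unfold det2
    ring
  simp [fr, h]

private theorem NNc_fr_sub (u v w : P) : fr u (v - w) = fr u v - fr u w := by
  refine Prod.ext ?_ ?_
  · simp only [fr, dt, Prod.fst_sub, Prod.snd_sub]
    ring
  · simp only [fr, det2, Prod.fst_sub, Prod.snd_sub]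
    ring

private theorem NNc_dt {u : P} (h : 0 < dt u u) (v w : P) : dt (fr u v) (fr u w) = dt v w := by
  have h1 : √(dt u u) ≠ 0 := (Real.sqrt_pos.2 h).ne'
  have h2 : √(dt u u) * √(dt u u) = dt u u := Real.mul_self_sqrt h.le
  have h3 : dt (fr u v) (fr u w) =
      (dt u v * dt u w + det2 u v * det2 u w) / (√(dt u u) * √(dt u u)) := by
    change dt u v / √(dt u u) * (dt u w / √(dt u u)) +
      det2 u v / √(dt u u) * (det2 u w / √(dt u u)) = _
    field_simp
  rw [h3, h2, div_eq_iff h.ne']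
  unfold dt det2
  ring

private theorem NNc_det {u : P} (h : 0 < dt u u) (v w : P) :
    det2 (fr u v) (fr u w) = det2 v w := by
  have h1 : √(dt u u) ≠ 0 := (Real.sqrt_pos.2 h).ne'
  have h2 : √(dt u u) * √(dt u u) = dt u u := Real.mul_self_sqrt h.le
  have h3 : det2 (fr u v) (fr u w) =
      (dt u v * det2 u w - det2 u v * dt u w) / (√(dt u u) * √(dt u u)) := by
    change dt u v / √(dt u u) * (det2 u w / √(dt u u)) -
      det2 u v / √(dt u u) * (dt u w / √(dt u u)) = _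
    field_simp
  rw [h3, h2, div_eq_iff h.ne']
  unfold dt det2
  ring

private theorem NNc_rig_dt (θ : ℝ) (β a b c d : P) :
    dt (rig θ β a - rig θ β b) (rig θ β c - rig θ β d) = dt (a - b) (c - d) := by
  have h := Real.sin_sq_add_cos_sq θ
  simp only [dt, rig, Prod.fst_sub, Prod.snd_sub]
  linear_combination ((a.1 - b.1) * (c.1 - d.1) + (a.2 - b.2) * (c.2 - d.2)) * h

private theorem NNc_rig_det (θ : ℝ) (β a b c d : P) :
    det2 (rig θ β a - rig θ β b) (rig θ β c - rig θ β d) = det2 (a - b) (c - d) := by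
  have h := Real.sin_sq_add_cos_sq θ
  simp only [det2, rig, Prod.fst_sub, Prod.snd_sub]
  linear_combination ((a.1 - b.1) * (c.2 - d.2) - (a.2 - b.2) * (c.1 - d.1)) * h

private theorem NNc_rig_fr (θ : ℝ) (β a b c : P) :
    fr (rig θ β a - rig θ β b) (rig θ β c - rig θ β b) = fr (a - b) (c - b) := by
  simp only [fr, NNc_rig_dt, NNc_rig_det]

private theorem NNc_tend {ι : Type} {F : Filter ι} {u v : ι → P} {u0 v0 : P}
    (hu : Tendsto u F (𝓝 u0)) (hv : Tendsto v F (𝓝 v0)) (h : 0 < dt u0 u0) :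
    Tendsto (fun k => fr (u k) (v k)) F (𝓝 (fr u0 v0)) := by
  have u1 : Tendsto (fun k => (u k).1) F (𝓝 u0.1) := (continuous_fst.tendsto _).comp hu
  have u2 : Tendsto (fun k => (u k).2) F (𝓝 u0.2) := (continuous_snd.tendsto _).comp hu
  have v1 : Tendsto (fun k => (v k).1) F (𝓝 v0.1) := (continuous_fst.tendsto _).comp hv
  have v2 : Tendsto (fun k => (v k).2) F (𝓝 v0.2) := (continuous_snd.tendsto _).comp hv
  have d1 : Tendsto (fun k => dt (u k) (v k)) F (𝓝 (dt u0 v0)) := (u1.mul v1).add (u2.mul v2)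
  have d2 : Tendsto (fun k => det2 (u k) (v k)) F (𝓝 (det2 u0 v0)) := (u1.mul v2).sub (u2.mul v1)
  have d3 : Tendsto (fun k => dt (u k) (u k)) F (𝓝 (dt u0 u0)) := (u1.mul u1).add (u2.mul u2)
  have d4 : Tendsto (fun k => √(dt (u k) (u k))) F (𝓝 √(dt u0 u0)) :=
    (Real.continuous_sqrt.tendsto _).comp d3
  have h1 : √(dt u0 u0) ≠ 0 := (Real.sqrt_pos.2 h).ne'
  exact (d1.div d4 h1).prodMk_nhds (d2.div d4 h1)

private theorem NNc_tend' {ι : Type} {F : Filter ι} {p : ι → Fin (m + 3) → P}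
    {q : Fin (m + 3) → P} (h0 : q 0 ≠ q 1)
    (h : ∀ i j, Tendsto (fun k => p k i - p k j) F (𝓝 (q i - q j))) :
    Tendsto (fun k => nc (p k)) F (𝓝 (nc q)) := by
  have h1 : 0 < dt (q 1 - q 0) (q 1 - q 0) := NNc_ne h0
  have h2 : ∀ i, Tendsto (fun k => fr (p k 1 - p k 0) (p k i - p k 0)) F
      (𝓝 (fr (q 1 - q 0) (q i - q 0))) := fun i => NNc_tend (h 1 0) (h i 0) h1
  have h3 : ∀ i, Tendsto (fun k => (fr (p k 1 - p k 0) (p k i - p k 0)).1) F
      (𝓝 (fr (q 1 - q 0) (q i - q 0)).1) := fun i => (continuous_fst.tendsto _).comp (h2 i)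
  have h4 : ∀ i, Tendsto (fun k => (fr (p k 1 - p k 0) (p k i - p k 0)).2) F
      (𝓝 (fr (q 1 - q 0) (q i - q 0)).2) := fun i => (continuous_snd.tendsto _).comp (h2 i)
  rw [tendsto_pi_nhds]
  rintro (i | j | j)
  · fin_cases i
    · exact h3 1
    · exact h3 2
    · exact h4 2
  · exact h3 _
  · exact h4 _

/-- Proof. `nf (nc p) i = fr (p 1 - p 0) (p i - p 0)` for all `i` (three cases; `fr u 0 = 0`,
`(fr u u).2 = 0`, `(fr u u).1 = √(dt u u)`). -/
theorem nf_nc {p : Fin (m + 3) → P} (h : p 0 ≠ p 1) (i : Fin (m + 3)) :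
    nf (nc p) i = fr (p 1 - p 0) (p i - p 0) := by
  have key : ∀ j : Fin (m + 3), (j : ℕ) = 2 → j = 2 := by
    intro j hj
    apply Fin.ext
    rw [hj]
    exact (Nat.mod_eq_of_lt (by omega : 2 < m + 3)).symm
  have key1 : ∀ j : Fin (m + 3), (j : ℕ) = 1 → j = 1 := by
    intro j hj
    apply Fin.ext
    rw [hj]
    exact (Nat.mod_eq_of_lt (by omega : 1 < m + 3)).symm
  unfold nf
  split_ifs with h0 h1 h2
  · obtain rfl : i = 0 := Fin.ext h0
    rw [sub_self, NNc_fr0]
  · rw [key1 i h1]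
    exact Prod.ext rfl (NNc_fr_self _).symm
  · have h3 : (⟨((⟨(i : ℕ) - 3, by omega⟩ : Fin m) : ℕ) + 3, by
        have := i.isLt
        change (i : ℕ) - 3 + 3 < m + 3
        omega⟩ : Fin (m + 3)) = i := by
      apply Fin.ext
      change (i : ℕ) - 3 + 3 = i
      omega
    have h4 : nc p (iT ⟨(i : ℕ) - 3, by omega⟩) =
        (fr (p 1 - p 0) (p (⟨((⟨(i : ℕ) - 3, by omega⟩ : Fin m) : ℕ) + 3, by
          have := i.isLt
          change (i : ℕ) - 3 + 3 < m + 3
          omega⟩ : Fin (m + 3)) - p 0)).1 := rfl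
    have h5 : nc p (iR ⟨(i : ℕ) - 3, by omega⟩) =
        (fr (p 1 - p 0) (p (⟨((⟨(i : ℕ) - 3, by omega⟩ : Fin m) : ℕ) + 3, by
          have := i.isLt
          change (i : ℕ) - 3 + 3 < m + 3
          omega⟩ : Fin (m + 3)) - p 0)).2 := rfl
    rw [h4, h5, h3]
  · rw [key i (by omega)]
    rfl

/-- Proof. `u = p 1 - p 0 = √(dt u u) (cos θ, sin θ)` for some `θ` (`Complex.arg`, or
`exists angle` from `x² + y² = 1`); the rotation by `θ` maps `fr u v` to `v`. -/
theorem exists_rig {p : Fin (m + 3) → P} (h : p 0 ≠ p 1) :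
    0 < nc p (iS m) ∧ ∃ θ : ℝ, ∀ i, p i = rig θ (p 0) (nf (nc p) i) := by
  have hu := NNc_ne h
  set u := p 1 - p 0 with hu'
  have hs : 0 < √(dt u u) := Real.sqrt_pos.2 hu
  have h2 : √(dt u u) * √(dt u u) = dt u u := Real.mul_self_sqrt hu.le
  refine ⟨?_, ?_⟩
  · change 0 < dt u u / √(dt u u)
    exact div_pos hu hs
  · have h3 : ‖(⟨u.1 / √(dt u u), u.2 / √(dt u u)⟩ : ℂ)‖ = 1 := by
      rw [Complex.norm_def, Complex.normSq_mk]
      have h4 : u.1 / √(dt u u) * (u.1 / √(dt u u)) + u.2 / √(dt u u) * (u.2 / √(dt u u)) = 1 := by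
        have h5 : u.1 / √(dt u u) * (u.1 / √(dt u u)) + u.2 / √(dt u u) * (u.2 / √(dt u u)) =
            (u.1 * u.1 + u.2 * u.2) / (√(dt u u) * √(dt u u)) := by
          field_simp
        rw [h5, h2]
        exact div_self hu.ne'
      rw [h4, Real.sqrt_one]
    have h6 : (⟨u.1 / √(dt u u), u.2 / √(dt u u)⟩ : ℂ) ≠ 0 := by
      intro h7
      rw [h7, norm_zero] at h3
      exact zero_ne_one h3
    have hc := Complex.cos_arg h6
    have hsn := Complex.sin_arg (⟨u.1 / √(dt u u), u.2 / √(dt u u)⟩ : ℂ)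
    rw [h3, div_one] at hc hsn
    refine ⟨Complex.arg ⟨u.1 / √(dt u u), u.2 / √(dt u u)⟩, fun i => ?_⟩
    rw [nf_nc h i]
    have e1 : dt u u * (p i - p 0).1 = u.1 * dt u (p i - p 0) - u.2 * det2 u (p i - p 0) := by
      unfold dt det2
      ring
    have e2 : dt u u * (p i - p 0).2 = u.2 * dt u (p i - p 0) + u.1 * det2 u (p i - p 0) := by
      unfold dt det2
      ring
    refine Prod.ext ?_ ?_
    · simp only [rig, fr, hc, hsn]
      have h8 : u.1 / √(dt u u) * (dt u (p i - p 0) / √(dt u u)) -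
          u.2 / √(dt u u) * (det2 u (p i - p 0) / √(dt u u)) =
          (u.1 * dt u (p i - p 0) - u.2 * det2 u (p i - p 0)) / (√(dt u u) * √(dt u u)) := by
        field_simp
      rw [h8, h2, ← e1, mul_div_cancel_left₀ _ hu.ne', Prod.fst_sub]
      ring
    · simp only [rig, fr, hc, hsn]
      have h8 : u.2 / √(dt u u) * (dt u (p i - p 0) / √(dt u u)) +
          u.1 / √(dt u u) * (det2 u (p i - p 0) / √(dt u u)) =
          (u.2 * dt u (p i - p 0) + u.1 * det2 u (p i - p 0)) / (√(dt u u) * √(dt u u)) := by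
        field_simp
      rw [h8, h2, ← e2, mul_div_cancel_left₀ _ hu.ne', Prod.snd_sub]
      ring

/-- Proof. `dt` and `det2` of differences are invariant under `rig`; for `nf c` itself
`nc (nf c) = c` if `0 < c (iS m)`. -/
theorem nc_rig {c : Par m} (h : 0 < c (iS m)) (θ : ℝ) (β : P) :
    nc (fun i => rig θ β (nf c i)) = c := by
  have h1 : nc (fun i => rig θ β (nf c i)) = nc (nf c) := by
    simp only [nc, NNc_rig_fr]
  rw [h1]
  refine nf_inj fun i => ?_
  have h2 : √(c (iS m) * c (iS m)) = c (iS m) := Real.sqrt_mul_self h.le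
  have h3 : nf c 0 ≠ nf c 1 := by
    rw [nf_zero, nf_one]
    intro h4
    exact h.ne (congrArg Prod.fst h4)
  rw [nf_nc h3, nf_zero, nf_one, sub_zero, sub_zero]
  refine Prod.ext ?_ ?_
  · simp only [fr, dt, zero_mul, mul_zero, add_zero, h2]
    rw [mul_div_cancel_left₀ _ h.ne']
  · simp only [fr, dt, det2, zero_mul, mul_zero, add_zero, sub_zero, h2]
    rw [mul_div_cancel_left₀ _ h.ne']

theorem nc_rig' (p : Fin (m + 3) → P) (θ : ℝ) (β : P) : nc (fun i => rig θ β (p i)) = nc p := by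
  simp only [nc, NNc_rig_fr]

/-- Continuity of the normal form in terms of the differences. Proof. The formula for `nc` contains
only differences and is continuous where `dt u u ≠ 0`, `u = q 1 - q 0`. -/
theorem nc_tendsto {F : Filter ℕ} {p : ℕ → Fin (m + 3) → P} {q : Fin (m + 3) → P}
    (h0 : q 0 ≠ q 1) (h : ∀ i j, Tendsto (fun k => p k i - p k j) F (𝓝 (q i - q j))) :
    Tendsto (fun k => nc (p k)) F (𝓝 (nc q)) := by
  exact NNc_tend' h0 h

theorem nc_contAt {q : Fin (m + 3) → P} (h0 : q 0 ≠ q 1) :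
    ContinuousAt (nc (m := m)) q := by
  refine NNc_tend' (p := fun q : Fin (m + 3) → P => q) h0 fun i j => ?_
  exact ((continuous_apply i).tendsto q).sub ((continuous_apply j).tendsto q)

/-- Squares of distances are invariants of the normal form. -/
theorem dist_nc {p : Fin (m + 3) → P} (h : p 0 ≠ p 1) (i j : Fin (m + 3)) :
    dt (p i - p j) (p i - p j) = dt (nf (nc p) i - nf (nc p) j) (nf (nc p) i - nf (nc p) j) := by
  have hu := NNc_ne h
  rw [nf_nc h i, nf_nc h j, ← NNc_fr_sub, sub_sub_sub_cancel_right, NNc_dt hu]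

theorem col_nc {p : Fin (m + 3) → P} (h : p 0 ≠ p 1) : Col (nf (nc p)) ↔ Col p := by
  have hu := NNc_ne h
  have key : ∀ i j k, det2 (nf (nc p) j - nf (nc p) i) (nf (nc p) k - nf (nc p) i) =
      det2 (p j - p i) (p k - p i) := by
    intro i j k
    rw [nf_nc h i, nf_nc h j, nf_nc h k, ← NNc_fr_sub, ← NNc_fr_sub,
      sub_sub_sub_cancel_right, sub_sub_sub_cancel_right, NNc_det hu]
  simp only [Col, key]

end Pool.Agent.MP4eed4eX.N
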