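import Pool.Agent.Lib.MP_4eed4e_an_X.XDefs

set_option autoImplicit false

/-!
Project X, blocks N and Q: definitions. Text: `/team-store/MP_4eed4e_PX.md`, sections N, Q.
-/

namespace Pool.Agent.MP4eed4eX.N

open MeasureTheory Set Filter Topology Pool.Agent.MP4eed4eP

/-- The scalar product. -/
def dt (v w : P) : ℝ := v.1 * w.1 + v.2 * w.2

/-- The coordinates of `v` in the frame with the first axis in the direction `u`. -/
noncomputable def fr (u v : P) : P := (dt u v / √(dt u u), det2 u v / √(dt u u))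

/-- The parameters of the normal form of `p`. -/
noncomputable def nc {m : ℕ} (p : Fin (m + 3) → P) : Par m :=
  Sum.elim ![(fr (p 1 - p 0) (p 1 - p 0)).1, (fr (p 1 - p 0) (p 2 - p 0)).1,
      (fr (p 1 - p 0) (p 2 - p 0)).2]
    (Sum.elim
      (fun j => (fr (p 1 - p 0) (p ⟨(j : ℕ) + 3, by omega⟩ - p 0)).1)
      (fun j => (fr (p 1 - p 0) (p ⟨(j : ℕ) + 3, by omega⟩ - p 0)).2))

/-- Reflection in the first axis. -/
def mir (v : P) : P := (v.1, -v.2)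

/-- A chart at `c0` with all its properties. -/
structure Ch {ι : Type} [Fintype ι] {m : ℕ} (a : ι → ℕ) (c0 : Par m)
    (E : Finset (Fin (m + 3) × Fin (m + 3))) (b : Fin (m + 3) → P → ℝ) (ρ : ℝ) : Prop where
  pos : 0 < ρ
  hat : Hat (nf c0) E b
  sub : ∀ c ∈ Metric.ball c0 ρ, 0 < c (iS m) ∧ SLG (nf c) E
  fig : ∀ D, Fig D (nf c0) E → ∀ c ∈ Metric.ball c0 ρ,
    Fig (ph b (fun i => nf c i - nf c0 i) '' D) (nf c) E
  sur : ∀ c ∈ Metric.ball c0 ρ, ∀ D', Fig D' (nf c) E → ∃ D, Fig D (nf c0) E ∧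
    D' = ph b (fun i => nf c i - nf c0 i) '' D
  an : ∀ D, Fig D (nf c0) E → AnalyticOnNhd ℝ (Psi a b c0 D) (Metric.ball c0 ρ)
  agr : ∀ D, Fig D (nf c0) E → ∀ c1 ∈ Metric.ball c0 ρ, ∀ b1, Hat (nf c1) E b1 →
    ∀ᶠ c in 𝓝 c1, ph b1 (fun i => nf c i - nf c1 i) ''
      (ph b (fun i => nf c1 i - nf c0 i) '' D) = ph b (fun i => nf c i - nf c0 i) '' D

/-- The figure `D` over `nf c0` is critical. -/
def Crit {m : ℕ} (a : Ix m → ℕ) (c0 : Par m) (E : Finset (Fin (m + 3) × Fin (m + 3)))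
    (D : Set P) : Prop := ∃ b, Hat (nf c0) E b ∧ (fderiv ℝ (Psi a b c0 D) c0).det = 0

/-- The figure `D` over `q` is critical. -/
def CritQ {m : ℕ} (a : Ix m → ℕ) (q : Fin (m + 3) → P)
    (E : Finset (Fin (m + 3) × Fin (m + 3))) (D : Set P) : Prop :=
  ∃ (c : Par m) (D0 : Set P) (θ : ℝ) (β : P), 0 < c (iS m) ∧ (∀ i, q i = rig θ β (nf c i)) ∧
    D = rig θ β '' D0 ∧ Crit a c E D0

/-- The Jacobian is not identically zero near `c0`, for all figures over `nf c0`. -/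
def SS {m : ℕ} (a : Ix m → ℕ) (c0 : Par m) (E : Finset (Fin (m + 3) × Fin (m + 3))) : Prop :=
  ∀ D, Fig D (nf c0) E → ∀ b, Hat (nf c0) E b →
    ¬ ∀ᶠ c in 𝓝 c0, (fderiv ℝ (Psi a b c0 D) c).det = 0

/-- The trace vectors of the bad figures. -/
def Bad {m : ℕ} (a : Ix m → ℕ) : Set (Ix m → ℝ) :=
  {y | (∃ M < m + 3, ∃ (q : Fin M → P) (E : Finset (Fin M × Fin M)) (D : Set P), Fig D q E ∧
      D.Nonempty ∧ y = Tr a D) ∨
    ∃ (q : Fin (m + 3) → P) (E : Finset (Fin (m + 3) × Fin (m + 3))) (D : Set P),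
      Fig D q E ∧ (Col q ∨ CritQ a q E D) ∧ y = Tr a D}

/-- Isospectral sets. -/
def Iso (D D' : Set P) : Prop := ∀ k, lamL D k = lamL D' k

/-- All companions of `D` with at most `m + 3` vertices are regular. -/
def Reg {m : ℕ} (a : Ix m → ℕ) (D : Set P) : Prop :=
  (∀ M < m + 3, ∀ (q : Fin M → P) (E : Finset (Fin M × Fin M)) (D' : Set P), Fig D' q E →
      ¬ Iso D' D) ∧
    ∀ (q : Fin (m + 3) → P) (E : Finset (Fin (m + 3) × Fin (m + 3))) (D' : Set P),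
      Fig D' q E → Iso D' D → ¬ Col q ∧ ¬ CritQ a q E D'

/-- The good polygons. -/
def UU {m : ℕ} (a : Ix m → ℕ) : Set (Fin (m + 3) → P) :=
  {p | SLG p (cyc (m + 3)) ∧ ∀ D, Fig D p (cyc (m + 3)) → Reg a D}

end Pool.Agent.MP4eed4eX.N
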