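import Pool.Agent.Lib.MP_4eed4e_an_P.OutG
import Pool.Agent.Lib.MP_4eed4e_an_XN.NDefs
import Pool.Agent.Lib.MP_4eed4e_an_PH.HPoly

set_option autoImplicit false

/-!
Project X, block N, module NRig: rigid motions and reflections of figures.
-/

namespace Pool.Agent.MP4eed4eX.N

open MeasureTheory Set Filter Topology Pool.Agent.MP4eed4eP

variable {n : ℕ}

/-! ### Affine homeomorphisms -/

/-- The map is affine. -/
private def Aff (e : P ≃ₜ P) : Prop :=
  ∀ (s t : ℝ) (x y : P), s + t = 1 → e (s • x + t • y) = s • e x + t • e y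

private theorem Aff.oseg {e : P ≃ₜ P} (he : Aff e) (x y : P) :
    e '' openSegment ℝ x y = openSegment ℝ (e x) (e y) := by
  ext z
  constructor
  · rintro ⟨w, ⟨s, t, hs, ht, hst, rfl⟩, rfl⟩
    exact ⟨s, t, hs, ht, hst, (he s t x y hst).symm⟩
  · rintro ⟨s, t, hs, ht, hst, rfl⟩
    exact ⟨s • x + t • y, ⟨s, t, hs, ht, hst, rfl⟩, he s t x y hst⟩

private theorem Aff.seg {e : P ≃ₜ P} (he : Aff e) (x y : P) :
    e '' segment ℝ x y = segment ℝ (e x) (e y) := by
  ext z
  constructor
  · rintro ⟨w, ⟨s, t, hs, ht, hst, rfl⟩, rfl⟩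
    exact ⟨s, t, hs, ht, hst, (he s t x y hst).symm⟩
  · rintro ⟨s, t, hs, ht, hst, rfl⟩
    exact ⟨s • x + t • y, ⟨s, t, hs, ht, hst, rfl⟩, he s t x y hst⟩

private theorem Aff.slg {e : P ≃ₜ P} (he : Aff e) {p : Fin n → P} {E : Finset (Fin n × Fin n)}
    (h : SLG p E) : SLG (fun i => e (p i)) E := by
  refine ⟨fun i j hij => h.inj (e.injective hij), h.lt, ?_, ?_⟩
  · intro f hf k hk
    rw [← he.oseg] at hk
    obtain ⟨y, hy, hyk⟩ := hk
    rw [e.injective hyk] at hy
    exact h.vert f hf k hy
  · intro f hf g hg hne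
    rw [← he.oseg, ← he.oseg]
    exact (Set.disjoint_image_iff e.injective).2 (h.disj f hf g hg hne)

private theorem Aff.gr {e : P ≃ₜ P} (he : Aff e) (p : Fin n → P) (E : Finset (Fin n × Fin n)) :
    e '' Gr p E = Gr (fun i => e (p i)) E := by
  unfold Gr
  rw [Set.image_union, ← Set.range_comp, Set.image_iUnion₂]
  have h : ∀ f : Fin n × Fin n, e '' segment ℝ (p f.1) (p f.2) =
      segment ℝ (e (p f.1)) (e (p f.2)) := fun f => he.seg _ _
  simp only [h]
  rfl

private theorem Aff.fig {e : P ≃ₜ P} (he : Aff e) {D : Set P} {p : Fin n → P}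
    {E : Finset (Fin n × Fin n)} (h : Fig D p E) : Fig (e '' D) (fun i => e (p i)) E := by
  refine ⟨he.slg h.slg, e.isOpenMap _ h.op, ?_, ?_⟩
  · exact (h.bdd.isCompact_closure.image e.continuous).isBounded.subset
      (Set.image_mono subset_closure)
  · rw [← e.image_frontier, h.fr, he.gr]

private theorem rig_aff (θ : ℝ) (β : P) (s t : ℝ) (x y : P) (h : s + t = 1) :
    rig θ β (s • x + t • y) = s • rig θ β x + t • rig θ β y := by
  refine Prod.ext ?_ ?_
  · simp only [rig, Prod.fst_add, Prod.snd_add, Prod.smul_fst, Prod.smul_snd, smul_eq_mul]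
    linear_combination (-β.1) * h
  · simp only [rig, Prod.fst_add, Prod.snd_add, Prod.smul_fst, Prod.smul_snd, smul_eq_mul]
    linear_combination (-β.2) * h

/-- A rigid motion is an affine homeomorphism. Proof. The inverse is
`v ↦ rig (-θ) (- R v)`, see `H.rig_inv` in `MP_4eed4e_an_PH/HPoly`. -/
theorem rig_homeo (θ : ℝ) (β : P) : ∃ e : P ≃ₜ P, (∀ x, e x = rig θ β x) ∧
    ∃ θ' β', ∀ x, e.symm x = rig θ' β' x := by
  have h0 : ∀ x, PG.cfH (Real.cos θ) (Real.sin θ) (PG.cos_sin_ne θ) β x = rig θ β x := by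
    intro x
    rw [PG.cfH_apply, PG.rig_eq_cf]
  obtain ⟨β', hβ⟩ := Pool.Agent.MP4eed4eP.H.rig_inv θ β
  refine ⟨PG.cfH (Real.cos θ) (Real.sin θ) (PG.cos_sin_ne θ) β, h0, -θ, β', ?_⟩
  intro x
  rw [Homeomorph.symm_apply_eq, h0]
  exact (hβ x).2.symm

/-- Proof. `rig_homeo`; segments are mapped to segments (`rig` is affine: `image_segment`-like),
boundedness (Lipschitz or continuous on compact sets), `Homeomorph.image_frontier`. -/
theorem fig_rig {D : Set P} {p : Fin n → P} {E : Finset (Fin n × Fin n)} (h : Fig D p E)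
    (θ : ℝ) (β : P) : Fig (rig θ β '' D) (fun i => rig θ β (p i)) E := by
  obtain ⟨e, he, -⟩ := rig_homeo θ β
  have he' : (e : P → P) = rig θ β := funext he
  have ha : Aff e := by
    intro s t x y hst
    rw [he']
    exact rig_aff θ β s t x y hst
  have h1 := ha.fig h
  rw [he'] at h1
  exact h1

/-- Proof. `fig_rig` for the inverse motion. -/
theorem fig_unrig {D : Set P} {p : Fin n → P} {E : Finset (Fin n × Fin n)} {θ : ℝ} {β : P}
    (h : Fig D (fun i => rig θ β (p i)) E) :
    ∃ D0, Fig D0 p E ∧ D = rig θ β '' D0 := by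
  obtain ⟨β', hβ⟩ := Pool.Agent.MP4eed4eP.H.rig_inv θ β
  refine ⟨rig (-θ) β' '' D, ?_, ?_⟩
  · have h1 := fig_rig h (-θ) β'
    have h2 : (fun i => rig (-θ) β' (rig θ β (p i))) = p := funext fun i => (hβ (p i)).1
    rw [h2] at h1
    exact h1
  · rw [Set.image_image]
    have h2 : ∀ v, rig θ β (rig (-θ) β' v) = v := fun v => (hβ v).2
    simp only [h2, Set.image_id']

theorem slg_rig {p : Fin n → P} {E : Finset (Fin n × Fin n)} (h : SLG p E) (θ : ℝ) (β : P) :
    SLG (fun i => rig θ β (p i)) E := by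
  obtain ⟨e, he, -⟩ := rig_homeo θ β
  have he' : (e : P → P) = rig θ β := funext he
  have ha : Aff e := by
    intro s t x y hst
    rw [he']
    exact rig_aff θ β s t x y hst
  have h1 := ha.slg h
  rw [he'] at h1
  exact h1

theorem Tr_rig {ι : Type} (a : ι → ℕ) (D : Set P) (θ : ℝ) (β : P) :
    Tr a (rig θ β '' D) = Tr a D := by
  funext i
  unfold Tr fa
  simp only [lamL_rig]

theorem iso_tr {ι : Type} {D D' : Set P} (h : Iso D D') (a : ι → ℕ) : Tr a D = Tr a D' := by
  funext i
  unfold Tr fa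
  simp only [h _]

/-! ### The reflection -/

private theorem mir_mir (v : P) : mir (mir v) = v := by
  unfold mir
  simp only [neg_neg]

private theorem mir_cont : Continuous mir := by
  unfold mir
  fun_prop

/-- The reflection as a homeomorphism. -/
private def mirH : P ≃ₜ P where
  toFun := mir
  invFun := mir
  left_inv := mir_mir
  right_inv := mir_mir
  continuous_toFun := mir_cont
  continuous_invFun := mir_cont

/-- The reflection as a linear equivalence. -/
private noncomputable def mirL : P ≃L[ℝ] P :=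
  LinearEquiv.toContinuousLinearEquiv
    { toFun := mir
      invFun := mir
      left_inv := mir_mir
      right_inv := mir_mir
      map_add' := fun v w => by
        ext
        · rfl
        · simp only [mir, Prod.snd_add]; ring
      map_smul' := fun a v => by
        ext
        · rfl
        · simp only [mir, Prod.smul_snd, smul_eq_mul, RingHom.id_apply]; ring }

private theorem mirL_apply (v : P) : mirL v = mir v := rfl

private theorem integral_mir (g : P → ℝ) : ∫ x, g (mir x) = ∫ x, g x := by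
  have h1 : MeasurePreserving mir (volume : Measure P) volume := by
    have h2 := (MeasurePreserving.id (volume : Measure ℝ)).prod
      (Measure.measurePreserving_neg (volume : Measure ℝ))
    exact h2
  exact h1.integral_comp mirH.measurableEmbedding g

private theorem fderiv_mir (f : P → ℝ) (x v : P) :
    fderiv ℝ (fun y => f (mir y)) x v = fderiv ℝ f (mir x) (mir v) := by
  have h1 : (fun y => f (mir y)) = f ∘ mirL := rfl
  rw [h1, ContinuousLinearEquiv.comp_right_fderiv]
  rfl

private theorem d1_mir (f : P → ℝ) (x : P) : d1 (fun y => f (mir y)) x = d1 f (mir x) := by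
  unfold d1
  rw [fderiv_mir]
  have : mir ((1 : ℝ), (0 : ℝ)) = (1, 0) := by
    unfold mir
    simp
  rw [this]

private theorem d2_mir (f : P → ℝ) (x : P) : d2 (fun y => f (mir y)) x = -d2 f (mir x) := by
  unfold d2
  rw [fderiv_mir]
  have : mir ((0 : ℝ), (1 : ℝ)) = -((0 : ℝ), (1 : ℝ)) := by
    unfold mir
    simp
  rw [this, map_neg]

private theorem en_mir (f : P → ℝ) : en (fun y => f (mir y)) = en f := by
  unfold en
  simp only [d1_mir, d2_mir, neg_sq]
  exact integral_mir fun y => d1 f y ^ 2 + d2 f y ^ 2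

private theorem l2_mir (f : P → ℝ) : l2 (fun y => f (mir y)) = l2 f := by
  unfold l2
  exact integral_mir fun y => f y ^ 2

private theorem LipC_mir {D : Set P} {f : P → ℝ} (hf : LipC (mir '' D) f) :
    LipC D (fun y => f (mir y)) := by
  obtain ⟨⟨K, hK⟩, hc, hs⟩ := hf
  have hcomp : (fun y => f (mir y)) = f ∘ mirH := rfl
  refine ⟨?_, ?_, ?_⟩
  · have h1 : LipschitzWith ‖(mirL : P →L[ℝ] P)‖₊ mir := by
      refine LipschitzWith.of_dist_le_mul fun x y => ?_
      exact (mirL : P →L[ℝ] P).lipschitz.dist_le_mul x y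
    exact ⟨_, hK.comp h1⟩
  · rw [hcomp]; exact hc.comp_homeomorph _
  · rw [hcomp]
    intro x hx
    have h1 : mirH x ∈ tsupport f := by
      have h2 := tsupport_comp_eq_preimage f mirH
      rw [h2] at hx; exact hx
    obtain ⟨y, hy, hyx⟩ := hs h1
    have h3 : y = x := mirH.injective hyx
    rwa [← h3]

private theorem RS_mir {D : Set P} {k : ℕ} {r : ℝ} (hr : r ∈ PG.RS (mir '' D) k) :
    r ∈ PG.RS D k := by
  obtain ⟨V, hV, hVf⟩ := hr
  have hinj : Function.Injective (LinearMap.funLeft ℝ ℝ mir) :=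
    LinearMap.funLeft_injective_of_surjective ℝ ℝ _ mirH.surjective
  refine ⟨V.map (LinearMap.funLeft ℝ ℝ mir), ?_, ?_⟩
  · rw [← hV]
    exact (LinearEquiv.finrank_eq (V.equivMapOfInjective _ hinj)).symm
  · rintro _ ⟨f, hf, rfl⟩
    obtain ⟨h1, h2⟩ := hVf f hf
    have e : LinearMap.funLeft ℝ ℝ mir f = fun y => f (mir y) := rfl
    rw [e]
    refine ⟨LipC_mir h1, ?_⟩
    rw [en_mir, l2_mir]
    exact h2

/-- Proof. As `lamL_rig` (`PG.lamL_cf`): composition with the reflection maps `LipC (mir '' D)` onto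
`LipC D`, and preserves `en` and `l2` (change of variables, `mir` is linear with determinant
`-1`). -/
theorem lamL_mir (D : Set P) (k : ℕ) : lamL (mir '' D) k = lamL D k := by
  rw [PG.lamL_def, PG.lamL_def]
  have h1 : PG.RS (mir '' D) k = PG.RS D k := by
    refine Set.Subset.antisymm (fun r hr => RS_mir hr) (fun r hr => ?_)
    refine RS_mir (D := mir '' D) ?_
    have h2 : mir '' (mir '' D) = D := by
      rw [Set.image_image]
      simp only [mir_mir, Set.image_id']
    rw [h2]
    exact hr
  rw [h1]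

theorem fig_mir {D : Set P} {p : Fin n → P} {E : Finset (Fin n × Fin n)} (h : Fig D p E) :
    Fig (mir '' D) (fun i => mir (p i)) E := by
  have ha : Aff mirH := by
    intro s t x y _
    show mir (s • x + t • y) = s • mir x + t • mir y
    rw [← mirL_apply, map_add, map_smul, map_smul]
    rfl
  exact ha.fig h

end Pool.Agent.MP4eed4eX.N
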