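import Pool.Agent.Lib.MP_4eed4e_an_XN.NCh
import Pool.Agent.Lib.MP_4eed4e_an_XN.NNc
import Pool.Agent.Lib.MP_4eed4e_an_XN.NRig

set_option autoImplicit false

/-!
Project X, block N, module NCrit: critical figures.
-/

namespace Pool.Agent.MP4eed4eX.N

open MeasureTheory Set Filter Topology Pool.Agent.MP4eed4eP

variable {m : ℕ} {a : Ix m → ℕ} {c0 : Par m} {E : Finset (Fin (m + 3) × Fin (m + 3))}
  {b : Fin (m + 3) → P → ℝ} {ρ : ℝ} {D : Set P}

/-- Proof. `Ch.agr`: near `c1` the functions `Psi a b1 c1 D1` and `Psi a b c0 D` are equal, so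
they have the same derivative near `c1` (`Filter.EventuallyEq.fderiv`). -/
theorem psi_agree (h : Ch a c0 E b ρ) (hD : Fig D (nf c0) E) {c1 : Par m}
    (h1 : c1 ∈ Metric.ball c0 ρ) {b1 : Fin (m + 3) → P → ℝ} (hb1 : Hat (nf c1) E b1) :
    ∀ᶠ c in 𝓝 c1, fderiv ℝ (Psi a b1 c1 (ph b (fun i => nf c1 i - nf c0 i) '' D)) c =
      fderiv ℝ (Psi a b c0 D) c := by
  have h2 := h.agr D hD c1 h1 b1 hb1
  have h3 : Psi a b1 c1 (ph b (fun i => nf c1 i - nf c0 i) '' D) =ᶠ[𝓝 c1] Psi a b c0 D := by
    filter_upwards [h2] with c hc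
    unfold Psi
    rw [hc]
  filter_upwards [h3.eventuallyEq_nhds] with c hc
  exact hc.fderiv_eq

/-- Proof. `psi_agree` at `c1`; `exists_hat` for the direction from right to left. -/
theorem crit_iff (h : Ch a c0 E b ρ) (hD : Fig D (nf c0) E) {c1 : Par m}
    (h1 : c1 ∈ Metric.ball c0 ρ) :
    Crit a c1 E (ph b (fun i => nf c1 i - nf c0 i) '' D) ↔
      (fderiv ℝ (Psi a b c0 D) c1).det = 0 := by
  constructor
  · rintro ⟨b1, hb1, h2⟩
    rw [← (psi_agree h hD h1 hb1).self_of_nhds]
    exact h2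
  · intro h2
    obtain ⟨b1, hb1⟩ := exists_hat (h.sub c1 h1).2
    refine ⟨b1, hb1, ?_⟩
    rw [(psi_agree h hD h1 hb1).self_of_nhds]
    exact h2

private theorem rig_inj_aux (θ : ℝ) (β : P) : Function.Injective (rig θ β) := by
  obtain ⟨e, he, -⟩ := rig_homeo θ β
  intro x y hxy
  exact e.injective (by rw [he, he]; exact hxy)

/-- Proof. The normal form is unique (`nc_rig`), the rigid motion is unique too (`nf c 1 ≠ nf c 0`:
it is determined by the images of the two points `0` and `(s, 0)`), so `D0` is unique. -/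
theorem critQ_iff {q : Fin (m + 3) → P} (h0 : 0 < c0 (iS m)) {θ : ℝ} {β : P}
    (hq : ∀ i, q i = rig θ β (nf c0 i)) (D0 : Set P) :
    CritQ a q E (rig θ β '' D0) ↔ Crit a c0 E D0 := by
  constructor
  · rintro ⟨c, D1, θ', β', h1, h2, h3, h4⟩
    have e1 : nc q = c0 := by
      have : q = fun i => rig θ β (nf c0 i) := funext hq
      rw [this]
      exact nc_rig h0 θ β
    have e2 : nc q = c := by
      have : q = fun i => rig θ' β' (nf c i) := funext h2
      rw [this]
      exact nc_rig h1 θ' β'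
    have e3 : c = c0 := e2.symm.trans e1
    subst e3
    have f0 := (hq 0).symm.trans (h2 0)
    have f1 := (hq 1).symm.trans (h2 1)
    rw [nf_zero] at f0
    rw [nf_one] at f1
    simp only [rig, Prod.fst_zero, Prod.snd_zero, mul_zero, sub_zero, zero_add, Prod.mk.injEq,
      add_zero] at f0 f1
    have g1 : Real.cos θ = Real.cos θ' := by
      have : Real.cos θ * c (iS m) = Real.cos θ' * c (iS m) := by linarith [f0.1, f1.1]
      exact mul_right_cancel₀ h0.ne' this
    have g2 : Real.sin θ = Real.sin θ' := by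
      have : Real.sin θ * c (iS m) = Real.sin θ' * c (iS m) := by linarith [f0.2, f1.2]
      exact mul_right_cancel₀ h0.ne' this
    have g3 : rig θ β = rig θ' β' := by
      funext v
      simp only [rig, g1, g2, f0.1, f0.2]
    rw [← g3] at h3
    have : D0 = D1 := (rig_inj_aux θ β).image_injective h3
    rw [this]
    exact h4
  · intro h
    exact ⟨c0, D0, θ, β, h0, hq, rfl, h⟩

/-- Proof. `det` of the derivative is continuous at `c0` (`Ch.an`, `AnalyticOnNhd.fderiv`),
`crit_iff`. -/
theorem not_crit_near (h : Ch a c0 E b ρ) (hD : Fig D (nf c0) E) (hc : ¬ Crit a c0 E D) :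
    ∀ᶠ c in 𝓝 c0, ¬ Crit a c E (ph b (fun i => nf c i - nf c0 i) '' D) := by
  have hm : c0 ∈ Metric.ball c0 ρ := Metric.mem_ball_self h.pos
  have hid : ph b (fun i => nf c0 i - nf c0 i) '' D = D := by
    have : ph b (fun i => nf c0 i - nf c0 i) = id := by
      funext x
      simp [ph]
    rw [this, image_id]
  have h1 : (fderiv ℝ (Psi a b c0 D) c0).det ≠ 0 := by
    intro h2
    apply hc
    have := (crit_iff h hD hm).2 h2
    rwa [hid] at this
  have h2 : ContinuousAt (fun c => (fderiv ℝ (Psi a b c0 D) c).det) c0 := by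
    have h3 : ContinuousAt (fderiv ℝ (Psi a b c0 D)) c0 := (h.an D hD c0 hm).fderiv.continuousAt
    exact (ContinuousLinearMap.continuous_det.continuousAt).comp h3
  have h4 := h2.eventually_ne h1
  filter_upwards [h4, Metric.ball_mem_nhds c0 h.pos] with c h5 h6 h7
  exact h5 ((crit_iff h hD h6).1 h7)

end Pool.Agent.MP4eed4eX.N
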