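import Mathlib

set_option autoImplicit false

/-!
Project X, block N, module NLin: countable covers.
-/

namespace Pool.Agent.MP4eed4eX.N

open MeasureTheory Set Filter Topology

/-- Proof. `TopologicalSpace.countable_cover_nhdsWithin`; a countable union of null sets is a null
set. -/
theorem lindelof {X Y : Type*} [TopologicalSpace X] [SecondCountableTopology X]
    [MeasurableSpace Y] (μ : Measure Y) {S : Set X} {R : X → Set Y}
    (h : ∀ c ∈ S, ∃ V ∈ 𝓝 c, μ (⋃ c' ∈ V ∩ S, R c') = 0) : μ (⋃ c ∈ S, R c) = 0 := by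
  classical
  have h' : ∀ c : X, ∃ V : Set X, c ∈ S → (V ∈ 𝓝 c ∧ μ (⋃ c' ∈ V ∩ S, R c') = 0) := by
    intro c
    by_cases hc : c ∈ S
    · obtain ⟨V, hV, hV'⟩ := h c hc
      exact ⟨V, fun _ => ⟨hV, hV'⟩⟩
    · exact ⟨∅, fun h => absurd h hc⟩
  choose V hV using h'
  obtain ⟨T, hTS, hTc, hST⟩ := TopologicalSpace.countable_cover_nhdsWithin
    (f := V) (s := S) (fun x hx => mem_nhdsWithin_of_mem_nhds (hV x hx).1)
  have hsub : (⋃ c ∈ S, R c) ⊆ ⋃ x ∈ T, ⋃ c' ∈ V x ∩ S, R c' := by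
    intro y hy
    rw [mem_iUnion₂] at hy
    obtain ⟨c, hc, hy⟩ := hy
    have h1 := hST hc
    rw [mem_iUnion₂] at h1
    obtain ⟨x, hx, hcx⟩ := h1
    rw [mem_iUnion₂]
    refine ⟨x, hx, ?_⟩
    rw [mem_iUnion₂]
    exact ⟨c, ⟨hcx, hc⟩, hy⟩
  refine measure_mono_null hsub ?_
  rw [measure_biUnion_null_iff hTc]
  intro x hx
  exact (hV x (hTS hx)).2

/-- The same for subsets of `X`. Proof. `lindelof` with `R c = {c}`-like, or
`measure_null_of_locally_null`. -/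
theorem lindelof' {X : Type*} [TopologicalSpace X] [SecondCountableTopology X]
    [MeasurableSpace X] (μ : Measure X) {S : Set X}
    (h : ∀ c ∈ S, ∃ V ∈ 𝓝 c, μ (V ∩ S) = 0) : μ S = 0 := by
  have key := lindelof (R := fun c => ({c} : Set X)) μ (S := S) (by
    intro c hc
    obtain ⟨V, hV, hV'⟩ := h c hc
    refine ⟨V, hV, ?_⟩
    rw [biUnion_of_singleton]
    exact hV')
  rw [biUnion_of_singleton] at key
  exact key

/-- Finitely many values: constant on a subsequence. -/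
theorem pigeon {α : Type*} [Finite α] (f : ℕ → α) :
    ∃ (x : α) (ψ : ℕ → ℕ), StrictMono ψ ∧ ∀ k, f (ψ k) = x := by
  obtain ⟨x, hx⟩ := Finite.exists_infinite_fiber f
  have hinf : (f ⁻¹' {x}).Infinite := Set.infinite_coe_iff.1 hx
  obtain ⟨ψ, hψ, hψ'⟩ := Filter.extraction_of_frequently_atTop
    (Nat.frequently_atTop_iff_infinite.2 hinf)
  exact ⟨x, ψ, hψ, fun k => hψ' k⟩

/-- Finitely many values: constant along an ultrafilter. -/
theorem pigeon' {α : Type*} {F : Set α} (hF : F.Finite) (U : Ultrafilter ℕ) {f : ℕ → α}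
    (h : ∀ᶠ k in (U : Filter ℕ), f k ∈ F) : ∃ x ∈ F, ∀ᶠ k in (U : Filter ℕ), f k = x := by
  have h1 : f ⁻¹' F ∈ U := h
  have h2 : (⋃ x ∈ F, f ⁻¹' {x}) ∈ U := by
    have h3 : (⋃ x ∈ F, f ⁻¹' {x}) = f ⁻¹' F := by
      ext k
      simp
    rw [h3]
    exact h1
  rw [Ultrafilter.finite_biUnion_mem_iff hF] at h2
  obtain ⟨x, hx, hx'⟩ := h2
  exact ⟨x, hx, hx'⟩

end Pool.Agent.MP4eed4eX.N
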