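import Pool.Agent.Lib.MP_4eed4e_an_PH.HSard
import Pool.Agent.Lib.MP_4eed4e_an_XN.NCrit
import Pool.Agent.Lib.MP_4eed4e_an_XN.NLin

set_option autoImplicit false

/-!
Project X, block N, module NNullC: trace vectors of figures with fewer vertices.
-/

namespace Pool.Agent.MP4eed4eX.N

open MeasureTheory Set Filter Topology Pool.Agent.MP4eed4eP

private theorem NNullC_dt_add (u v w : P) : dt u (v + w) = dt u v + dt u w := by
  simp only [dt, Prod.fst_add, Prod.snd_add]
  ring

private theorem NNullC_dt_smul (u : P) (t : ℝ) (v : P) : dt u (t • v) = t * dt u v := by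
  simp only [dt, Prod.smul_fst, Prod.smul_snd, smul_eq_mul]
  ring

private theorem NNullC_dt_neg (u v : P) : dt (-u) v = -dt u v := by
  simp only [dt, Prod.fst_neg, Prod.snd_neg]
  ring

private theorem NNullC_pos {u : P} (h : u ≠ 0) : 0 < dt u u := by
  by_contra hn
  have h2 : dt u u ≤ 0 := not_lt.1 hn
  unfold dt at h2
  apply h
  have h3 : u.1 = 0 := by nlinarith [sq_nonneg u.1, sq_nonneg u.2]
  have h4 : u.2 = 0 := by nlinarith [sq_nonneg u.1, sq_nonneg u.2]
  exact Prod.ext h3 h4

/-- A point of a bounded open set on one side of a line which contains the frontier. -/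
private theorem NNullC_half {D : Set P} (hO : IsOpen D) (hb : Bornology.IsBounded D) {u : P}
    {c : ℝ} (hu : 0 < dt u u) (hf : ∀ x ∈ frontier D, dt u x = c) {x : P} (hx : x ∈ D)
    (hc : c ≤ dt u x) : False := by
  -- a point strictly on the side
  obtain ⟨x1, hx1, hc1⟩ : ∃ x1 ∈ D, c < dt u x1 := by
    have hcont : Continuous fun t : ℝ => x + t • u := by fun_prop
    have h0 : (fun t : ℝ => x + t • u) 0 ∈ D := by
      simpa using hx
    have h1 : ∀ᶠ t in 𝓝 (0 : ℝ), x + t • u ∈ D :=
      hcont.continuousAt.eventually (hO.mem_nhds h0)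
    obtain ⟨ε, hε, h2⟩ := Metric.eventually_nhds_iff.1 h1
    refine ⟨x + (ε / 2) • u, h2 ?_, ?_⟩
    · rw [Real.dist_eq, sub_zero, abs_of_pos (by positivity)]
      linarith
    · rw [NNullC_dt_add, NNullC_dt_smul]
      have : 0 < ε / 2 * dt u u := by positivity
      linarith
  -- the half plane
  have hconv : Convex ℝ {y : P | c < dt u y} := by
    intro y hy z hz s t hs ht hst
    change c < dt u (s • y + t • z)
    rw [NNullC_dt_add, NNullC_dt_smul, NNullC_dt_smul]
    have hy' : c < dt u y := hy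
    have hz' : c < dt u z := hz
    rcases hs.eq_or_lt with h | h
    · have h5 : t = 1 := by linarith
      rw [← h, h5]
      linarith
    · have h5 : c = s * c + t * c := by rw [← add_mul, hst, one_mul]
      have h6 := mul_lt_mul_of_pos_left hy' h
      have h7 := mul_le_mul_of_nonneg_left hz'.le ht
      linarith
  have hsub : {y : P | c < dt u y} ⊆ D := by
    refine hconv.isPreconnected.subset_left_of_subset_union hO
      (isClosed_closure (s := D)).isOpen_compl ?_ ?_ ⟨x1, hc1, hx1⟩
    · exact Set.disjoint_compl_right_iff_subset.2 subset_closure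
    · intro y hy
      by_cases h1 : y ∈ D
      · exact Or.inl h1
      · refine Or.inr fun h2 => ?_
        have h3 : y ∈ frontier D := by
          rw [hO.frontier_eq]
          exact ⟨h2, h1⟩
        have h4 : c < dt u y := hy
        rw [hf y h3] at h4
        exact lt_irrefl _ h4
  obtain ⟨R, hR⟩ := hb.exists_norm_le
  have hun : 0 < ‖u‖ := by
    rw [norm_pos_iff]
    rintro rfl
    simp [dt] at hu
  have hR0 : 0 ≤ R := (norm_nonneg _).trans (hR x hx)
  have ht : 0 < (R + ‖x1‖ + 1) / ‖u‖ := by positivity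
  have h6 := hR (x1 + ((R + ‖x1‖ + 1) / ‖u‖) • u) (hsub (by
    change c < dt u _
    rw [NNullC_dt_add, NNullC_dt_smul]
    have : 0 < (R + ‖x1‖ + 1) / ‖u‖ * dt u u := by positivity
    linarith))
  have h7 : ‖((R + ‖x1‖ + 1) / ‖u‖) • u‖ = R + ‖x1‖ + 1 := by
    rw [norm_smul, Real.norm_eq_abs, abs_of_pos ht, div_mul_cancel₀ _ hun.ne']
  have h8 : ‖((R + ‖x1‖ + 1) / ‖u‖) • u‖ ≤ ‖x1 + ((R + ‖x1‖ + 1) / ‖u‖) • u‖ + ‖x1‖ := by
    have := norm_sub_le (x1 + ((R + ‖x1‖ + 1) / ‖u‖) • u) x1
    rwa [add_sub_cancel_left] at this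
  linarith

private theorem NNullC_line {M : ℕ} (hM : M < 3) {q : Fin M → P} (hq : Function.Injective q) :
    ∃ (u : P) (c : ℝ), 0 < dt u u ∧ ∀ i, dt u (q i) = c := by
  interval_cases M
  · exact ⟨(1, 0), 0, by norm_num [dt], fun i => i.elim0⟩
  · refine ⟨(1, 0), dt (1, 0) (q 0), by norm_num [dt], fun i => ?_⟩
    rw [Subsingleton.elim i 0]
  · have h0 : q 1 - q 0 ≠ 0 := by
      intro h
      have h1 := hq (sub_eq_zero.1 h)
      exact absurd h1 (by decide)
    refine ⟨(-(q 1 - q 0).2, (q 1 - q 0).1), dt (-(q 1 - q 0).2, (q 1 - q 0).1) (q 0), ?_, ?_⟩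
    · have h2 := NNullC_pos h0
      unfold dt at h2 ⊢
      simp only
      linarith
    · intro i
      fin_cases i
      · rfl
      · simp only [dt, Prod.fst_sub, Prod.snd_sub, Fin.mk_one]
        ring

/-- A figure with at most two vertices is empty. Proof. The frontier is contained in a line (the
vertices and at most one edge): `af t = 0`. If `x ∈ D` then there is such a point off the line
(`D` is open); the open half plane which contains it is preconnected and does not meet the
frontier, so it is contained in `D`, which is bounded: contradiction. -/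
theorem no_small {M : ℕ} (hM : M < 3) {q : Fin M → P} {E : Finset (Fin M × Fin M)} {D : Set P}
    (h : Fig D q E) : D = ∅ := by
  obtain ⟨u, c, hu, hc⟩ := NNullC_line hM h.slg.inj
  have hf : ∀ x ∈ frontier D, dt u x = c := by
    intro x hx
    rw [h.fr] at hx
    rcases hx with ⟨i, rfl⟩ | hx
    · exact hc i
    · rw [mem_iUnion₂] at hx
      obtain ⟨e, he, s, t, hs, ht, hst, rfl⟩ := hx
      rw [NNullC_dt_add, NNullC_dt_smul, NNullC_dt_smul, hc, hc, ← add_mul, hst, one_mul]
  rw [eq_empty_iff_forall_notMem]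
  intro x hx
  rcases le_total c (dt u x) with h1 | h1
  · exact NNullC_half h.op h.bdd hu hf hx h1
  · refine NNullC_half (u := -u) (c := -c) h.op h.bdd ?_ (fun y hy => ?_) hx ?_
    · have h2 : dt (-u) (-u) = dt u u := by
        simp only [dt, Prod.fst_neg, Prod.snd_neg]
        ring
      rw [h2]
      exact hu
    · rw [NNullC_dt_neg, hf y hy]
    · rw [NNullC_dt_neg]
      linarith

/-- Proof. Every figure with `m' + 3` vertices is `rig θ β '' D0` with a figure over `nf c`,
`0 < c (iS m')` (`exists_rig`, `fig_unrig`), and has the same trace vector (`Tr_rig`). `lindelof`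
over
the parameters `c` in `Par m'` with the charts (`exists_ch` with exponents `a : Ix m → ℕ`), and
`H.null_low` (`card (Ix m') < card (Ix m)`) for the functions `Psi a b c0 D` on the ball. -/
theorem null_few {m m' : ℕ} (hm : m' < m) {a : Ix m → ℕ} (ha : ∀ i, 1 ≤ a i)
    (E : Finset (Fin (m' + 3) × Fin (m' + 3))) :
    volume {y | ∃ (q : Fin (m' + 3) → P) (D : Set P), Fig D q E ∧ y = Tr a D} = 0 := by
  have hcard : Fintype.card (Ix m') < Fintype.card (Ix m) := by
    simp only [Ix, Fintype.card_sum, Fintype.card_fin]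
    omega
  have key : volume (⋃ c ∈ {c : Par m' | 0 < c (iS m') ∧ SLG (nf c) E},
      {y : Ix m → ℝ | ∃ D, Fig D (nf c) E ∧ y = Tr a D}) = 0 := by
    refine lindelof volume fun c hc => ?_
    obtain ⟨b, ρ, hch⟩ := exists_ch (a := a) ha hc.1 hc.2
    refine ⟨Metric.ball c ρ, Metric.ball_mem_nhds c hch.pos, ?_⟩
    have hnull : volume (⋃ D ∈ {D : Set P | Fig D (nf c) E},
        Psi a b c D '' Metric.ball c ρ) = 0 := by
      rw [measure_biUnion_null_iff (finite_fig (nf c) E).countable]
      intro D hD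
      exact H.null_low hcard Metric.isOpen_ball
        (hch.an D hD).differentiableOn
    refine measure_mono_null ?_ hnull
    intro y hy
    rw [mem_iUnion₂] at hy
    obtain ⟨c', hc', D', hD', rfl⟩ := hy
    obtain ⟨D, hD, rfl⟩ := hch.sur c' hc'.1 D' hD'
    rw [mem_iUnion₂]
    exact ⟨D, hD, c', hc'.1, rfl⟩
  refine measure_mono_null ?_ key
  rintro _ ⟨q, D, hD, rfl⟩
  have h01 : q 0 ≠ q 1 := by
    intro h
    have h1 := congrArg Fin.val (hD.slg.inj h)
    rw [Fin.val_zero, Fin.val_one (m' + 1)] at h1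
    exact zero_ne_one h1
  obtain ⟨hs, θ, hθ⟩ := exists_rig h01
  have hq : q = fun i => rig θ (q 0) (nf (nc q) i) := funext hθ
  rw [hq] at hD
  obtain ⟨D0, hD0, hDD⟩ := fig_unrig hD
  rw [mem_iUnion₂]
  refine ⟨nc q, ⟨hs, hD0.slg⟩, D0, hD0, ?_⟩
  rw [hDD, Tr_rig]

end Pool.Agent.MP4eed4eX.N
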