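import Pool.Agent.Lib.MP_4eed4e_an_XN.NNullA
import Pool.Agent.Lib.MP_4eed4e_an_XN.NNullC

set_option autoImplicit false

/-!
Project X, block N, module NBad: the trace vectors of the bad figures are a null set.
-/

namespace Pool.Agent.MP4eed4eX.N

open MeasureTheory Set Filter Topology Pool.Agent.MP4eed4eP

variable {m : ℕ}

/-- Proof. A finite union over `M` and `E`: `M < 3` is excluded by `no_small`, `M = m' + 3` with
`m' < m`: `null_few`. For `M = m + 3` replace `q` by its normal form (`exists_rig`, `fig_unrig`,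
`Tr_rig`, `col_nc`, `critQ_iff`): `null_col_fig`, `null_crit_fig`. -/
theorem null_bad {a : Ix m → ℕ} (ha : ∀ i, 1 ≤ a i) : volume (Bad a) = 0 := by
  have h0 : ∀ (M : ℕ) (E : Finset (Fin M × Fin M)), M < m + 3 →
      volume {y : Ix m → ℝ | ∃ (q : Fin M → P) (D : Set P), Fig D q E ∧ D.Nonempty ∧
        y = Tr a D} = 0 := by
    intro M E hM
    rcases lt_or_ge M 3 with h3 | h3
    · have : {y : Ix m → ℝ | ∃ (q : Fin M → P) (D : Set P), Fig D q E ∧ D.Nonempty ∧
          y = Tr a D} = ∅ := by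
        ext y
        simp only [mem_ofPred_eq, mem_empty_iff_false, iff_false]
        rintro ⟨q, D, hF, hne, -⟩
        rw [no_small h3 hF] at hne
        exact Set.not_nonempty_empty hne
      rw [this]
      exact measure_empty
    · obtain ⟨m', rfl⟩ := Nat.exists_eq_add_of_le' h3
      refine measure_mono_null ?_ (null_few (m := m) (m' := m') (by omega) ha E)
      rintro y ⟨q, D, hF, -, hy⟩
      exact ⟨q, D, hF, hy⟩
  have h1 : ∀ E : Finset (Fin (m + 3) × Fin (m + 3)),
      volume ({y : Ix m → ℝ | ∃ (c : Par m) (D : Set P), 0 < c (iS m) ∧ Fig D (nf c) E ∧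
        Crit a c E D ∧ y = Tr a D} ∪ {y : Ix m → ℝ | ∃ (c : Par m) (D : Set P),
        0 < c (iS m) ∧ Fig D (nf c) E ∧ Col (nf c) ∧ y = Tr a D}) = 0 :=
    fun E => measure_union_null (null_crit_fig ha E) (null_col_fig ha E)
  have h2 : volume (⋃ (M : Fin (m + 3)) (E : Finset (Fin (M : ℕ) × Fin (M : ℕ))),
      {y : Ix m → ℝ | ∃ (q : Fin (M : ℕ) → P) (D : Set P), Fig D q E ∧ D.Nonempty ∧
        y = Tr a D}) = 0 :=
    measure_iUnion_null fun M => measure_iUnion_null fun E => h0 M E M.2
  have h3 := measure_iUnion_null h1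
  refine measure_mono_null ?_ (measure_union_null h2 h3)
  rintro y (⟨M, hM, q, E, D, hF, hne, hy⟩ | ⟨q, E, D, hF, hc, hy⟩)
  · refine Or.inl ?_
    simp only [mem_iUnion]
    exact ⟨⟨M, hM⟩, E, q, D, hF, hne, hy⟩
  · refine Or.inr ?_
    simp only [mem_iUnion]
    refine ⟨E, ?_⟩
    have h01 : q 0 ≠ q 1 := by
      intro he
      have := hF.slg.inj he
      simp at this
    obtain ⟨hpos, θ, hθ⟩ := exists_rig h01
    have hF' : Fig D (fun i => rig θ (q 0) (nf (nc q) i)) E := by
      have : (fun i => rig θ (q 0) (nf (nc q) i)) = q := funext fun i => (hθ i).symm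
      rw [this]
      exact hF
    obtain ⟨D0, hF0, hD0⟩ := fig_unrig hF'
    have hTr : Tr a D = Tr a D0 := by rw [hD0, Tr_rig]
    rcases hc with hc | hc
    · exact Or.inr ⟨nc q, D0, hpos, hF0, (col_nc h01).2 hc, hy.trans hTr⟩
    · refine Or.inl ⟨nc q, D0, hpos, hF0, ?_, hy.trans hTr⟩
      rw [hD0] at hc
      exact (critQ_iff hpos hθ D0).1 hc

private theorem NBad_lamL_empty : lamL (∅ : Set P) 1 = 0 := by
  unfold lamL
  have : {r : ℝ | ∃ V : Submodule ℝ (P → ℝ), Module.finrank ℝ V = 1 ∧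
      ∀ f ∈ V, LipC (∅ : Set P) f ∧ en f ≤ r * l2 f} = ∅ := by
    ext r
    simp only [mem_ofPred_eq, mem_empty_iff_false, iff_false]
    rintro ⟨V, hV, hf⟩
    have hbot : V = ⊥ := by
      rw [Submodule.eq_bot_iff]
      intro f hfV
      have h1 := (hf f hfV).1.2.2
      rw [Set.subset_empty_iff, tsupport_eq_empty_iff] at h1
      exact h1
    rw [hbot, finrank_bot] at hV
    exact one_ne_zero hV.symm
  rw [this, Real.sInf_empty]

/-- Proof. If `D` is not regular then a companion `D'` is bad, and `Tr a D' = Tr a D`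
(`iso_tr`). `D` is not empty, so `0 < lamL D 1` (`lamL_pos`), and `D'` is not empty (the values
`lamL ∅ 1 = 0`: the set in the definition is empty). -/
theorem bad_of_not_reg {a : Ix m → ℕ} {D : Set P} (hO : IsOpen D)
    (hb : Bornology.IsBounded D) (hne : D.Nonempty) (h : ¬ Reg a D) : Tr a D ∈ Bad a := by
  have hpos := lamL_pos hO hb hne 0
  unfold Reg at h
  rw [not_and_or] at h
  rcases h with h | h
  · push Not at h
    obtain ⟨M, hM, q, E, D', hF, hI⟩ := h
    refine Or.inl ⟨M, hM, q, E, D', hF, ?_, (iso_tr hI a).symm⟩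
    by_contra he
    rw [Set.not_nonempty_iff_eq_empty] at he
    have h1 := hI 1
    rw [he, NBad_lamL_empty] at h1
    exact hpos.ne h1
  · push Not at h
    obtain ⟨q, E, D', hF, hI, hc⟩ := h
    refine Or.inr ⟨q, E, D', hF, ?_, (iso_tr hI a).symm⟩
    by_cases hcol : Col q
    · exact Or.inl hcol
    · exact Or.inr (hc hcol)

end Pool.Agent.MP4eed4eX.N
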