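import Pool.Agent.Lib.MP_4eed4e_an_P.OutD
import Pool.Agent.Lib.MP_4eed4e_an_P.OutG
import Pool.Agent.Lib.MP_4eed4e_an_PH.HPoly
import Pool.Agent.Lib.MP_4eed4e_an_X.OutK
import Pool.Agent.Lib.MP_4eed4e_an_X.OutO
import Pool.Agent.Lib.MP_4eed4e_an_XN.NNc
import Pool.Agent.Lib.MP_4eed4e_an_XN.NRig

set_option autoImplicit false

/-!
Project X, block N, module NBaseA: convex polygons in the parameters of project P.
-/

namespace Pool.Agent.MP4eed4eX.N

open MeasureTheory Set Filter Topology Pool.Agent.MP4eed4eP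

variable {m : ℕ}

private theorem NBaseA_dt {u : P} (h : u ≠ 0) : dt u u ≠ 0 := by
  intro h0
  apply h
  unfold dt at h0
  have h1 : u.1 = 0 := by nlinarith [sq_nonneg u.1, sq_nonneg u.2]
  have h2 : u.2 = 0 := by nlinarith [sq_nonneg u.1, sq_nonneg u.2]
  exact Prod.ext h1 h2

private theorem NBaseA_ne {q : Fin (m + 3) → P} (h : Ccw q) {i j : Fin (m + 3)}
    (hij : i ≠ j) : q i ≠ q j := by
  intro he
  have h1 := h.convP i
  exact h1 (subset_convexHull ℝ _ ⟨j, fun h2 => hij h2.symm, he.symm⟩)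

/-- Proof. The formula for `nc` is a composition of differentiable functions where
`dt u u ≠ 0`, `u = q 1 - q 0`. -/
theorem nc_diff {q : Fin (m + 3) → P} (h : q 0 ≠ q 1) : DifferentiableAt ℝ (nc (m := m)) q := by
  have hne : dt (q 1 - q 0) (q 1 - q 0) ≠ 0 := NBaseA_dt (sub_ne_zero.2 h.symm)
  have hpos : 0 < dt (q 1 - q 0) (q 1 - q 0) :=
    lt_of_le_of_ne (add_nonneg (mul_self_nonneg _) (mul_self_nonneg _)) hne.symm
  have hs : √(dt (q 1 - q 0) (q 1 - q 0)) ≠ 0 := (Real.sqrt_pos.2 hpos).ne'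
  have h1 : DifferentiableAt ℝ (fun q : Fin (m + 3) → P => √(dt (q 1 - q 0) (q 1 - q 0))) q := by
    refine DifferentiableAt.sqrt ?_ hne
    unfold dt
    fun_prop
  have h2 : ∀ i : Fin (m + 3), DifferentiableAt ℝ
      (fun q : Fin (m + 3) → P => (fr (q 1 - q 0) (q i - q 0)).1) q := by
    intro i
    have h3 : DifferentiableAt ℝ (fun q : Fin (m + 3) → P => dt (q 1 - q 0) (q i - q 0)) q := by
      unfold dt
      fun_prop
    have h4 := h3.fun_mul (h1.fun_inv hs)
    simpa only [fr, div_eq_mul_inv] using h4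
  have h2' : ∀ i : Fin (m + 3), DifferentiableAt ℝ
      (fun q : Fin (m + 3) → P => (fr (q 1 - q 0) (q i - q 0)).2) q := by
    intro i
    have h3 : DifferentiableAt ℝ (fun q : Fin (m + 3) → P => det2 (q 1 - q 0) (q i - q 0)) q := by
      unfold det2
      fun_prop
    have h4 := h3.fun_mul (h1.fun_inv hs)
    simpa only [fr, div_eq_mul_inv] using h4
  rw [differentiableAt_pi]
  rintro (k | (j | j))
  · fin_cases k
    · exact h2 1
    · exact h2 2
    · exact h2' 2
  · exact h2 _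
  · exact h2' _

/-- Proof. `H.poly_smooth`, `nc_diff`; the points of a `Ccw` polygon are different. -/
theorem tau_diff {c : Par m} (hw : Ccw (poly c)) :
    DifferentiableAt ℝ (fun c : Par m => nc (poly c)) c := by
  have h01 : (0 : Fin (m + 3)) ≠ 1 := by
    intro h0
    have h1 := congrArg Fin.val h0
    have h2 : ((1 : Fin (m + 3)) : ℕ) = 1 := Fin.val_one (m + 1)
    have h3 : ((0 : Fin (m + 3)) : ℕ) = 0 := rfl
    omega
  exact (nc_diff (NBaseA_ne hw h01)).comp c
    ((H.poly_smooth m).differentiable one_ne_zero).differentiableAt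

theorem ccw_ne {q : Fin (m + 3) → P} (h : Ccw q) {i j : Fin (m + 3)} (hij : i ≠ j) :
    q i ≠ q j := by
  intro he
  have h1 := h.convP i
  exact h1 (subset_convexHull ℝ _ ⟨j, fun h2 => hij h2.symm, he.symm⟩)

/-- The figure over the normal form of a convex polygon. Proof. `q i = rig θ _ (nf (nc q) i)`
(`exists_rig`), so `nf (nc q)` is `Ccw` (`Ccw_rig`). `fig_ccw`. -/
theorem fig_nc {q : Fin (m + 3) → P} (h : Ccw q) : Ccw (nf (nc q)) ∧
    (∀ D, Fig D (nf (nc q)) (cyc (m + 3)) → D = Kp (nf (nc q))) ∧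
    Fig (Kp (nf (nc q))) (nf (nc q)) (cyc (m + 3)) := by
  have h01 : (0 : Fin (m + 3)) ≠ 1 := by
    intro h0
    have h1 := congrArg Fin.val h0
    have h2 : ((1 : Fin (m + 3)) : ℕ) = 1 := Fin.val_one (m + 1)
    have h3 : ((0 : Fin (m + 3)) : ℕ) = 0 := rfl
    omega
  obtain ⟨-, θ, hθ⟩ := exists_rig (ccw_ne h h01)
  have h1 : Ccw (nf (nc q)) := by
    refine (Ccw_rig (nf (nc q)) θ (q 0)).1 ?_
    have h2 : (fun i => rig θ (q 0) (nf (nc q) i)) = q := by
      funext i
      exact (hθ i).symm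
    rw [h2]
    exact h
  exact ⟨h1, fun D hD => fig_ccw h1 hD, fig_Kp h1⟩

/-- The traces of project P in the charts. Proof. For `c'` near `c`: `poly c'` is `Ccw`
(`isOpen_Ccw`, `H.poly_smooth`), `c' ∈ CM m`, `nc (poly c')` is near `c0 = nc (poly c)`, so the
left set is a figure over `nf (nc (poly c'))` (`chart`), hence equal to `Kp (nf (nc (poly c')))`
(`fig_nc`). This set is a rigid image of `Kp (poly c') = Dom c'` (`exists_rig`, `Kp_rig`,
`Dom_eq`), so
`fa` is the same (`lamL_rig`). -/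
theorem psi_tau {ι : Type} {a : ι → ℕ} {c : Par m} (hc : c ∈ CM m) (hw : Ccw (poly c))
    {b : Fin (m + 3) → P → ℝ} (hb : Hat (nf (nc (poly c))) (cyc (m + 3)) b) :
    ∀ᶠ c' in 𝓝 c, Psi a b (nc (poly c)) (Kp (nf (nc (poly c)))) (nc (poly c')) =
      fun i => Fn m (a i) c' := by
  have h01 : (0 : Fin (m + 3)) ≠ 1 := by
    intro h0
    have h1 := congrArg Fin.val h0
    have h2 : ((1 : Fin (m + 3)) : ℕ) = 1 := Fin.val_one (m + 1)
    have h3 : ((0 : Fin (m + 3)) : ℕ) = 0 := rfl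
    omega
  obtain ⟨-, -, hf0⟩ := fig_nc hw
  obtain ⟨ρ, hρ, hch⟩ := chart hf0.slg hb
  have k1 : ∀ᶠ c' in 𝓝 c, Ccw (poly c') :=
    (H.poly_smooth m).continuous.continuousAt.eventually ((isOpen_Ccw (m + 3)).mem_nhds hw)
  have k2 : ∀ᶠ c' in 𝓝 c, c' ∈ CM m := (isOpen_CM m).mem_nhds hc
  have k3 : ∀ᶠ c' in 𝓝 c, ‖nc (poly c') - nc (poly c)‖ < ρ := by
    have h1 := (tau_diff hw).continuousAt
    have h2 := h1.eventually (Metric.ball_mem_nhds _ hρ)
    filter_upwards [h2] with c' h3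
    rw [← dist_eq_norm]
    exact h3
  filter_upwards [k1, k2, k3] with c' e1 e2 e3
  have h4 := (hch (fun i => nf (nc (poly c')) i - nf (nc (poly c)) i)
    (lt_of_le_of_lt (nf_norm' _ _) e3)).2.2.1 _ hf0
  have h5 : (fun i => nf (nc (poly c)) i + (nf (nc (poly c')) i - nf (nc (poly c)) i)) =
      nf (nc (poly c')) := by
    funext i
    exact add_sub_cancel _ _
  rw [h5] at h4
  have h6 := (fig_nc e1).2.1 _ h4
  obtain ⟨-, θ, hθ⟩ := exists_rig (ccw_ne e1 h01)
  have h7 : Dom c' = rig θ (poly c' 0) '' Kp (nf (nc (poly c'))) := by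
    rw [Dom_eq e2 fun i j k h8 h9 => (e1 i j k h8 h9).le, ← Kp_rig]
    congr 1
    funext i
    exact hθ i
  funext i
  change fa (a i) (ph b (fun i => nf (nc (poly c')) i - nf (nc (poly c)) i) ''
    Kp (nf (nc (poly c)))) = fa (a i) (Dom c')
  rw [h6, h7]
  unfold fa
  simp only [lamL_rig]

end Pool.Agent.MP4eed4eX.N
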