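import Pool.Agent.Lib.MP_4eed4e_an_XN.NCrit

set_option autoImplicit false

/-!
Project X, block N, module NDet: the Jacobian is analytic; local constancy of `SS`.
-/

namespace Pool.Agent.MP4eed4eX.N

open MeasureTheory Set Filter Topology Pool.Agent.MP4eed4eP

/-- Proof. As `H.det_an` in `MP_4eed4e_an_PH/HGood`: the determinant is a polynomial in the entries
of the derivative (`AnalyticOnNhd.fderiv`). -/
theorem det_an {ι : Type} [Fintype ι] {F : (ι → ℝ) → ι → ℝ} {S : Set (ι → ℝ)}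
    (hF : AnalyticOnNhd ℝ F S) : AnalyticOnNhd ℝ (fun c => (fderiv ℝ F c).det) S := by
  classical
  have h1 := hF.fderiv
  have h2 : ∀ c : ι → ℝ, (fderiv ℝ F c).det = ∑ σ : Equiv.Perm ι,
      ((Equiv.Perm.sign σ : ℤˣ) : ℤ) • ∏ i, fderiv ℝ F c (Pi.single i 1) (σ i) := by
    intro c
    show LinearMap.det ((fderiv ℝ F c : (ι → ℝ) →L[ℝ] (ι → ℝ)) :
      (ι → ℝ) →ₗ[ℝ] (ι → ℝ)) = _
    rw [← LinearMap.det_toMatrix', Matrix.det_apply]
    refine Finset.sum_congr rfl fun σ _ => ?_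
    rw [Units.smul_def]
    congr 1
  have h3 : (fun c : ι → ℝ => (fderiv ℝ F c).det) = fun c => ∑ σ : Equiv.Perm ι,
      ((Equiv.Perm.sign σ : ℤˣ) : ℤ) • ∏ i, fderiv ℝ F c (Pi.single i 1) (σ i) :=
    funext h2
  rw [h3]
  intro c hc
  refine Finset.analyticAt_fun_sum _ fun σ _ => ?_
  have h4 : AnalyticAt ℝ (fun c : ι → ℝ =>
      ∏ i, fderiv ℝ F c (Pi.single i 1) (σ i)) c := by
    refine Finset.analyticAt_fun_prod _ fun i _ => ?_
    have h5 := h1 c hc
    have h6 : AnalyticAt ℝ (fun A : (ι → ℝ) →L[ℝ] (ι → ℝ) => A (Pi.single i 1) (σ i))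
        (fderiv ℝ F c) :=
      ((ContinuousLinearMap.proj (R := ℝ) (φ := fun _ : ι => ℝ) (σ i)).comp
        (ContinuousLinearMap.apply ℝ (ι → ℝ) (Pi.single i 1 : ι → ℝ))).analyticAt _
    exact h6.comp h5
  have h7 : (fun c : ι → ℝ => ((Equiv.Perm.sign σ : ℤˣ) : ℤ) •
      ∏ i, fderiv ℝ F c (Pi.single i 1) (σ i)) = fun c =>
      (((Equiv.Perm.sign σ : ℤˣ) : ℤ) : ℝ) *
        ∏ i, fderiv ℝ F c (Pi.single i 1) (σ i) := by
    funext c
    rw [zsmul_eq_mul]
  rw [h7]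
  exact analyticAt_const.mul h4

/-- Identity theorem on a ball. Proof.
`AnalyticOnNhd.eqOn_zero_of_preconnected_of_eventuallyEq_zero`. -/
theorem zero_near {ι : Type} [Fintype ι] {g : (ι → ℝ) → ℝ} {c0 c1 : ι → ℝ} {ρ : ℝ}
    (hg : AnalyticOnNhd ℝ g (Metric.ball c0 ρ)) (h1 : c1 ∈ Metric.ball c0 ρ)
    (h : ∀ᶠ c in 𝓝 c1, g c = 0) : ∀ c ∈ Metric.ball c0 ρ, g c = 0 := by
  exact hg.eqOn_zero_of_preconnected_of_eventuallyEq_zero (convex_ball c0 ρ).isPreconnected h1 h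

private theorem NDet_ph0 {m : ℕ} (b : Fin (m + 3) → P → ℝ) (c0 : Par m) (D : Set P) :
    ph b (fun i => nf c0 i - nf c0 i) '' D = D := by
  have h : ph b (fun i => nf c0 i - nf c0 i) = id := by
    funext x
    simp [ph]
  rw [h, Set.image_id]

/-- Proof. Chart at `c0` (`exists_ch`), `c1` in its ball. The figures over `c1` are the images of
those over `c0`; by `psi_agree` the Jacobian for the figure over `c1` is near `c1` that of
`Psi a b c0 D`, which is identically zero near `c1` iff near `c0` (`zero_near`, `det_an`). For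
the direction to `c0` note that `ph b 0 '' D = D`. -/
theorem SS_loc {m : ℕ} {a : Ix m → ℕ} (ha : ∀ i, 1 ≤ a i) {c0 : Par m}
    {E : Finset (Fin (m + 3) × Fin (m + 3))} (h0 : 0 < c0 (iS m)) (h : SLG (nf c0) E) :
    ∀ᶠ c in 𝓝 c0, (SS a c E ↔ SS a c0 E) := by
  obtain ⟨b, ρ, hch⟩ := exists_ch ha h0 h
  have hc0 : c0 ∈ Metric.ball c0 ρ := Metric.mem_ball_self hch.pos
  filter_upwards [Metric.isOpen_ball.mem_nhds hc0] with c1 h1
  constructor
  · intro hS D hD b' hb' hz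
    have k1 := psi_agree hch hD hc0 hb'
    rw [NDet_ph0] at k1
    have k2 : ∀ᶠ c in 𝓝 c0, (fderiv ℝ (Psi a b c0 D) c).det = 0 := by
      filter_upwards [k1, hz] with c e1 e2
      rw [← e1]
      exact e2
    have k3 := zero_near (det_an (hch.an D hD)) hc0 k2
    obtain ⟨b1, hb1⟩ := exists_hat (hch.sub c1 h1).2
    refine hS _ (hch.fig D hD c1 h1) b1 hb1 ?_
    filter_upwards [psi_agree hch hD h1 hb1, Metric.isOpen_ball.mem_nhds h1] with c e1 e2
    rw [e1]
    exact k3 c e2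
  · intro hS D1 hD1 b1 hb1 hz
    obtain ⟨D, hD, rfl⟩ := hch.sur c1 h1 D1 hD1
    have k2 : ∀ᶠ c in 𝓝 c1, (fderiv ℝ (Psi a b c0 D) c).det = 0 := by
      filter_upwards [psi_agree hch hD h1 hb1, hz] with c e1 e2
      rw [← e1]
      exact e2
    have k3 := zero_near (det_an (hch.an D hD)) h1 k2
    refine hS D hD b hch.hat ?_
    filter_upwards [Metric.isOpen_ball.mem_nhds hc0] with c e2
    exact k3 c e2

end Pool.Agent.MP4eed4eX.N
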