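import Pool.Agent.Lib.MP_4eed4e_an_XN.NBaseA
import Pool.Agent.Lib.MP_4eed4e_an_XN.NDet

set_option autoImplicit false

/-!
Project X, block N, module NBaseB: the Jacobian is not identically zero at convex polygons.
-/

namespace Pool.Agent.MP4eed4eX.N

open MeasureTheory Set Filter Topology Pool.Agent.MP4eed4eP

variable {m : ℕ}

/-- Proof. The Jacobian of `F c = (Fn m (a i) c)_i` is analytic on the convex set `CM m`
(`analytic_Fn`, `det_an`, `convex_CM`) and not identically zero, so it is not identically zero near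
any point of `CM m`. -/
theorem not_zero_near {a : Ix m → ℕ} (ha : ∀ i, 1 ≤ a i)
    (hd : ∃ c ∈ CM m, (fderiv ℝ (fun (c : Par m) (i : Ix m) => Fn m (a i) c) c).det ≠ 0)
    {c : Par m} (hc : c ∈ CM m) :
    ¬ ∀ᶠ c' in 𝓝 c, (fderiv ℝ (fun (c : Par m) (i : Ix m) => Fn m (a i) c) c').det = 0 := by
  intro hz
  obtain ⟨c1, h1, h2⟩ := hd
  have hF : AnalyticOnNhd ℝ (fun (c : Par m) (i : Ix m) => Fn m (a i) c) (CM m) := by
    intro x hx
    exact AnalyticAt.pi fun i => analytic_Fn (ha i) x hx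
  have hg := det_an hF
  have h3 := hg.eqOn_zero_of_preconnected_of_eventuallyEq_zero (convex_CM m).isPreconnected hc hz
  exact h2 (h3 h1)

private theorem NBaseB_ph {n : ℕ} (b : Fin n → P → ℝ) (p : Fin n → P) (D : Set P) :
    ph b (fun i => p i - p i) '' D = D := by
  have h : ph b (fun i => p i - p i) = id := by
    funext x
    simp [ph]
  rw [h, image_id]

/-- Proof. `exists_normal` gives `c ∈ CM m` with `Ccw (poly c)` and `q` a rigid image of `poly c`,
so
`nc q = nc (poly c)` (`nc_rig'`). Let `Fig D (nf (nc q)) (cyc _)`, so `D = Kp (nf (nc q))`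
(`fig_nc`), `b` hat functions, and suppose that the Jacobian of `Psi` is zero near `nc q`. By
`psi_tau` the function `F` is near `c` equal to `Psi ∘ τ`, `τ c' = nc (poly c')` (near every `c'`
near
`c`), so its derivative at `c'` is the composition of those of `Psi` at `τ c'` and of `τ` at
`c'` (`tau_diff`; `Psi` is differentiable near `nc q` by `exists_ch`, or use: if `Psi` is not
differentiable...: take `Ch` and `psi_agree` for analyticity of `Psi a b ..` near the centre) and
the determinant is `0`: against `not_zero_near`. -/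
theorem SS_ccw {a : Ix m → ℕ} (ha : ∀ i, 1 ≤ a i)
    (hd : ∃ c ∈ CM m, (fderiv ℝ (fun (c : Par m) (i : Ix m) => Fn m (a i) c) c).det ≠ 0)
    {q : Fin (m + 3) → P} (hq : Ccw q) : SS a (nc q) (cyc (m + 3)) := by
  obtain ⟨c, hc, hw, θ, β, hrig⟩ := exists_normal q hq
  have hnc : nc q = nc (poly c) := by
    have e : q = fun i => rig θ β (poly c i) := funext hrig
    rw [e, nc_rig']
  rw [hnc]
  intro D hD b hb hz
  obtain ⟨-, hu, -⟩ := fig_nc hw
  have hDK : D = Kp (nf (nc (poly c))) := hu D hD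
  have h01 : poly c 0 ≠ poly c 1 := ccw_ne hw (by simp)
  have h0 : 0 < nc (poly c) (iS m) := (exists_rig h01).1
  obtain ⟨b', ρ, hch⟩ := exists_ch (a := a) ha h0 hD.slg
  obtain ⟨G, hG⟩ : ∃ G : Par m → Ix m → ℝ, G = Psi a b' (nc (poly c)) D := ⟨_, rfl⟩
  have hmem : nc (poly c) ∈ Metric.ball (nc (poly c)) ρ := Metric.mem_ball_self hch.pos
  have hGan : AnalyticOnNhd ℝ G (Metric.ball (nc (poly c)) ρ) := by
    rw [hG]
    exact hch.an D hD
  have hagr : Psi a b (nc (poly c)) D =ᶠ[𝓝 (nc (poly c))] G := by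
    have h1 := hch.agr D hD (nc (poly c)) hmem b hb
    filter_upwards [h1] with x hx
    rw [NBaseB_ph b'] at hx
    rw [hG]
    simp only [Psi]
    rw [hx]
  have hGz : ∀ᶠ x in 𝓝 (nc (poly c)), (fderiv ℝ G x).det = 0 := by
    filter_upwards [hz, Filter.EventuallyEq.fderiv (𝕜 := ℝ) hagr] with x hx hx'
    rw [← hx', hx]
  have hccw : ∀ᶠ c' in 𝓝 c, Ccw (poly c') :=
    (H.poly_smooth m).continuous.continuousAt.eventually ((isOpen_Ccw (m + 3)).mem_nhds hw)
  have hτc : ContinuousAt (fun c' : Par m => nc (poly c')) c := (tau_diff hw).continuousAt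
  have hF : (fun (c : Par m) (i : Ix m) => Fn m (a i) c) =ᶠ[𝓝 c]
      fun c' => G (nc (poly c')) := by
    have h1 := psi_tau (a := a) hc hw hb
    rw [← hDK] at h1
    filter_upwards [h1, hτc.eventually hagr] with c' e1 e2
    rw [← e2]
    exact e1.symm
  refine not_zero_near ha hd hc ?_
  filter_upwards [Filter.EventuallyEq.fderiv (𝕜 := ℝ) hF, hccw, hτc.eventually hGz,
    hτc.eventually (Metric.isOpen_ball.mem_nhds hmem)] with c' e1 e2 e3 e4
  have hcomp : fderiv ℝ (fun c' => G (nc (poly c'))) c' =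
      (fderiv ℝ G (nc (poly c'))).comp (fderiv ℝ (fun c' : Par m => nc (poly c')) c') :=
    fderiv_comp c' (hGan _ e4).differentiableAt (tau_diff e2)
  rw [e1, hcomp]
  have hdet : ∀ A B : Par m →L[ℝ] Par m, A.det = 0 → (A.comp B).det = 0 := by
    intro A B hA
    have e5 : (A.comp B).det = A.det * B.det := by
      change LinearMap.det ((A : Par m →ₗ[ℝ] Par m) ∘ₗ (B : Par m →ₗ[ℝ] Par m)) = _
      rw [LinearMap.det_comp]
    rw [e5, hA, zero_mul]
  exact hdet _ _ e3

end Pool.Agent.MP4eed4eX.N
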