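import Pool.Agent.Lib.MP_4eed4e_an_XN.NDefs

set_option autoImplicit false

/-!
Project X, block N, module NNf: the map `nf` is linear.
-/

namespace Pool.Agent.MP4eed4eX.N

open MeasureTheory Set Filter Topology Pool.Agent.MP4eed4eP

variable {m : ℕ}

theorem nf_zero (c : Par m) : nf c 0 = 0 := by
  simp [nf]

private theorem val_one' (m : ℕ) : ((1 : Fin (m + 3)) : ℕ) = 1 := Fin.val_one (m + 1)

private theorem nf_one' (c : Par m) (i : Fin (m + 3)) (hi : (i : ℕ) = 1) :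
    nf c i = (c (iS m), 0) := by
  unfold nf
  rw [if_neg (by omega), if_pos hi]

theorem nf_one (c : Par m) : nf c 1 = (c (iS m), 0) := nf_one' c 1 (val_one' m)

private theorem nf_two (c : Par m) (i : Fin (m + 3)) (hi : (i : ℕ) = 2) :
    nf c i = (c (iX m), c (iY m)) := by
  unfold nf
  rw [if_neg (by omega), if_neg (by omega), dif_neg (by omega)]

private theorem nf_ge (c : Par m) (i : Fin (m + 3)) (j : Fin m) (hi : (i : ℕ) = (j : ℕ) + 3) :
    nf c i = (c (iT j), c (iR j)) := by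
  unfold nf
  rw [if_neg (by omega), if_neg (by omega), dif_pos (by omega)]
  have : (⟨(i : ℕ) - 3, by omega⟩ : Fin m) = j := by
    apply Fin.ext
    simp only
    omega
  rw [this]

private theorem fin_cases' (i : Fin (m + 3)) :
    (i : ℕ) = 0 ∨ (i : ℕ) = 1 ∨ (i : ℕ) = 2 ∨ ∃ j : Fin m, (i : ℕ) = (j : ℕ) + 3 := by
  by_cases h0 : (i : ℕ) = 0
  · exact Or.inl h0
  by_cases h1 : (i : ℕ) = 1
  · exact Or.inr (Or.inl h1)
  by_cases h2 : (i : ℕ) = 2
  · exact Or.inr (Or.inr (Or.inl h2))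
  refine Or.inr (Or.inr (Or.inr ⟨⟨(i : ℕ) - 3, by omega⟩, ?_⟩))
  simp only
  omega

private theorem nf_zero' (c : Par m) (i : Fin (m + 3)) (hi : (i : ℕ) = 0) : nf c i = 0 := by
  unfold nf
  rw [if_pos hi]

private theorem nf_add (c c' : Par m) (i : Fin (m + 3)) : nf (c + c') i = nf c i + nf c' i := by
  rcases fin_cases' i with h | h | h | ⟨j, h⟩
  · rw [nf_zero' _ i h, nf_zero' _ i h, nf_zero' _ i h, add_zero]
  · rw [nf_one' _ i h, nf_one' _ i h, nf_one' _ i h]
    simp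
  · rw [nf_two _ i h, nf_two _ i h, nf_two _ i h]
    simp
  · rw [nf_ge _ i j h, nf_ge _ i j h, nf_ge _ i j h]
    simp

private theorem nf_smul (t : ℝ) (c : Par m) (i : Fin (m + 3)) : nf (t • c) i = t • nf c i := by
  rcases fin_cases' i with h | h | h | ⟨j, h⟩
  · rw [nf_zero' _ i h, nf_zero' _ i h, smul_zero]
  · rw [nf_one' _ i h, nf_one' _ i h]
    simp
  · rw [nf_two _ i h, nf_two _ i h]
    simp
  · rw [nf_ge _ i j h, nf_ge _ i j h]
    simp

/-- The continuous linear map `c ↦ nf c`. -/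
theorem exists_nfL (m : ℕ) : ∃ L : Par m →L[ℝ] (Fin (m + 3) → P), ∀ c i, L c i = nf c i := by
  let l : Par m →ₗ[ℝ] (Fin (m + 3) → P) :=
    { toFun := fun c => nf c
      map_add' := fun c c' => funext fun i => nf_add c c' i
      map_smul' := fun t c => funext fun i => nf_smul t c i }
  exact ⟨LinearMap.toContinuousLinearMap l, fun c i => rfl⟩

theorem nf_cont (m : ℕ) : Continuous (fun c : Par m => nf c) := by
  obtain ⟨L, hL⟩ := exists_nfL m
  have h : (fun c : Par m => nf c) = fun c => L c := by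
    funext c
    funext i
    exact (hL c i).symm
  rw [h]
  exact L.continuous

/-- Every coordinate of `c` is a coordinate of some `nf c i`. -/
theorem nf_norm (c c' : Par m) : ‖c - c'‖ ≤ ‖fun i => nf c i - nf c' i‖ := by
  have key : ∀ i : Fin (m + 3), ‖nf c i - nf c' i‖ ≤ ‖fun i => nf c i - nf c' i‖ := fun i =>
    norm_le_pi_norm (fun i => nf c i - nf c' i) i
  rw [pi_norm_le_iff_of_nonneg (norm_nonneg _)]
  rintro (k | (j | j))
  · have hk : k = 0 ∨ k = 1 ∨ k = 2 := by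
      fin_cases k <;> simp
    rcases hk with rfl | rfl | rfl
    · refine le_trans ?_ (key ⟨1, by omega⟩)
      rw [nf_one' c ⟨1, by omega⟩ rfl, nf_one' c' ⟨1, by omega⟩ rfl]
      exact norm_fst_le ((c (iS m), (0 : ℝ)) - (c' (iS m), (0 : ℝ)))
    · refine le_trans ?_ (key ⟨2, by omega⟩)
      rw [nf_two c ⟨2, by omega⟩ rfl, nf_two c' ⟨2, by omega⟩ rfl]
      exact norm_fst_le ((c (iX m), c (iY m)) - (c' (iX m), c' (iY m)))
    · refine le_trans ?_ (key ⟨2, by omega⟩)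
      rw [nf_two c ⟨2, by omega⟩ rfl, nf_two c' ⟨2, by omega⟩ rfl]
      exact norm_snd_le ((c (iX m), c (iY m)) - (c' (iX m), c' (iY m)))
  · refine le_trans ?_ (key ⟨(j : ℕ) + 3, by omega⟩)
    rw [nf_ge c ⟨(j : ℕ) + 3, by omega⟩ j rfl, nf_ge c' ⟨(j : ℕ) + 3, by omega⟩ j rfl]
    exact norm_fst_le ((c (iT j), c (iR j)) - (c' (iT j), c' (iR j)))
  · refine le_trans ?_ (key ⟨(j : ℕ) + 3, by omega⟩)
    rw [nf_ge c ⟨(j : ℕ) + 3, by omega⟩ j rfl, nf_ge c' ⟨(j : ℕ) + 3, by omega⟩ j rfl]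
    exact norm_snd_le ((c (iT j), c (iR j)) - (c' (iT j), c' (iR j)))

theorem nf_norm' (c c' : Par m) : ‖fun i => nf c i - nf c' i‖ ≤ ‖c - c'‖ := by
  have key : ∀ k : Ix m, ‖c k - c' k‖ ≤ ‖c - c'‖ := fun k => norm_le_pi_norm (c - c') k
  rw [pi_norm_le_iff_of_nonneg (norm_nonneg _)]
  intro i
  rcases fin_cases' i with h | h | h | ⟨j, h⟩
  · rw [nf_zero' _ i h, nf_zero' _ i h, sub_zero, norm_zero]
    exact norm_nonneg _
  · rw [nf_one' _ i h, nf_one' _ i h]
    exact max_le (key (iS m)) (by simp)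
  · rw [nf_two _ i h, nf_two _ i h]
    exact max_le (key (iX m)) (key (iY m))
  · rw [nf_ge _ i j h, nf_ge _ i j h]
    exact max_le (key (iT j)) (key (iR j))

theorem nf_inj {c c' : Par m} (h : ∀ i, nf c i = nf c' i) : c = c' := by
  have h1 := nf_norm c c'
  have h2 : (fun i => nf c i - nf c' i) = 0 := by
    funext i
    rw [h i, sub_self]
    rfl
  rw [h2, norm_zero] at h1
  exact sub_eq_zero.mp (norm_le_zero_iff.mp h1)

end Pool.Agent.MP4eed4eX.N
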