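import Pool.Agent.Lib.MP_4eed4e_an_X.OutK
import Pool.Agent.Lib.MP_4eed4e_an_X.OutL
import Pool.Agent.Lib.MP_4eed4e_an_XN.NNf

set_option autoImplicit false

/-!
Project X, block N, module NCh: existence of charts.
-/

namespace Pool.Agent.MP4eed4eX.N

open MeasureTheory Set Filter Topology Pool.Agent.MP4eed4eP

variable {n m : ℕ}

private theorem NCh_vert {p : Fin n → P} {E : Finset (Fin n × Fin n)} {b : Fin n → P → ℝ}
    (hb : Hat p E b) (d : Fin n → P) (k : Fin n) : ph b d (p k) = p k + d k := by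
  unfold ph
  congr 1
  have h1 : ∀ i, b i (p k) • d i = if i = k then d i else 0 := by
    intro i
    rw [hb.vert i k]
    by_cases h : i = k
    · rw [if_pos h, if_pos h, one_smul]
    · rw [if_neg h, if_neg h, zero_smul]
  rw [Finset.sum_congr rfl (fun i _ => h1 i)]
  simp

private theorem NCh_edge {p : Fin n → P} {E : Finset (Fin n × Fin n)} {b : Fin n → P → ℝ}
    (hb : Hat p E b) (d : Fin n → P) {e : Fin n × Fin n} (he : e ∈ E) {s : ℝ}
    (hs : s ∈ Icc (0 : ℝ) 1) :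
    ph b d ((1 - s) • p e.1 + s • p e.2) =
      (1 - s) • (p e.1 + d e.1) + s • (p e.2 + d e.2) := by
  have h1 : ∀ i, b i ((1 - s) • p e.1 + s • p e.2) • d i =
      (1 - s) • (b i (p e.1) • d i) + s • (b i (p e.2) • d i) := by
    intro i
    rw [hb.edge i e he s hs, add_smul, mul_smul, mul_smul]
  have h2 : ∀ k : Fin n, ∑ i, b i (p k) • d i = d k := by
    intro k
    have h := NCh_vert hb d k
    unfold ph at h
    exact add_left_cancel h
  unfold ph
  rw [Finset.sum_congr rfl (fun i _ => h1 i), Finset.sum_add_distrib, ← Finset.smul_sum,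
    ← Finset.smul_sum, h2, h2, smul_add, smul_add]
  abel

private theorem NCh_gr {p : Fin n → P} {E : Finset (Fin n × Fin n)} {b : Fin n → P → ℝ}
    (hb : Hat p E b) (d : Fin n → P) {x : P} (hx : x ∈ Gr (fun i => p i + d i) E) :
    ∃ y, ph b d y = x ∧ ∀ (d₁ : Fin n → P) (b1 : Fin n → P → ℝ),
      Hat (fun i => p i + d₁ i) E b1 → ph b1 (fun i => d i - d₁ i) (ph b d₁ y) = x := by
  rcases hx with hx | hx
  · obtain ⟨k, rfl⟩ := hx
    refine ⟨p k, NCh_vert hb d k, fun d₁ b1 h1 => ?_⟩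
    have h3 : ∀ k : Fin n, p k + d₁ k + (d k - d₁ k) = p k + d k := fun k => by abel
    rw [NCh_vert hb d₁ k]
    have := NCh_vert h1 (fun i => d i - d₁ i) k
    rw [this]
    exact h3 k
  · simp only [mem_iUnion] at hx
    obtain ⟨e, he, hx⟩ := hx
    obtain ⟨a, s, ha, hs, has, rfl⟩ := hx
    have ha' : a = 1 - s := by linarith
    subst ha'
    have hs' : s ∈ Icc (0 : ℝ) 1 := ⟨hs, by linarith⟩
    refine ⟨(1 - s) • p e.1 + s • p e.2, NCh_edge hb d he hs', fun d₁ b1 h1 => ?_⟩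
    rw [NCh_edge hb d₁ he hs']
    have := NCh_edge h1 (fun i => d i - d₁ i) he hs'
    rw [this]
    have h3 : ∀ k : Fin n, p k + d₁ k + (d k - d₁ k) = p k + d k := fun k => by abel
    rw [h3, h3]

/-- Two charts agree. Proof. Let `φ = ph b d`, `φ₁ = ph b d₁` (homeomorphisms), `D1 = φ₁ '' D` and
`ψ = ph b1 (d - d₁) ∘ φ₁ ∘ φ⁻¹`. It is enough that `ψ '' (φ '' D) = φ '' D`: apply `label` to the
open set `φ '' D` with the frontier `Gr (p + d) E` (`chart`). On the graph `ψ = id`: `φ`, `φ₁` and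
`ph b1 (d - d₁)` are affine on the edges with the right values at the vertices (`Hat`). Off the
graph: `ψ y - y = v y` with `v = w₁ ∘ (..) + w₂ ∘ φ⁻¹`, where `φ₁ - φ` is Lipschitz with the
constant `C ‖d - d₁‖` (`lip_ph`), `φ⁻¹` with the constant `2` and `ph b1 (d - d₁) - id` with
`C₁ ‖d - d₁‖`; so `v` is Lipschitz with a constant `< 1` if `‖d - d₁‖` is small, and for the point
`x` of the frontier closest to `y` (`IsClosed.exists_infDist_eq_dist`; the frontier is compact, not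
empty) `‖ψ y - y‖ = ‖v y - v x‖ < dist y x`. -/
theorem agree {p : Fin n → P} {E : Finset (Fin n × Fin n)} {b : Fin n → P → ℝ} (h : SLG p E)
    (hb : Hat p E b) (hn : 0 < n) : ∃ ρ > 0, ∀ d₁ : Fin n → P, ‖d₁‖ < ρ →
      ∀ b1, Hat (fun i => p i + d₁ i) E b1 → ∀ D, Fig D p E →
        ∀ᶠ d in 𝓝 d₁, ph b1 (fun i => d i - d₁ i) '' (ph b d₁ '' D) = ph b d '' D := by
  obtain ⟨ρ0, hρ0, hch⟩ := chart h hb
  obtain ⟨C, hC⟩ := lip_ph hb.lip
  have hC1 : (0 : ℝ) < (C : ℝ) + 1 := by positivity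
  refine ⟨min ρ0 (1 / (2 * (C + 1))), by positivity, fun d₁ hd₁ b1 hb1 D hD => ?_⟩
  have hd0 : ‖d₁‖ < ρ0 := lt_of_lt_of_le hd₁ (min_le_left _ _)
  have hdC : ‖d₁‖ < 1 / (2 * ((C : ℝ) + 1)) := lt_of_lt_of_le hd₁ (min_le_right _ _)
  have hs1 : SLG (fun i => p i + d₁ i) E := (hch d₁ hd0).2.1
  obtain ⟨ρ1, hρ1, hch1⟩ := chart hs1 hb1
  obtain ⟨C1, hC1'⟩ := lip_ph hb1.lip
  have hhalf : ∀ t : ℝ, 0 ≤ t → t < 1 / (2 * ((C : ℝ) + 1)) → (C : ℝ) * t ≤ 1 / 2 := by
    intro t ht ht'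
    rw [lt_div_iff₀ (by positivity)] at ht'
    have : (0 : ℝ) ≤ C := C.2
    nlinarith
  have hnorm : Tendsto (fun d : Fin n → P => ‖d‖) (𝓝 d₁) (𝓝 ‖d₁‖) := continuous_norm.tendsto d₁
  have hsub : Tendsto (fun d : Fin n → P => ‖d - d₁‖) (𝓝 d₁) (𝓝 0) := by
    have : Continuous (fun d : Fin n → P => ‖d - d₁‖) := by fun_prop
    have h2 := this.tendsto d₁
    simpa using h2
  have hκ : Tendsto (fun d : Fin n → P => (3 * (C1 : ℝ) + 2 * C) * ‖d - d₁‖) (𝓝 d₁) (𝓝 0) := by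
    simpa using hsub.const_mul (3 * (C1 : ℝ) + 2 * C)
  filter_upwards [hnorm.eventually (gt_mem_nhds hd0), hnorm.eventually (gt_mem_nhds hdC),
    hsub.eventually (gt_mem_nhds hρ1), hκ.eventually (gt_mem_nhds one_pos)] with d e1 e2 e3 e4
  obtain ⟨⟨φ, hφ⟩, hs2, hfig, -⟩ := hch d e1
  obtain ⟨⟨φ₁, hφ₁⟩, -, -, -⟩ := hch d₁ hd0
  have e3' : ‖fun i => d i - d₁ i‖ < ρ1 := e3
  obtain ⟨⟨χ, hχ⟩, -, -, -⟩ := hch1 (fun i => d i - d₁ i) e3'
  have hF := hfig D hD
  have lφ : ∀ x y : P, ‖x - y‖ ≤ 2 * ‖φ x - φ y‖ := by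
    intro x y
    have h1 := (hC d d).2.dist_le_mul x y
    rw [dist_eq_norm, dist_eq_norm, ← hφ, ← hφ] at h1
    have h2 : ((C * ‖d‖₊ : NNReal) : ℝ) ≤ 1 / 2 := by
      push_cast
      exact hhalf _ (norm_nonneg _) e2
    have h3 : x - y = (φ x - φ y) - ((φ x - x) - (φ y - y)) := by abel
    have h4 : ‖x - y‖ ≤ ‖φ x - φ y‖ + ‖(φ x - x) - (φ y - y)‖ := by
      conv_lhs => rw [h3]
      exact norm_sub_le _ _
    have h5 := mul_le_mul_of_nonneg_right h2 (norm_nonneg (x - y))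
    linarith
  have lφ₁ : ∀ x y : P, ‖φ₁ x - φ₁ y‖ ≤ 3 / 2 * ‖x - y‖ := by
    intro x y
    have h1 := (hC d₁ d₁).2.dist_le_mul x y
    rw [dist_eq_norm, dist_eq_norm, ← hφ₁, ← hφ₁] at h1
    have h2 : ((C * ‖d₁‖₊ : NNReal) : ℝ) ≤ 1 / 2 := by
      push_cast
      exact hhalf _ (norm_nonneg _) hdC
    have h3 : φ₁ x - φ₁ y = (x - y) + ((φ₁ x - x) - (φ₁ y - y)) := by abel
    have h4 : ‖φ₁ x - φ₁ y‖ ≤ ‖x - y‖ + ‖(φ₁ x - x) - (φ₁ y - y)‖ := by
      conv_lhs => rw [h3]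
      exact norm_add_le _ _
    have h5 := mul_le_mul_of_nonneg_right h2 (norm_nonneg (x - y))
    linarith
  have lχ : ∀ x y : P, ‖(χ x - x) - (χ y - y)‖ ≤ (C1 : ℝ) * ‖d - d₁‖ * ‖x - y‖ := by
    intro x y
    have h1 := (hC1' (fun i => d i - d₁ i) 0).2.dist_le_mul x y
    rw [dist_eq_norm, dist_eq_norm, ← hχ, ← hχ] at h1
    exact h1
  have ldd : ∀ x y : P, ‖(φ₁ x - φ x) - (φ₁ y - φ y)‖ ≤ (C : ℝ) * ‖d - d₁‖ * ‖x - y‖ := by
    intro x y
    have h1 := (hC d₁ d).1.dist_le_mul x y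
    rw [dist_eq_norm, dist_eq_norm, ← hφ, ← hφ, ← hφ₁, ← hφ₁] at h1
    have h2 : ((C * ‖d₁ - d‖₊ : NNReal) : ℝ) = C * ‖d - d₁‖ := by
      push_cast
      rw [norm_sub_rev]
    rw [h2] at h1
    exact h1
  let ψ : P ≃ₜ P := (φ.symm.trans φ₁).trans χ
  have hψ : ∀ y, ψ y = χ (φ₁ (φ.symm y)) := fun y => rfl
  have hfix : ∀ x ∈ frontier (ph b d '' D), ψ x = x := by
    intro x hx
    rw [hF.fr] at hx
    obtain ⟨y, hy1, hy2⟩ := NCh_gr hb d hx
    have h1 : φ.symm x = y := by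
      rw [← hy1, ← hφ y, Homeomorph.symm_apply_apply]
    rw [hψ, h1, hφ₁, hχ]
    exact hy2 d₁ b1 hb1
  have hne : (frontier (ph b d '' D)).Nonempty := by
    rw [hF.fr]
    exact ⟨p ⟨0, hn⟩ + d ⟨0, hn⟩, Or.inl ⟨⟨0, hn⟩, rfl⟩⟩
  have hlab : ψ '' (ph b d '' D) = ph b d '' D := by
    refine label hF.op ψ hne hfix fun y hy => ?_
    obtain ⟨x, hx, hxy⟩ := isClosed_frontier.exists_infDist_eq_dist hne y
    rw [hxy]
    have hxy' : y ≠ x := fun hc => hy (hc ▸ hx)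
    have hpos : 0 < ‖y - x‖ := norm_pos_iff.mpr (sub_ne_zero.mpr hxy')
    have h0 := hfix x hx
    set w := φ.symm y with hw
    set w' := φ.symm x with hw'
    have hyw : φ w = y := by rw [hw, Homeomorph.apply_symm_apply]
    have hxw : φ w' = x := by rw [hw', Homeomorph.apply_symm_apply]
    have h1 : ψ y - y = ((χ (φ₁ w) - φ₁ w) - (χ (φ₁ w') - φ₁ w')) +
        ((φ₁ w - φ w) - (φ₁ w' - φ w')) := by
      have h2 : χ (φ₁ w') = x := h0
      rw [hψ, ← hw, hyw, hxw, h2]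
      abel
    have a1 := lχ (φ₁ w) (φ₁ w')
    have a2 := ldd w w'
    have a3 := lφ₁ w w'
    have a4 := lφ w w'
    rw [hyw, hxw] at a4
    have a5 : ‖ψ y - y‖ ≤ (C1 : ℝ) * ‖d - d₁‖ * ‖φ₁ w - φ₁ w'‖ + (C : ℝ) * ‖d - d₁‖ * ‖w - w'‖ := by
      rw [h1]
      exact (norm_add_le _ _).trans (add_le_add a1 a2)
    have k1 : (0 : ℝ) ≤ (C1 : ℝ) * ‖d - d₁‖ := by positivity
    have k2 : (0 : ℝ) ≤ (C : ℝ) * ‖d - d₁‖ := by positivity
    have a6 : ‖φ₁ w - φ₁ w'‖ ≤ 3 * ‖y - x‖ := by linarith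
    have a7 := mul_le_mul_of_nonneg_left a6 k1
    have a8 := mul_le_mul_of_nonneg_left a4 k2
    rw [dist_eq_norm, dist_eq_norm]
    have a9 := mul_lt_mul_of_pos_right e4 hpos
    calc ‖ψ y - y‖ ≤ (C1 : ℝ) * ‖d - d₁‖ * (3 * ‖y - x‖) +
          (C : ℝ) * ‖d - d₁‖ * (2 * ‖y - x‖) := by linarith
      _ = (3 * (C1 : ℝ) + 2 * C) * ‖d - d₁‖ * ‖y - x‖ := by ring
      _ < 1 * ‖y - x‖ := a9
      _ = ‖y - x‖ := one_mul _
  rw [← hlab, image_image, image_image]
  refine image_congr fun x _ => ?_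
  rw [hψ, ← hφ, ← hφ₁, ← hχ, Homeomorph.symm_apply_apply]

/-- A figure with at least one vertex is not empty. -/
theorem fig_nonempty {p : Fin n → P} {E : Finset (Fin n × Fin n)} {D : Set P} (h : Fig D p E)
    (hn : 0 < n) : D.Nonempty := by
  rw [nonempty_iff_ne_empty]
  rintro rfl
  have h1 : p ⟨0, hn⟩ ∈ frontier (∅ : Set P) := by
    rw [h.fr]
    exact Or.inl ⟨⟨0, hn⟩, rfl⟩
  rw [frontier_empty] at h1
  exact h1

/-- Proof. `exists_hat`, `chart`, `agree` (`ρ` small such that `‖c - c0‖ < ρ` gives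
`‖nf c - nf c0‖ < ρ`, `nf_norm'`), `0 < c (iS m)` near `c0`; analyticity: `analytic_tr` is
analyticity at `0` for the finitely many figures (`finite_fig`) and exponents, composed with the
affine map `c ↦ nf c - nf c0` (`exists_nfL`); `AnalyticAt` holds in a neighbourhood
(`AnalyticAt.eventually_analyticAt`), take a common ball; `AnalyticAt.pi`-like for the
components. -/
theorem exists_ch {ι : Type} [Fintype ι] {a : ι → ℕ} (ha : ∀ i, 1 ≤ a i) {c0 : Par m}
    {E : Finset (Fin (m + 3) × Fin (m + 3))} (h0 : 0 < c0 (iS m)) (h : SLG (nf c0) E) :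
    ∃ b ρ, Ch a c0 E b ρ := by
  obtain ⟨b, hb⟩ := exists_hat h
  obtain ⟨ρ0, hρ0, hch⟩ := chart h hb
  obtain ⟨ρ1, hρ1, hag⟩ := agree h hb (by omega : 0 < m + 3)
  obtain ⟨L, hL⟩ := exists_nfL m
  have hcz : ∀ c : Par m, (fun i => nf c i - nf c0 i) = L (c - c0) := by
    intro c
    funext i
    rw [map_sub, Pi.sub_apply, hL, hL]
  have hpos : ∀ᶠ c in 𝓝 c0, 0 < c (iS m) :=
    ((continuous_apply (iS m)).tendsto c0).eventually (lt_mem_nhds h0)
  have han1 : ∀ D, Fig D (nf c0) E → AnalyticAt ℝ (Psi a b c0 D) c0 := by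
    intro D hD
    have hne := fig_nonempty hD (by omega : 0 < m + 3)
    refine AnalyticAt.pi fun i => ?_
    have h1 : AnalyticAt ℝ (fun d : Fin (m + 3) → P => fa (a i) (ph b d '' D))
        (L (c0 - c0)) := by
      rw [sub_self, map_zero]
      exact analytic_tr hD.op hD.bdd hne hb.lip hb.wpa (ha i)
    have h2 : AnalyticAt ℝ (fun c : Par m => L (c - c0)) c0 :=
      (L.analyticAt _).comp (analyticAt_id.sub analyticAt_const)
    have h3 := AnalyticAt.comp (g := fun d : Fin (m + 3) → P => fa (a i) (ph b d '' D))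
      (f := fun c : Par m => L (c - c0)) h1 h2
    have h4 : (fun c => Psi a b c0 D c i) =
        (fun d : Fin (m + 3) → P => fa (a i) (ph b d '' D)) ∘ (fun c : Par m => L (c - c0)) := by
      funext c
      unfold Psi Tr
      rw [hcz c]
      rfl
    rw [h4]
    exact h3
  have han2 : ∀ᶠ c in 𝓝 c0, ∀ D ∈ {D : Set P | Fig D (nf c0) E},
      AnalyticAt ℝ (Psi a b c0 D) c :=
    (eventually_all_finite (finite_fig (nf c0) E)).mpr
      fun D hD => (han1 D hD).eventually_analyticAt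
  obtain ⟨ρ2, hρ2, hball⟩ := Metric.eventually_nhds_iff_ball.mp (hpos.and han2)
  refine ⟨b, min (min ρ0 ρ1) ρ2, ?_⟩
  have hn0 : ∀ c ∈ Metric.ball c0 (min (min ρ0 ρ1) ρ2), ‖fun i => nf c i - nf c0 i‖ < ρ0 := by
    intro c hc
    rw [Metric.mem_ball, dist_eq_norm] at hc
    exact lt_of_le_of_lt (nf_norm' c c0)
      (lt_of_lt_of_le hc ((min_le_left _ _).trans (min_le_left _ _)))
  have hn1 : ∀ c ∈ Metric.ball c0 (min (min ρ0 ρ1) ρ2), ‖fun i => nf c i - nf c0 i‖ < ρ1 := by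
    intro c hc
    rw [Metric.mem_ball, dist_eq_norm] at hc
    exact lt_of_le_of_lt (nf_norm' c c0)
      (lt_of_lt_of_le hc ((min_le_left _ _).trans (min_le_right _ _)))
  have hn2 : ∀ c ∈ Metric.ball c0 (min (min ρ0 ρ1) ρ2), c ∈ Metric.ball c0 ρ2 :=
    fun c hc => Metric.ball_subset_ball (min_le_right _ _) hc
  have hadd : ∀ c : Par m, (fun i => nf c0 i + (nf c i - nf c0 i)) = nf c := by
    intro c
    funext i
    abel
  constructor
  · positivity
  · exact hb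
  · intro c hc
    refine ⟨(hball c (hn2 c hc)).1, ?_⟩
    have := (hch _ (hn0 c hc)).2.1
    rwa [hadd] at this
  · intro D hD c hc
    have := (hch _ (hn0 c hc)).2.2.1 D hD
    rwa [hadd] at this
  · intro c hc D' hD'
    have := (hch _ (hn0 c hc)).2.2.2 D'
    rw [hadd] at this
    exact this hD'
  · intro D hD c hc
    exact (hball c (hn2 c hc)).2 D hD
  · intro D hD c1 hc1 b1 hb1
    have h1 := hag _ (hn1 c1 hc1) b1 (by rw [hadd]; exact hb1) D hD
    have h2 : Tendsto (fun c : Par m => fun i => nf c i - nf c0 i) (𝓝 c1)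
        (𝓝 (fun i => nf c1 i - nf c0 i)) := by
      have h3 : (fun c : Par m => fun i => nf c i - nf c0 i) = fun c => L (c - c0) := by
        funext c
        exact hcz c
      rw [h3, hcz c1]
      exact (L.continuous.comp (continuous_id.sub continuous_const)).tendsto c1
    filter_upwards [h2.eventually h1] with c hc
    have h4 : (fun i => nf c i - nf c0 i - (nf c1 i - nf c0 i)) = fun i => nf c i - nf c1 i := by
      funext i
      abel
    rw [h4] at hc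
    exact hc

end Pool.Agent.MP4eed4eX.N
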