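import Pool.Agent.Lib.MP_4eed4e_an_PH.HTail
import Pool.Agent.Lib.MP_4eed4e_an_X.OutM
import Pool.Agent.Lib.MP_4eed4e_an_XN.NCrit
import Pool.Agent.Lib.MP_4eed4e_an_XN.NLin

set_option autoImplicit false

/-!
Project X, block N, module NLab: figures over converging parameters; local rigidity.
-/

namespace Pool.Agent.MP4eed4eX.N

open MeasureTheory Set Filter Topology Pool.Agent.MP4eed4eP

variable {m : ℕ}

private theorem NLab_ph_self (b : Fin (m + 3) → P → ℝ) (c0 : Par m) (D : Set P) :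
    ph b (fun i => nf c0 i - nf c0 i) '' D = D := by
  have h : ph b (fun i => nf c0 i - nf c0 i) = id := by
    funext x
    simp [ph]
  rw [h, image_id]

private theorem NLab_nonneg {c0 : Par m} {E : Finset (Fin (m + 3) × Fin (m + 3))} {D : Set P}
    (hD : Fig D (nf c0) E) (k : ℕ) : 0 ≤ lamL D k := by
  rcases k with _ | k
  · rw [lamL_zero]
  · exact (lamL_pos hD.op hD.bdd (fig_nonempty hD (by omega)) k).le

/-- Proof. `lamL_near` with `κ = C ‖nf c - nf c0‖` (`lip_ph`), and `nf_norm'`. -/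
theorem lamL_ph {c0 : Par m} {E : Finset (Fin (m + 3) × Fin (m + 3))}
    {b : Fin (m + 3) → P → ℝ} (hb : Hat (nf c0) E b) {D : Set P} (hD : Fig D (nf c0) E) :
    ∃ C δ : ℝ, 0 < C ∧ 0 < δ ∧ ∀ c : Par m, ‖c - c0‖ ≤ δ → ∀ k,
      |lamL (ph b (fun i => nf c i - nf c0 i) '' D) k - lamL D k| ≤
        C * ‖c - c0‖ * lamL D k := by
  obtain ⟨C, hC, hn⟩ := lamL_near
  obtain ⟨C₁, hC₁⟩ := lip_ph hb.lip
  have hC₁0 : (0 : ℝ) ≤ C₁ := C₁.2
  refine ⟨C * (C₁ + 1), 1 / (4 * (C₁ + 1)), by positivity, by positivity, fun c hc k => ?_⟩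
  have hd := nf_norm' c c0
  have hk : (C₁ : ℝ) * ‖fun i => nf c i - nf c0 i‖ ≤ (C₁ + 1) * ‖c - c0‖ :=
    mul_le_mul (by linarith) hd (norm_nonneg _) (by linarith)
  have hk' : ((C₁ : ℝ) + 1) * ‖c - c0‖ ≤ 1 / 4 := by
    have h1 := mul_le_mul_of_nonneg_left hc (by linarith : (0 : ℝ) ≤ (C₁ : ℝ) + 1)
    have h2 : ((C₁ : ℝ) + 1) * (1 / (4 * (C₁ + 1))) = 1 / 4 := by
      have : (C₁ : ℝ) + 1 ≠ 0 := by positivity
      field_simp
    linarith
  have hκ : C₁ * ‖fun i => nf c i - nf c0 i‖₊ ≤ 1 / 4 := by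
    rw [← NNReal.coe_le_coe]
    push_cast
    exact hk.trans hk'
  have h1 := hn (C₁ * ‖fun i => nf c i - nf c0 i‖₊) (ph b (fun i => nf c i - nf c0 i)) D hκ
    (hC₁ _ 0).2 hD.op hD.bdd (fig_nonempty hD (by omega)) k
  refine h1.trans (mul_le_mul_of_nonneg_right ?_ (NLab_nonneg hD k))
  push_cast
  rw [mul_assoc]
  exact mul_le_mul_of_nonneg_left hk hC.le

/-- Proof. For `U`-most `k` the parameter `c k` is in the ball of a chart at `c0`, so `D k` is the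
image of a figure over `c0` (`Ch.sur`), one of finitely many (`finite_fig`), the same for `U`-most
`k` (`pigeon'`). The eigenvalues: `lamL_ph`. -/
theorem limit_fig {a : Ix m → ℕ} (ha : ∀ i, 1 ≤ a i) (U : Ultrafilter ℕ)
    {E : Finset (Fin (m + 3) × Fin (m + 3))} {c : ℕ → Par m} {c0 : Par m} {D : ℕ → Set P}
    (h0 : 0 < c0 (iS m)) (h : SLG (nf c0) E) (hc : Tendsto c U (𝓝 c0))
    (hD : ∀ᶠ k in (U : Filter ℕ), Fig (D k) (nf (c k)) E) :
    ∃ b ρ D0, Ch a c0 E b ρ ∧ Fig D0 (nf c0) E ∧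
      (∀ᶠ k in (U : Filter ℕ), c k ∈ Metric.ball c0 ρ ∧
        D k = ph b (fun i => nf (c k) i - nf c0 i) '' D0) ∧
      ∀ j, Tendsto (fun k => lamL (D k) j) U (𝓝 (lamL D0 j)) := by
  obtain ⟨b, ρ, hch⟩ := exists_ch ha h0 h
  have hball : ∀ᶠ k in (U : Filter ℕ), c k ∈ Metric.ball c0 ρ :=
    hc (Metric.ball_mem_nhds _ hch.pos)
  have hex : ∀ k, ∃ F : Set P, c k ∈ Metric.ball c0 ρ → Fig (D k) (nf (c k)) E →
      Fig F (nf c0) E ∧ D k = ph b (fun i => nf (c k) i - nf c0 i) '' F := by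
    intro k
    by_cases h1 : c k ∈ Metric.ball c0 ρ
    · by_cases h2 : Fig (D k) (nf (c k)) E
      · obtain ⟨F, hF, hF'⟩ := hch.sur (c k) h1 (D k) h2
        exact ⟨F, fun _ _ => ⟨hF, hF'⟩⟩
      · exact ⟨∅, fun _ h3 => absurd h3 h2⟩
    · exact ⟨∅, fun h3 => absurd h3 h1⟩
  choose f hf using hex
  have hmem : ∀ᶠ k in (U : Filter ℕ), f k ∈ {F : Set P | Fig F (nf c0) E} := by
    filter_upwards [hball, hD] with k h1 h2
    exact (hf k h1 h2).1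
  obtain ⟨D0, hD0, hev⟩ := pigeon' (finite_fig (nf c0) E) U hmem
  have hmain : ∀ᶠ k in (U : Filter ℕ), c k ∈ Metric.ball c0 ρ ∧
      D k = ph b (fun i => nf (c k) i - nf c0 i) '' D0 := by
    filter_upwards [hball, hD, hev] with k h1 h2 h3
    refine ⟨h1, ?_⟩
    rw [← h3]
    exact (hf k h1 h2).2
  refine ⟨b, ρ, D0, hch, hD0, hmain, fun j => ?_⟩
  obtain ⟨C, δ, hC, hδ, hlam⟩ := lamL_ph hch.hat hD0
  have t0 : Tendsto (fun k => ‖c k - c0‖) (U : Filter ℕ) (𝓝 0) :=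
    tendsto_iff_norm_sub_tendsto_zero.1 hc
  have t1 : ∀ᶠ k in (U : Filter ℕ), ‖c k - c0‖ ≤ δ := by
    filter_upwards [t0.eventually (gt_mem_nhds hδ)] with k hk
    exact hk.le
  have t2 : Tendsto (fun k => C * ‖c k - c0‖ * lamL D0 j) (U : Filter ℕ) (𝓝 0) := by
    have h1 := (t0.const_mul C).mul_const (lamL D0 j)
    rwa [mul_zero, zero_mul] at h1
  rw [tendsto_iff_norm_sub_tendsto_zero]
  refine squeeze_zero' (Eventually.of_forall fun k => norm_nonneg _) ?_ t2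
  filter_upwards [hmain, t1] with k h1 h2
  rw [h1.2, Real.norm_eq_abs]
  exact hlam (c k) h2 j

/-- Local injectivity. Proof. `H.loc` (`MP_4eed4e_an_PH/HTail`) for `Psi a b c0 D`. -/
theorem loc_inj {a : Ix m → ℕ} {c0 : Par m} {E : Finset (Fin (m + 3) × Fin (m + 3))}
    {b : Fin (m + 3) → P → ℝ} {ρ : ℝ} (h : Ch a c0 E b ρ) {D : Set P} (hD : Fig D (nf c0) E)
    (hc : ¬ Crit a c0 E D) : ∃ κ > 0, ∀ᶠ c in 𝓝 c0,
      κ * ‖c - c0‖ ≤ ‖Psi a b c0 D c - Psi a b c0 D c0‖ :=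
  H.loc (h.an D hD c0 (Metric.mem_ball_self h.pos)).differentiableAt
    fun hdet => hc ⟨b, h.hat, hdet⟩

/-- Local rigidity with finitely many eigenvalues. Proof. As `H.rigid` (`MP_4eed4e_an_PH/HSeq`):
`loc_inj`, `lamL_ph` and `H.tail` with `y k = lamL D (k + 1)` (`lamL_pos`, `summable_lamL`):
if the first eigenvalues agree then
`‖Psi c - Psi c0‖ ≤ (κ / 2) ‖c - c0‖` (the sup norm on `Ix m → ℝ`: for each exponent `a i` the
remainder of the convergent series is small), so `c = c0`. -/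
theorem rigid {a : Ix m → ℕ} (ha : ∀ i, 1 ≤ a i) {c0 : Par m}
    {E : Finset (Fin (m + 3) × Fin (m + 3))} {b : Fin (m + 3) → P → ℝ} {ρ : ℝ}
    (h : Ch a c0 E b ρ) {D : Set P} (hD : Fig D (nf c0) E) (hc : ¬ Crit a c0 E D) :
    ∃ N₀ : ℕ, ∀ᶠ c in 𝓝 c0, (∀ k ≤ N₀,
      lamL (ph b (fun i => nf c i - nf c0 i) '' D) k = lamL D k) → c = c0 := by
  obtain ⟨C, δ, hC, hδ, hlam⟩ := lamL_ph h.hat hD
  obtain ⟨κ, hκ, hloc⟩ := loc_inj h hD hc
  have hne : D.Nonempty := fig_nonempty hD (by omega)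
  have hτ : ∀ i, Tendsto (fun N : ℕ => 2 * (a i : ℝ) * 4 ^ a i * C *
      ∑' k, ((lamL D (k + N + 1))⁻¹) ^ (2 * a i)) atTop (𝓝 0) := by
    intro i
    have h1 := tendsto_sum_nat_add (fun k => ((lamL D (k + 1))⁻¹) ^ (2 * a i))
    have h2 := h1.const_mul (2 * (a i : ℝ) * 4 ^ a i * C)
    rwa [mul_zero] at h2
  have hN : ∀ᶠ N : ℕ in atTop, ∀ i, 2 * (a i : ℝ) * 4 ^ a i * C *
      ∑' k, ((lamL D (k + N + 1))⁻¹) ^ (2 * a i) < κ / 2 := by
    rw [eventually_all]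
    intro i
    exact (hτ i).eventually (gt_mem_nhds (half_pos hκ))
  obtain ⟨N, hN⟩ := hN.exists
  refine ⟨N, ?_⟩
  have t0 : Tendsto (fun c : Par m => ‖c - c0‖) (𝓝 c0) (𝓝 0) :=
    tendsto_iff_norm_sub_tendsto_zero.1 tendsto_id
  have e1 : ∀ᶠ c in 𝓝 c0, ‖c - c0‖ < δ := t0.eventually (gt_mem_nhds hδ)
  have e2 : ∀ᶠ c in 𝓝 c0, ‖c - c0‖ < 1 / 2 / C :=
    t0.eventually (gt_mem_nhds (div_pos (by norm_num) hC))
  filter_upwards [hloc, e1, e2] with c h2 g1 g2 hk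
  have h3 := hlam c g1.le
  have h1 : C * ‖c - c0‖ ≤ 1 / 2 := by
    have h4 := (lt_div_iff₀ hC).1 g2
    rw [mul_comm]
    exact h4.le
  have hn : 0 ≤ ‖c - c0‖ := norm_nonneg _
  have key : ‖Psi a b c0 D c - Psi a b c0 D c0‖ ≤ κ / 2 * ‖c - c0‖ := by
    rw [pi_norm_le_iff_of_nonneg (by positivity)]
    intro i
    have ht := H.tail (a i)
      (x := fun k => lamL (ph b (fun i => nf c i - nf c0 i) '' D) (k + 1))
      (y := fun k => lamL D (k + 1)) (fun k => lamL_pos hD.op hD.bdd hne k)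
      (summable_lamL hD.op hD.bdd hne (ha i)) (η := C * ‖c - c0‖) (by positivity) h1
      (fun k => h3 (k + 1)) (N := N) (fun k hkN => hk (k + 1) hkN)
    have he : ‖(Psi a b c0 D c - Psi a b c0 D c0) i‖ =
        |∑' k, ((lamL (ph b (fun i => nf c i - nf c0 i) '' D) (k + 1))⁻¹) ^ (2 * a i) -
          ∑' k, ((lamL D (k + 1))⁻¹) ^ (2 * a i)| := by
      rw [Pi.sub_apply, Real.norm_eq_abs]
      simp only [Psi, Tr, fa, NLab_ph_self]
    rw [he]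
    refine ht.trans ?_
    have h4 := mul_le_mul_of_nonneg_right (hN i).le hn
    refine le_trans (le_of_eq ?_) h4
    ring
  have hz : ‖c - c0‖ = 0 := by
    by_contra hne
    have : 0 < ‖c - c0‖ := lt_of_le_of_ne hn (Ne.symm hne)
    nlinarith [mul_pos hκ this]
  exact sub_eq_zero.1 (norm_eq_zero.1 hz)

end Pool.Agent.MP4eed4eX.N
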