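import Pool.Agent.Lib.MP_4eed4e_an_PH.HZero
import Pool.Agent.Lib.MP_4eed4e_an_PH.HSard
import Pool.Agent.Lib.MP_4eed4e_an_XN.NCrit
import Pool.Agent.Lib.MP_4eed4e_an_XN.NLin

set_option autoImplicit false

/-!
Project X, block N, module NNullA: trace vectors of critical figures and of figures with collinear
vertices.
-/

namespace Pool.Agent.MP4eed4eX.N

open MeasureTheory Set Filter Topology Pool.Agent.MP4eed4eP

variable {m : ℕ}

/-- The covering argument, for a property `C` of figures. -/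
private theorem NNullA_main {a : Ix m → ℕ} (ha : ∀ i, 1 ≤ a i)
    (E : Finset (Fin (m + 3) × Fin (m + 3))) (C : Par m → Set P → Prop)
    (loc : ∀ (c0 : Par m) (b : Fin (m + 3) → P → ℝ) (ρ : ℝ) (D : Set P), Ch a c0 E b ρ →
      Fig D (nf c0) E → volume (Psi a b c0 D '' {c | c ∈ Metric.ball c0 ρ ∧
        C c (ph b (fun i => nf c i - nf c0 i) '' D)}) = 0) :
    volume {y | ∃ (c : Par m) (D : Set P), 0 < c (iS m) ∧ Fig D (nf c) E ∧ C c D ∧
      y = Tr a D} = 0 := by
  have key := lindelof (volume : Measure (Ix m → ℝ))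
    (S := {c : Par m | 0 < c (iS m) ∧ SLG (nf c) E})
    (R := fun c => {y | ∃ D : Set P, Fig D (nf c) E ∧ C c D ∧ y = Tr a D}) (by
      rintro c0 ⟨h0, h⟩
      obtain ⟨b, ρ, hc⟩ := exists_ch ha h0 h
      refine ⟨Metric.ball c0 ρ, Metric.ball_mem_nhds c0 hc.pos, ?_⟩
      have hfin : {D : Set P | Fig D (nf c0) E}.Finite := finite_fig (nf c0) E
      have hsub : (⋃ c' ∈ Metric.ball c0 ρ ∩ {c : Par m | 0 < c (iS m) ∧ SLG (nf c) E},
          {y | ∃ D : Set P, Fig D (nf c') E ∧ C c' D ∧ y = Tr a D}) ⊆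
          ⋃ D ∈ {D : Set P | Fig D (nf c0) E}, Psi a b c0 D '' {c | c ∈ Metric.ball c0 ρ ∧
            C c (ph b (fun i => nf c i - nf c0 i) '' D)} := by
        intro y hy
        rw [mem_iUnion₂] at hy
        obtain ⟨c', ⟨hc1, -⟩, D', hD', hC, rfl⟩ := hy
        obtain ⟨D, hD, rfl⟩ := hc.sur c' hc1 D' hD'
        rw [mem_iUnion₂]
        exact ⟨D, hD, c', ⟨hc1, hC⟩, rfl⟩
      refine measure_mono_null hsub ?_
      rw [measure_biUnion_null_iff hfin.countable]
      intro D hD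
      exact loc c0 b ρ D hc hD)
  refine measure_mono_null ?_ key
  rintro y ⟨c, D, h0, hD, hC, rfl⟩
  rw [mem_iUnion₂]
  exact ⟨c, ⟨h0, hD.slg⟩, D, hD, hC, rfl⟩

/-- Proof. The union over the parameters `c` with `0 < c (iS m)` and `SLG (nf c) E`; `lindelof` with
the ball of a chart (`exists_ch`) at `c0`: a figure over `c1` in the ball is
`ph b (nf c1 - nf c0) '' D` for one of the finitely many `D` over `c0` (`Ch.sur`, `finite_fig`), its
trace vector is `Psi a b c0 D c1`, and it is critical iff the determinant at `c1` is zero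
(`crit_iff`); `H.null_crit`. -/
theorem null_crit_fig {a : Ix m → ℕ} (ha : ∀ i, 1 ≤ a i)
    (E : Finset (Fin (m + 3) × Fin (m + 3))) :
    volume {y | ∃ (c : Par m) (D : Set P), 0 < c (iS m) ∧ Fig D (nf c) E ∧ Crit a c E D ∧
      y = Tr a D} = 0 := by
  refine NNullA_main ha E (fun c D => Crit a c E D) ?_
  intro c0 b ρ D hc hD
  refine measure_mono_null ?_ (H.null_crit (Metric.isOpen_ball (x := c0) (ε := ρ))
    (hc.an D hD).differentiableOn)
  refine image_mono ?_
  rintro c ⟨h1, h2⟩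
  exact ⟨h1, (crit_iff hc hD h1).1 h2⟩

private theorem NNullA_test (m : ℕ) : ∃ c : Par m, ∀ i : Fin (m + 3),
    nf c i = (((i : ℕ) : ℝ), ((i : ℕ) : ℝ) * (((i : ℕ) : ℝ) - 1)) := by
  refine ⟨Sum.elim ![1, 2, 2] (Sum.elim (fun j => ((j : ℕ) : ℝ) + 3)
    (fun j => (((j : ℕ) : ℝ) + 3) * (((j : ℕ) : ℝ) + 2))), fun i => ?_⟩
  unfold nf
  by_cases h0 : (i : ℕ) = 0
  · rw [if_pos h0, h0]
    simp only [Nat.cast_zero, zero_mul]
    rfl
  by_cases h1 : (i : ℕ) = 1
  · rw [if_neg h0, if_pos h1, h1]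
    simp [iS]
  by_cases h3 : 3 ≤ (i : ℕ)
  · rw [if_neg h0, if_neg h1, dif_pos h3]
    have h4 : (((i : ℕ) - 3 : ℕ) : ℝ) + 3 = ((i : ℕ) : ℝ) := by
      rw [Nat.cast_sub h3]
      push_cast
      ring
    have h5 : (((i : ℕ) - 3 : ℕ) : ℝ) + 2 = ((i : ℕ) : ℝ) - 1 := by linarith
    simp only [iT, iR, Sum.elim_inr, Sum.elim_inl]
    rw [h4, h5]
  · have h2 : (i : ℕ) = 2 := by omega
    rw [if_neg h0, if_neg h1, dif_neg h3, h2]
    simp only [iX, iY, Sum.elim_inl]
    refine Prod.ext ?_ ?_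
    · change (2 : ℝ) = ((2 : ℕ) : ℝ)
      norm_num
    · change (2 : ℝ) = ((2 : ℕ) : ℝ) * (((2 : ℕ) : ℝ) - 1)
      norm_num

/-- Proof. A finite union over the triples; `c ↦ det2 (nf c j - nf c i) (nf c k - nf c i)` is a
polynomial, so analytic, and not zero at the parameter with `nf c i = (i, i (i - 1))`
(three points of a parabola): `H.null_zeros` with `U = univ`. -/
theorem null_colpar (m : ℕ) : volume {c : Par m | Col (nf c)} = 0 := by
  obtain ⟨L, hL⟩ := exists_nfL m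
  have hsub : {c : Par m | Col (nf c)} ⊆ ⋃ t : Fin (m + 3) × Fin (m + 3) × Fin (m + 3),
      {c : Par m | (t.1 ≠ t.2.1 ∧ t.2.1 ≠ t.2.2 ∧ t.1 ≠ t.2.2) ∧
        det2 (nf c t.2.1 - nf c t.1) (nf c t.2.2 - nf c t.1) = 0} := by
    rintro c ⟨i, j, k, h1, h2, h3, h4⟩
    rw [mem_iUnion]
    exact ⟨(i, j, k), ⟨h1, h2, h3⟩, h4⟩
  refine measure_mono_null hsub (measure_iUnion_null fun t => ?_)
  obtain ⟨i, j, k⟩ := t
  by_cases hd : i ≠ j ∧ j ≠ k ∧ i ≠ k
  · have han : AnalyticOnNhd ℝ (fun c : Par m =>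
        det2 (nf c j - nf c i) (nf c k - nf c i)) univ := by
      intro c _
      have h1 : ∀ l : Fin (m + 3), AnalyticAt ℝ (fun c : Par m => (nf c l).1) c := by
        intro l
        have h2 : (fun c : Par m => (nf c l).1) =
            fun c => ((ContinuousLinearMap.fst ℝ ℝ ℝ).comp
              ((ContinuousLinearMap.proj l).comp L)) c := by
          funext c
          simp [hL]
        rw [h2]
        exact ContinuousLinearMap.analyticAt _ _
      have h1' : ∀ l : Fin (m + 3), AnalyticAt ℝ (fun c : Par m => (nf c l).2) c := by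
        intro l
        have h2 : (fun c : Par m => (nf c l).2) =
            fun c => ((ContinuousLinearMap.snd ℝ ℝ ℝ).comp
              ((ContinuousLinearMap.proj l).comp L)) c := by
          funext c
          simp [hL]
        rw [h2]
        exact ContinuousLinearMap.analyticAt _ _
      have h3 : (fun c : Par m => det2 (nf c j - nf c i) (nf c k - nf c i)) =
          fun c => ((nf c j).1 - (nf c i).1) * ((nf c k).2 - (nf c i).2) -
            ((nf c j).2 - (nf c i).2) * ((nf c k).1 - (nf c i).1) := by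
        funext c
        simp [det2]
      rw [h3]
      exact (((h1 j).sub (h1 i)).mul ((h1' k).sub (h1' i))).sub
        (((h1' j).sub (h1' i)).mul ((h1 k).sub (h1 i)))
    have hne : ∃ c ∈ (univ : Set (Par m)),
        (fun c : Par m => det2 (nf c j - nf c i) (nf c k - nf c i)) c ≠ 0 := by
      obtain ⟨c, hc⟩ := NNullA_test m
      refine ⟨c, mem_univ c, ?_⟩
      simp only [hc, det2, Prod.fst_sub, Prod.snd_sub]
      have e1 : ((j : ℕ) : ℝ) - ((i : ℕ) : ℝ) ≠ 0 := by
        rw [sub_ne_zero]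
        intro h
        exact hd.1 (Fin.ext (Nat.cast_injective h)).symm
      have e2 : ((k : ℕ) : ℝ) - ((i : ℕ) : ℝ) ≠ 0 := by
        rw [sub_ne_zero]
        intro h
        exact hd.2.2 (Fin.ext (Nat.cast_injective h)).symm
      have e3 : ((k : ℕ) : ℝ) - ((j : ℕ) : ℝ) ≠ 0 := by
        rw [sub_ne_zero]
        intro h
        exact hd.2.1 (Fin.ext (Nat.cast_injective h)).symm
      have e4 : (((j : ℕ) : ℝ) - ((i : ℕ) : ℝ)) *
          (((k : ℕ) : ℝ) * (((k : ℕ) : ℝ) - 1) - ((i : ℕ) : ℝ) * (((i : ℕ) : ℝ) - 1)) -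
          (((j : ℕ) : ℝ) * (((j : ℕ) : ℝ) - 1) - ((i : ℕ) : ℝ) * (((i : ℕ) : ℝ) - 1)) *
          (((k : ℕ) : ℝ) - ((i : ℕ) : ℝ)) =
          (((j : ℕ) : ℝ) - ((i : ℕ) : ℝ)) * (((k : ℕ) : ℝ) - ((i : ℕ) : ℝ)) *
          (((k : ℕ) : ℝ) - ((j : ℕ) : ℝ)) := by ring
      rw [e4]
      exact mul_ne_zero (mul_ne_zero e1 e2) e3
    refine measure_mono_null ?_
      (H.null_zeros (volume : Measure (Par m)) isOpen_univ convex_univ han hne)
    rintro c ⟨-, h⟩
    exact ⟨mem_univ c, h⟩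
  · have : {c : Par m | ((i, j, k).1 ≠ (i, j, k).2.1 ∧ (i, j, k).2.1 ≠ (i, j, k).2.2 ∧
        (i, j, k).1 ≠ (i, j, k).2.2) ∧
        det2 (nf c (i, j, k).2.1 - nf c (i, j, k).1)
          (nf c (i, j, k).2.2 - nf c (i, j, k).1) = 0} = ∅ := by
      ext c
      rw [mem_empty_iff_false, iff_false]
      exact fun h => hd h.1
    rw [this]
    exact measure_empty

/-- Proof. As `null_crit_fig`; `Psi a b c0 D` is differentiable on the ball, and maps the null set
`ball ∩ {Col}` to a null set (`addHaar_image_eq_zero_of_differentiableOn_of_addHaar_eq_zero`). -/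
theorem null_col_fig {a : Ix m → ℕ} (ha : ∀ i, 1 ≤ a i)
    (E : Finset (Fin (m + 3) × Fin (m + 3))) :
    volume {y | ∃ (c : Par m) (D : Set P), 0 < c (iS m) ∧ Fig D (nf c) E ∧ Col (nf c) ∧
      y = Tr a D} = 0 := by
  refine NNullA_main ha E (fun c _ => Col (nf c)) ?_
  intro c0 b ρ D hc hD
  refine addHaar_image_eq_zero_of_differentiableOn_of_addHaar_eq_zero volume
    ((hc.an D hD).differentiableOn.mono fun c h => h.1) ?_
  exact measure_mono_null (fun c h => h.2) (null_colpar m)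

end Pool.Agent.MP4eed4eX.N
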