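import Pool.Agent.Lib.MP_4eed4e_an_PH.HZero
import Pool.Agent.Lib.MP_4eed4e_an_PH.HSard
import Pool.Agent.Lib.MP_4eed4e_an_PH.HTra
import Pool.Agent.Lib.MP_4eed4e_an_XN.NDet
import Pool.Agent.Lib.MP_4eed4e_an_XN.NLin

set_option autoImplicit false

/-!
Project X, block N, module NPre: preimages of null sets of trace vectors.
-/

namespace Pool.Agent.MP4eed4eX.N

open MeasureTheory Set Filter Topology Pool.Agent.MP4eed4eP

variable {m : ℕ}

/-- Proof. `lindelof'` with the ball of a chart at `c0`. The part of the set in the ball is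
contained
in the finite union (`finite_fig`, `Ch.sur`) over the figures `D` over `c0` of the sets
`{c ∈ ball | Psi a b c0 D c ∈ B}`. Each is a null set: the part with nonzero determinant by
`H.null_pre`, the part with determinant zero by `H.null_zeros` (`det_an`; not identically zero on
the ball since `SS`). -/
theorem null_pre_fig {a : Ix m → ℕ} (ha : ∀ i, 1 ≤ a i)
    {E : Finset (Fin (m + 3) × Fin (m + 3))}
    (hS : ∀ c : Par m, 0 < c (iS m) → SLG (nf c) E → SS a c E) {B : Set (Ix m → ℝ)}
    (hB : volume B = 0) :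
    volume {c : Par m | 0 < c (iS m) ∧ ∃ D, Fig D (nf c) E ∧ Tr a D ∈ B} = 0 := by
  refine lindelof' volume ?_
  rintro c0 ⟨h0, D0, hD0, -⟩
  have hslg : SLG (nf c0) E := hD0.slg
  obtain ⟨b, ρ, hch⟩ := exists_ch ha h0 hslg
  refine ⟨Metric.ball c0 ρ, Metric.ball_mem_nhds c0 hch.pos, ?_⟩
  have hfin : {D : Set P | Fig D (nf c0) E}.Finite := finite_fig (nf c0) E
  have hsub : Metric.ball c0 ρ ∩
      {c : Par m | 0 < c (iS m) ∧ ∃ D, Fig D (nf c) E ∧ Tr a D ∈ B} ⊆
      ⋃ D ∈ {D : Set P | Fig D (nf c0) E},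
        {c | c ∈ Metric.ball c0 ρ ∧ Psi a b c0 D c ∈ B} := by
    rintro c ⟨hc, -, D', hD', hB'⟩
    obtain ⟨D, hD, rfl⟩ := hch.sur c hc D' hD'
    exact mem_iUnion₂.2 ⟨D, hD, hc, hB'⟩
  refine measure_mono_null hsub ((measure_biUnion_null_iff hfin.countable).2 fun D hD => ?_)
  have han : AnalyticOnNhd ℝ (Psi a b c0 D) (Metric.ball c0 ρ) := hch.an D hD
  have h1 := H.null_pre Metric.isOpen_ball
    (han.contDiffOn Metric.isOpen_ball.uniqueDiffOn (n := 1)) hB
  have h2 : volume {c | c ∈ Metric.ball c0 ρ ∧ (fderiv ℝ (Psi a b c0 D) c).det = 0} = 0 := by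
    refine H.null_zeros volume Metric.isOpen_ball (convex_ball _ _) (det_an han) ?_
    by_contra hcon
    push Not at hcon
    refine hS c0 h0 hslg D hD b hch.hat ?_
    filter_upwards [Metric.ball_mem_nhds c0 hch.pos] with c hc using hcon c hc
  refine measure_mono_null ?_ (measure_union_null h1 h2)
  rintro c ⟨hc, hcB⟩
  by_cases hd : (fderiv ℝ (Psi a b c0 D) c).det = 0
  · exact Or.inr ⟨hc, hd⟩
  · exact Or.inl ⟨hc, hd, hcB⟩

/-- Proof. The set is the image of `univ ×ˢ univ ×ˢ S` under the differentiable map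
`(θ, β, c) ↦ rig θ β (nf c ·)` from `ℝ × P × Par m` to `Fin (m + 3) → P`, two spaces of the
dimension `2 m + 6`: `H.null_image` (see `H.null_tra` in `MP_4eed4e_an_PH/HTra`). -/
theorem null_nf {S : Set (Par m)} (hS : volume S = 0) :
    volume {p : Fin (m + 3) → P | ∃ c ∈ S, ∃ (θ : ℝ) (β : P), ∀ i, p i = rig θ β (nf c i)} =
      0 := by
  have hsub : {p : Fin (m + 3) → P | ∃ c ∈ S, ∃ (θ : ℝ) (β : P), ∀ i, p i = rig θ β (nf c i)} ⊆
      (fun (x : ℝ × P × Par m) (i : Fin (m + 3)) => rig x.1 x.2.1 (nf x.2.2 i)) ''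
        (univ ×ˢ (univ ×ˢ S)) := by
    rintro p ⟨c, hc, θ, β, h⟩
    refine ⟨(θ, β, c), ⟨mem_univ _, mem_univ _, hc⟩, ?_⟩
    funext i
    exact (h i).symm
  have i1 : (volume : Measure (P × Par m)).IsAddHaarMeasure :=
    Measure.prod.instIsAddHaarMeasure volume volume
  have i2 : (volume : Measure (ℝ × P × Par m)).IsAddHaarMeasure :=
    Measure.prod.instIsAddHaarMeasure volume volume
  refine measure_mono_null hsub ?_
  refine H.null_image (volume : Measure (ℝ × P × Par m)) volume ?_ ?_ ?_
  · simp only [Module.finrank_prod, Module.finrank_self, Module.finrank_pi,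
      Module.finrank_pi_fintype, Finset.sum_const, Finset.card_univ, Fintype.card_fin,
      Fintype.card_sum, smul_eq_mul]
    ring
  · obtain ⟨L, hL⟩ := exists_nfL m
    rw [differentiable_pi]
    intro i
    have h1 : Differentiable ℝ (fun x : ℝ × P × Par m => nf x.2.2 i) := by
      have h2 : Differentiable ℝ (fun x : ℝ × P × Par m => L x.2.2) :=
        L.differentiable.comp (differentiable_snd.comp differentiable_snd)
      have h3 := (differentiable_pi.1 h2) i
      simp only [hL] at h3
      exact h3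
    have h2 : Differentiable ℝ (fun x : ℝ × P × Par m => Real.cos x.1) :=
      Real.differentiable_cos.comp differentiable_fst
    have h3 : Differentiable ℝ (fun x : ℝ × P × Par m => Real.sin x.1) :=
      Real.differentiable_sin.comp differentiable_fst
    have h4 : Differentiable ℝ (fun x : ℝ × P × Par m => x.2.1) :=
      differentiable_fst.comp differentiable_snd
    exact (((h2.mul h1.fst).sub (h3.mul h1.snd)).add h4.fst).prodMk
      (((h3.mul h1.fst).add (h2.mul h1.snd)).add h4.snd)
  · rw [Measure.volume_eq_prod, Measure.prod_prod, Measure.volume_eq_prod, Measure.prod_prod, hS,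
      mul_zero, mul_zero]

end Pool.Agent.MP4eed4eX.N
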