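import Pool.Agent.Lib.MP_4eed4e_an_XN.NLab

set_option autoImplicit false

/-!
Project X, block N, module NSplit: splittable figures.
-/

namespace Pool.Agent.MP4eed4eX.N

open MeasureTheory Set Filter Topology Pool.Agent.MP4eed4eP

variable {m : ℕ}

/-- Moving the part on the right of the line `x.1 = s`. -/
noncomputable def mv {n : ℕ} (q : Fin n → P) (s t : ℝ) (i : Fin n) : P :=
  if (q i).1 < s then q i else q i + (t, 0)

/-- The map which moves the half plane on the right of the line. -/
private noncomputable def FF (s t : ℝ) (x : P) : P := if x.1 < s then x else x + (t, 0)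

private theorem ff_lt {s t : ℝ} {x : P} (h : x.1 < s) : FF s t x = x := by
  simp [FF, h]

private theorem ff_ge {s t : ℝ} {x : P} (h : ¬ x.1 < s) : FF s t x = x + (t, 0) := by
  simp [FF, h]

private theorem mv_ff {n : ℕ} (q : Fin n → P) (s t : ℝ) : mv q s t = fun i => FF s t (q i) := by
  funext i
  simp [mv, FF]

private theorem ff_inj {s t : ℝ} (ht : 0 ≤ t) : Function.Injective (FF s t) := by
  intro x y hxy
  by_cases hx : x.1 < s
  · by_cases hy : y.1 < s
    · rwa [ff_lt hx, ff_lt hy] at hxy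
    · exfalso
      rw [ff_lt hx, ff_ge hy] at hxy
      have h1 := congrArg Prod.fst hxy
      simp only [Prod.fst_add] at h1
      linarith [not_lt.1 hy]
  · by_cases hy : y.1 < s
    · exfalso
      rw [ff_ge hx, ff_lt hy] at hxy
      have h1 := congrArg Prod.fst hxy
      simp only [Prod.fst_add] at h1
      linarith [not_lt.1 hx]
    · rw [ff_ge hx, ff_ge hy] at hxy
      exact add_right_cancel hxy

/-- A segment which does not meet the line is on one side of it. -/
private theorem seg_side {s : ℝ} {u v : P} (h : ∀ x ∈ segment ℝ u v, x.1 ≠ s) :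
    (u.1 < s ∧ v.1 < s) ∨ (s < u.1 ∧ s < v.1) := by
  have hu : u.1 ≠ s := h u (left_mem_segment ℝ u v)
  have hv : v.1 ≠ s := h v (right_mem_segment ℝ u v)
  rcases lt_or_gt_of_ne hu with h1 | h1
  · rcases lt_or_gt_of_ne hv with h2 | h2
    · exact Or.inl ⟨h1, h2⟩
    · exfalso
      have h3 : 0 < v.1 - u.1 := by linarith
      refine h ((1 - (s - u.1) / (v.1 - u.1)) • u + ((s - u.1) / (v.1 - u.1)) • v)
        ⟨1 - (s - u.1) / (v.1 - u.1), (s - u.1) / (v.1 - u.1), ?_, ?_, by ring, rfl⟩ ?_
      · have : (s - u.1) / (v.1 - u.1) ≤ 1 := by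
          rw [div_le_one h3]
          linarith
        linarith
      · exact div_nonneg (by linarith) h3.le
      · simp only [Prod.fst_add, Prod.smul_fst, smul_eq_mul]
        field_simp
        ring
  · rcases lt_or_gt_of_ne hv with h2 | h2
    · exfalso
      have h3 : 0 < u.1 - v.1 := by linarith
      refine h (((s - v.1) / (u.1 - v.1)) • u + (1 - (s - v.1) / (u.1 - v.1)) • v)
        ⟨(s - v.1) / (u.1 - v.1), 1 - (s - v.1) / (u.1 - v.1), ?_, ?_, by ring, rfl⟩ ?_
      · exact div_nonneg (by linarith) h3.le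
      · have : (s - v.1) / (u.1 - v.1) ≤ 1 := by
          rw [div_le_one h3]
          linarith
        linarith
      · simp only [Prod.fst_add, Prod.smul_fst, smul_eq_mul]
        field_simp
        ring
    · exact Or.inr ⟨h1, h2⟩

private theorem seg_lt {s : ℝ} {u v : P} (hu : u.1 < s) (hv : v.1 < s) {x : P}
    (hx : x ∈ segment ℝ u v) : x.1 < s := by
  obtain ⟨a, b, ha, hb, hab, rfl⟩ := hx
  simp only [Prod.fst_add, Prod.smul_fst, smul_eq_mul]
  rcases ha.eq_or_lt with h | h
  · rw [← h] at hab ⊢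
    have : b = 1 := by linarith
    rw [this]
    linarith
  · have e1 : a * s + b * s = s := by rw [← add_mul, hab, one_mul]
    have e2 := mul_pos h (sub_pos.2 hu)
    have e3 := mul_nonneg hb (sub_pos.2 hv).le
    rw [mul_sub] at e2 e3
    linarith

private theorem seg_gt {s : ℝ} {u v : P} (hu : s < u.1) (hv : s < v.1) {x : P}
    (hx : x ∈ segment ℝ u v) : s < x.1 := by
  obtain ⟨a, b, ha, hb, hab, rfl⟩ := hx
  simp only [Prod.fst_add, Prod.smul_fst, smul_eq_mul]
  rcases ha.eq_or_lt with h | h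
  · rw [← h] at hab ⊢
    have : b = 1 := by linarith
    rw [this]
    linarith
  · have e1 : a * s + b * s = s := by rw [← add_mul, hab, one_mul]
    have e2 := mul_pos h (sub_pos.2 hu)
    have e3 := mul_nonneg hb (sub_pos.2 hv).le
    rw [mul_sub] at e2 e3
    linarith

private theorem ff_img_lt {s t : ℝ} {S : Set P} (h : ∀ x ∈ S, x.1 < s) : FF s t '' S = S := by
  ext y
  constructor
  · rintro ⟨x, hx, rfl⟩
    rwa [ff_lt (h x hx)]
  · intro hy
    exact ⟨y, hy, ff_lt (h y hy)⟩

private theorem ff_img_gt {s t : ℝ} {S : Set P} (h : ∀ x ∈ S, s < x.1) :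
    FF s t '' S = (fun x => x + (t, 0)) '' S := by
  ext y
  constructor
  · rintro ⟨x, hx, rfl⟩
    exact ⟨x, hx, (ff_ge (not_lt.2 (h x hx).le)).symm⟩
  · rintro ⟨x, hx, rfl⟩
    exact ⟨x, hx, ff_ge (not_lt.2 (h x hx).le)⟩

private theorem ff_seg {s t : ℝ} {u v : P} (h : ∀ x ∈ segment ℝ u v, x.1 ≠ s) :
    FF s t '' segment ℝ u v = segment ℝ (FF s t u) (FF s t v) ∧
      FF s t '' openSegment ℝ u v = openSegment ℝ (FF s t u) (FF s t v) := by
  rcases seg_side h with ⟨h1, h2⟩ | ⟨h1, h2⟩
  · rw [ff_lt h1, ff_lt h2]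
    exact ⟨ff_img_lt fun x hx => seg_lt h1 h2 hx,
      ff_img_lt fun x hx => seg_lt h1 h2 (openSegment_subset_segment ℝ u v hx)⟩
  · rw [ff_ge (not_lt.2 h1.le), ff_ge (not_lt.2 h2.le)]
    constructor
    · rw [ff_img_gt fun x hx => seg_gt h1 h2 hx]
      ext y
      constructor
      · rintro ⟨x, ⟨a, b, ha, hb, hab, rfl⟩, rfl⟩
        refine ⟨a, b, ha, hb, hab, ?_⟩
        have hb' : b = 1 - a := by linarith
        subst hb'
        simp only [smul_add]
        module
      · rintro ⟨a, b, ha, hb, hab, rfl⟩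
        refine ⟨a • u + b • v, ⟨a, b, ha, hb, hab, rfl⟩, ?_⟩
        have hb' : b = 1 - a := by linarith
        subst hb'
        simp only [smul_add]
        module
    · rw [ff_img_gt fun x hx => seg_gt h1 h2 (openSegment_subset_segment ℝ u v hx)]
      ext y
      constructor
      · rintro ⟨x, ⟨a, b, ha, hb, hab, rfl⟩, rfl⟩
        refine ⟨a, b, ha, hb, hab, ?_⟩
        have hb' : b = 1 - a := by linarith
        subst hb'
        simp only [smul_add]
        module
      · rintro ⟨a, b, ha, hb, hab, rfl⟩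
        refine ⟨a • u + b • v, ⟨a, b, ha, hb, hab, rfl⟩, ?_⟩
        have hb' : b = 1 - a := by linarith
        subst hb'
        simp only [smul_add]
        module

private theorem edge_ne {n : ℕ} {q : Fin n → P} {E : Finset (Fin n × Fin n)} {D : Set P}
    (h : Fig D q E) {s : ℝ} (hs : ∀ x ∈ closure D, x.1 ≠ s) {e : Fin n × Fin n} (he : e ∈ E) :
    ∀ x ∈ segment ℝ (q e.1) (q e.2), x.1 ≠ s := by
  intro x hx
  apply hs
  apply frontier_subset_closure
  rw [h.fr]
  exact Or.inr (mem_iUnion₂.2 ⟨e, he, hx⟩)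

private theorem ff_gr {n : ℕ} {q : Fin n → P} {E : Finset (Fin n × Fin n)} {D : Set P}
    (h : Fig D q E) {s : ℝ} (hs : ∀ x ∈ closure D, x.1 ≠ s) (t : ℝ) :
    Gr (fun i => FF s t (q i)) E = FF s t '' Gr q E := by
  unfold Gr
  rw [image_union, image_iUnion₂, ← range_comp]
  have : ∀ e ∈ E, segment ℝ (FF s t (q e.1)) (FF s t (q e.2)) =
      FF s t '' segment ℝ (q e.1) (q e.2) := fun e he =>
    (ff_seg (edge_ne h hs he)).1.symm
  congr 1
  exact iUnion₂_congr this

private theorem ff_slg {n : ℕ} {q : Fin n → P} {E : Finset (Fin n × Fin n)} {D : Set P}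
    (h : Fig D q E) {s : ℝ} (hs : ∀ x ∈ closure D, x.1 ≠ s) {t : ℝ} (ht : 0 ≤ t) :
    SLG (fun i => FF s t (q i)) E := by
  refine ⟨fun i j hij => h.slg.inj (ff_inj ht hij), h.slg.lt, ?_, ?_⟩
  · intro e he k hk
    rw [← (ff_seg (edge_ne h hs he)).2] at hk
    obtain ⟨x, hx, hxk⟩ := hk
    rw [ff_inj ht hxk] at hx
    exact h.slg.vert e he k hx
  · intro e he f hf hef
    rw [← (ff_seg (edge_ne h hs he)).2, ← (ff_seg (edge_ne h hs hf)).2]
    exact (disjoint_image_iff (ff_inj ht)).2 (h.slg.disj e he f hf hef)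

private theorem ff_split {s t : ℝ} {S : Set P} (h : ∀ x ∈ S, x.1 ≠ s) :
    FF s t '' S = (S ∩ {x | x.1 < s}) ∪ (fun x => x + (t, 0)) '' (S ∩ {x | s < x.1}) := by
  have h1 : S = (S ∩ {x | x.1 < s}) ∪ (S ∩ {x | s < x.1}) := by
    ext x
    constructor
    · intro hx
      rcases lt_or_gt_of_ne (h x hx) with h2 | h2
      · exact Or.inl ⟨hx, h2⟩
      · exact Or.inr ⟨hx, h2⟩
    · rintro (hx | hx)
      · exact hx.1
      · exact hx.1
  conv_lhs => rw [h1]
  rw [image_union, ff_img_lt (fun x hx => hx.2), ff_img_gt (fun x hx => hx.2)]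

private theorem cl_lt {s : ℝ} {D : Set P} (hs : ∀ x ∈ closure D, x.1 ≠ s) :
    closure (D ∩ {x : P | x.1 < s}) = closure D ∩ {x | x.1 < s} := by
  apply Subset.antisymm
  · intro x hx
    have h1 : x ∈ closure D := closure_mono inter_subset_left hx
    have h2 : x ∈ {x : P | x.1 ≤ s} := by
      have h3 : IsClosed {x : P | x.1 ≤ s} := isClosed_le continuous_fst continuous_const
      exact closure_minimal (fun y hy => (le_of_lt hy.2 : y.1 ≤ s)) h3 hx
    exact ⟨h1, lt_of_le_of_ne h2 (hs x h1)⟩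
  · intro x hx
    have h3 : IsOpen {x : P | x.1 < s} := isOpen_lt continuous_fst continuous_const
    have := h3.inter_closure (t := D) ⟨hx.2, hx.1⟩
    rwa [inter_comm] at this

private theorem cl_gt {s : ℝ} {D : Set P} (hs : ∀ x ∈ closure D, x.1 ≠ s) :
    closure (D ∩ {x : P | s < x.1}) = closure D ∩ {x | s < x.1} := by
  apply Subset.antisymm
  · intro x hx
    have h1 : x ∈ closure D := closure_mono inter_subset_left hx
    have h2 : x ∈ {x : P | s ≤ x.1} := by
      have h3 : IsClosed {x : P | s ≤ x.1} := isClosed_le continuous_const continuous_fst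
      exact closure_minimal (fun y hy => (le_of_lt hy.2 : s ≤ y.1)) h3 hx
    exact ⟨h1, lt_of_le_of_ne h2 (Ne.symm (hs x h1))⟩
  · intro x hx
    have h3 : IsOpen {x : P | s < x.1} := isOpen_lt continuous_const continuous_fst
    have := h3.inter_closure (t := D) ⟨hx.2, hx.1⟩
    rwa [inter_comm] at this

/-- Proof. The graph is contained in the closure of `D`, so it does not meet the line `x.1 = s`, and
every edge is on one side. The map `x ↦ x` for `x.1 < s`, `x ↦ x + (t, 0)` for `s < x.1` maps the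
edges to the edges, and is injective off the line (`t ≥ 0`), so `SLG`. With
`D1 = D ∩ {x.1 < s}`, `D2 = D ∩ {s < x.1}` (open, bounded, `D = D1 ∪ D2`, closures disjoint from the
line since `closure D` is compact and does not meet it) the new set is `D1 ∪ (D2 + (t, 0))`, with
the
frontier `frontier D1 ∪ (frontier D2 + (t, 0))`. The eigenvalues: `lamL_split`. -/
theorem fig_mv {n : ℕ} {q : Fin n → P} {E : Finset (Fin n × Fin n)} {D : Set P}
    (h : Fig D q E) {s : ℝ} (hs : ∀ x ∈ closure D, x.1 ≠ s) {t : ℝ} (ht : 0 ≤ t) :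
    ∃ D', Fig D' (mv q s t) E ∧ Iso D' D := by
  have hsD : ∀ x ∈ D, x.1 ≠ s := fun x hx => hs x (subset_closure hx)
  have o1 : IsOpen (D ∩ {x : P | x.1 < s}) :=
    h.op.inter (isOpen_lt continuous_fst continuous_const)
  have o2 : IsOpen (D ∩ {x : P | s < x.1}) :=
    h.op.inter (isOpen_lt continuous_const continuous_fst)
  have hτ : ∀ S : Set P, (fun x : P => x + (t, 0)) '' S = Homeomorph.addRight ((t, 0) : P) '' S :=
    fun S => rfl
  have hop : IsOpen (FF s t '' D) := by
    rw [ff_split hsD, hτ]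
    exact o1.union ((Homeomorph.isOpen_image _).2 o2)
  have hcl : closure (FF s t '' D) = FF s t '' closure D := by
    rw [ff_split hsD, ff_split hs, closure_union, cl_lt hs, hτ, hτ,
      ← Homeomorph.image_closure, cl_gt hs]
  refine ⟨FF s t '' D, ⟨?_, hop, ?_, ?_⟩, ?_⟩
  · rw [mv_ff]
    exact ff_slg h hs ht
  · rw [ff_split hsD]
    refine (h.bdd.subset inter_subset_left).union ?_
    exact ((isometry_add_right ((t, 0) : P)).lipschitz).isBounded_image
      (h.bdd.subset inter_subset_left)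
  · rw [mv_ff, ff_gr h hs, ← h.fr, frontier, hcl, hop.interior_eq, frontier, h.op.interior_eq,
      image_sdiff (ff_inj ht)]
  · intro k
    rw [ff_split hsD, lamL_split o1 o2 (s := s) ?_ ?_ ht]
    · congr 1
      ext x
      constructor
      · rintro (hx | hx)
        · exact hx.1
        · exact hx.1
      · intro hx
        rcases lt_or_gt_of_ne (hsD x hx) with h2 | h2
        · exact Or.inl ⟨hx, h2⟩
        · exact Or.inr ⟨hx, h2⟩
    · intro x hx
      rw [cl_lt hs] at hx
      exact hx.2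
    · intro x hx
      rw [cl_gt hs] at hx
      exact hx.2

/-- Proof. Let `t k = 1 / (k + 1)`, `D' k` the figure over `q k = mv q s (t k)` of `fig_mv`, and
`c k = nc (q k)`, which tends to `c0 = nc q` (`nc_contAt`; `q 0 ≠ q 1`). `D' k` is a rigid image of
a figure `D'' k` over `nf (c k)` (`exists_rig`, `fig_unrig`). Let `U` be the hyperfilter.
`limit_fig` gives `D0` over `nf c0`, isospectral to `D` (a constant sequence has the limit
`lamL D j`), and `D'' k` is the chart image of `D0` for `U`-most `k`. The rigid image `D1` of `D0`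
is a
figure over `q` isospectral to `D` (`exists_rig` for `q`), so it is not critical by the hypothesis,
and `Crit a c0 E D0` is false (`critQ_iff`). By `loc_inj` (`Psi` has the same value at `c k` and
`c0`) `c k = c0` for `U`-most `k`, but the distance of a vertex on the left and a vertex on the
right
is changed by the move (`dist_nc`; `(x + t) ^ 2 + y ^ 2 > x ^ 2 + y ^ 2` for `x, t > 0`). -/
theorem split_contra {a : Ix m → ℕ} (ha : ∀ i, 1 ≤ a i) {q : Fin (m + 3) → P}
    {E : Finset (Fin (m + 3) × Fin (m + 3))} {D : Set P} (h : Fig D q E) {s : ℝ}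
    (h1 : ∃ i, (q i).1 < s) (h2 : ∃ i, s < (q i).1) (hs : ∀ x ∈ closure D, x.1 ≠ s)
    (hr : ∀ D0, Fig D0 q E → Iso D0 D → ¬ CritQ a q E D0) : False := by
  have hne : ∀ {p : Fin (m + 3) → P}, SLG p E → p 0 ≠ p 1 := by
    intro p hp h01
    have := hp.inj h01
    simp at this
  let t : ℕ → ℝ := fun k => 1 / ((k : ℝ) + 1)
  have htpos : ∀ k, 0 < t k := fun k => Nat.one_div_pos_of_nat
  have ht0 : Tendsto t atTop (𝓝 0) := tendsto_one_div_add_atTop_nhds_zero_nat
  choose D' hD' hI using fun k => fig_mv h hs (htpos k).le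
  let c : ℕ → Par m := fun k => nc (mv q s (t k))
  have hmv : Tendsto (fun k => mv q s (t k)) atTop (𝓝 q) := by
    rw [tendsto_pi_nhds]
    intro i
    by_cases hi : (q i).1 < s
    · simp only [mv, hi, if_true]
      exact tendsto_const_nhds
    · simp only [mv, hi, if_false]
      have h3 : Tendsto (fun k => ((t k, 0) : P)) atTop (𝓝 (0, 0)) :=
        ht0.prodMk_nhds tendsto_const_nhds
      have h4 := (tendsto_const_nhds (x := q i)).add h3
      have h5 : q i + ((0, 0) : P) = q i := by
        ext <;> simp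
      rwa [h5] at h4
  have h01 : q 0 ≠ q 1 := hne h.slg
  have hc : Tendsto c atTop (𝓝 (nc q)) := (nc_contAt h01).tendsto.comp hmv
  obtain ⟨h0, θ0, hθ0⟩ := exists_rig h01
  have h01k : ∀ k, mv q s (t k) 0 ≠ mv q s (t k) 1 := fun k => hne (hD' k).slg
  choose hpos θ hθ using fun k => exists_rig (h01k k)
  have hFk : ∀ k, Fig (D' k) (fun i => rig (θ k) (mv q s (t k) 0) (nf (c k) i)) E := by
    intro k
    have : (fun i => rig (θ k) (mv q s (t k) 0) (nf (c k) i)) = mv q s (t k) := by
      funext i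
      exact (hθ k i).symm
    rw [this]
    exact hD' k
  choose D'' hD'' hE'' using fun k => fig_unrig (hFk k)
  have hq' : (fun i => rig θ0 (q 0) (nf (nc q) i)) = q := by
    funext i
    exact (hθ0 i).symm
  have hF0 : Fig D (fun i => rig θ0 (q 0) (nf (nc q) i)) E := by
    rw [hq']
    exact h
  obtain ⟨D00, hD00, -⟩ := fig_unrig hF0
  have hU : ((hyperfilter ℕ : Ultrafilter ℕ) : Filter ℕ) ≤ atTop := Nat.hyperfilter_le_atTop
  obtain ⟨b, ρ, D0, hCh, hFD0, hev, hlim⟩ := limit_fig ha (hyperfilter ℕ) (c := c) (D := D'')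
    h0 hD00.slg (hc.mono_left hU) (Eventually.of_forall hD'')
  have hl : ∀ k j, lamL (D'' k) j = lamL D j := by
    intro k j
    rw [← hI k j, hE'' k, lamL_rig]
  have hI0 : Iso D0 D := by
    intro j
    have h3 := hlim j
    simp only [hl] at h3
    exact (tendsto_nhds_unique h3 tendsto_const_nhds)
  have hFD1 : Fig (rig θ0 (q 0) '' D0) q E := by
    have := fig_rig hFD0 θ0 (q 0)
    rwa [hq'] at this
  have hI1 : Iso (rig θ0 (q 0) '' D0) D := by
    intro j
    rw [lamL_rig]
    exact hI0 j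
  have hcr : ¬ Crit a (nc q) E D0 := by
    rw [← critQ_iff h0 hθ0 D0]
    exact hr _ hFD1 hI1
  obtain ⟨κ, hκ, hloc⟩ := loc_inj hCh hFD0 hcr
  have hlocU := (hc.mono_left hU).eventually hloc
  have hP0 : Psi a b (nc q) D0 (nc q) = Tr a D := by
    have h3 : ph b (fun i => nf (nc q) i - nf (nc q) i) '' D0 = D0 := by
      have h4 : ph b (fun i => nf (nc q) i - nf (nc q) i) = id := by
        funext x
        simp [ph]
      rw [h4, image_id]
    rw [Psi, h3]
    exact iso_tr hI0 a
  obtain ⟨k, hk1, hk2⟩ := (hlocU.and hev).exists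
  have hPk : Psi a b (nc q) D0 (c k) = Tr a D := by
    rw [Psi, ← hk2.2]
    exact iso_tr (fun j => hl k j) a
  rw [hPk, hP0, sub_self, norm_zero] at hk1
  have hck : c k = nc q := by
    have h3 : ‖c k - nc q‖ ≤ 0 := by
      by_contra h4
      have := mul_pos hκ (not_le.1 h4)
      linarith
    exact sub_eq_zero.1 (norm_le_zero_iff.1 h3)
  obtain ⟨i, hi⟩ := h1
  obtain ⟨j, hj⟩ := h2
  have h5 := dist_nc (h01k k) i j
  have h6 := dist_nc h01 i j
  have h7 : nc (mv q s (t k)) = nc q := hck
  rw [h7, ← h6] at h5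
  have h8 : mv q s (t k) i = q i := by simp [mv, hi]
  have h9 : mv q s (t k) j = q j + (t k, 0) := by simp [mv, not_lt.2 hj.le]
  rw [h8, h9] at h5
  simp only [dt, Prod.fst_sub, Prod.snd_sub, Prod.fst_add, Prod.snd_add] at h5
  have h10 := htpos k
  nlinarith [mul_pos h10 h10, mul_pos h10 (sub_pos.2 (hi.trans hj))]

end Pool.Agent.MP4eed4eX.N
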