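import Pool.Agent.Lib.MP_4eed4e_an_XN.NSplit

set_option autoImplicit false

/-!
Project X, block Q, module QLim: limits of sequences of figures whose eigenvalues tend to those of
a regular set.
-/

namespace Pool.Agent.MP4eed4eX.N

open MeasureTheory Set Filter Topology Pool.Agent.MP4eed4eP

private theorem QLim_mem {u v x : P} (h : x ∈ openSegment ℝ u v) :
    ∃ t : ℝ, 0 < t ∧ t < 1 ∧ x = u + t • (v - u) := by
  rw [openSegment_eq_image] at h
  obtain ⟨t, ht, rfl⟩ := h
  refine ⟨t, ht.1, ht.2, ?_⟩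
  simp only [smul_sub, sub_smul, one_smul]
  abel

private theorem QLim_of {u v : P} {t : ℝ} (h0 : 0 < t) (h1 : t < 1) :
    u + t • (v - u) ∈ openSegment ℝ u v := by
  rw [openSegment_eq_image]
  refine ⟨t, ⟨h0, h1⟩, ?_⟩
  simp only [smul_sub, sub_smul, one_smul]
  abel

/-- Two open segments with a common end which meet lie on one line. -/
private theorem QLim_share {u v w x : P} (h1 : x ∈ openSegment ℝ u v)
    (h2 : x ∈ openSegment ℝ u w) : det2 (v - u) (w - u) = 0 := by
  obtain ⟨s, s0, s1, hs⟩ := QLim_mem h1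
  obtain ⟨t, t0, t1, ht⟩ := QLim_mem h2
  have e : s • (v - u) = t • (w - u) := by
    have := hs.symm.trans ht
    exact add_left_cancel this
  have e1 : s * (v.1 - u.1) = t * (w.1 - u.1) := by
    have := congrArg Prod.fst e
    simpa using this
  have e2 : s * (v.2 - u.2) = t * (w.2 - u.2) := by
    have := congrArg Prod.snd e
    simpa using this
  have e3 : (s * t) * det2 (v - u) (w - u) = 0 := by
    simp only [det2, Prod.fst_sub, Prod.snd_sub]
    linear_combination (t * (w.2 - u.2)) * e1 - (t * (w.1 - u.1)) * e2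
  exact (mul_eq_zero.mp e3).resolve_left (mul_pos s0 t0).ne'

/-- If two open segments meet and are not on one line, the ends are on different sides. -/
private theorem QLim_side {a b c d x : P} (h1 : x ∈ openSegment ℝ a b)
    (h2 : x ∈ openSegment ℝ c d) (hc : det2 (b - a) (c - a) ≠ 0) :
    det2 (b - a) (c - a) * det2 (b - a) (d - a) < 0 := by
  obtain ⟨s, s0, s1, hs⟩ := QLim_mem h1
  obtain ⟨t, t0, t1, ht⟩ := QLim_mem h2
  have e1 : a.1 + s * (b.1 - a.1) = c.1 + t * (d.1 - c.1) := by
    have := congrArg Prod.fst (hs.symm.trans ht)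
    simpa using this
  have e2 : a.2 + s * (b.2 - a.2) = c.2 + t * (d.2 - c.2) := by
    have := congrArg Prod.snd (hs.symm.trans ht)
    simpa using this
  have e3 : (1 - t) * det2 (b - a) (c - a) + t * det2 (b - a) (d - a) = 0 := by
    simp only [det2, Prod.fst_sub, Prod.snd_sub]
    linear_combination (b.2 - a.2) * e1 - (b.1 - a.1) * e2
  have hp : 0 < det2 (b - a) (c - a) ^ 2 := by positivity
  have e4 : t * (det2 (b - a) (c - a) * det2 (b - a) (d - a)) =
      -((1 - t) * det2 (b - a) (c - a) ^ 2) := by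
    linear_combination det2 (b - a) (c - a) * e3
  have e5 : 0 < (1 - t) * det2 (b - a) (c - a) ^ 2 := mul_pos (by linarith) hp
  by_contra hn
  push Not at hn
  have := mul_nonneg t0.le hn
  linarith

private theorem QLim_quot {x y : ℝ} (h : x * y < 0) : 0 < x / (x - y) ∧ x / (x - y) < 1 := by
  rcases lt_trichotomy x 0 with hx | hx | hx
  · have hy : 0 < y := by
      by_contra hn
      push Not at hn
      have := mul_nonneg_of_nonpos_of_nonpos hx.le hn
      linarith
    have hd : x - y < 0 := by linarith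
    exact ⟨div_pos_of_neg_of_neg hx hd, (div_lt_one_of_neg hd).mpr (by linarith)⟩
  · rw [hx, zero_mul] at h
    exact absurd h (lt_irrefl _)
  · have hy : y < 0 := by
      by_contra hn
      push Not at hn
      have := mul_nonneg hx.le hn
      linarith
    have hd : 0 < x - y := by linarith
    exact ⟨div_pos hx hd, (div_lt_one hd).mpr (by linarith)⟩

/-- Open segments with ends on different sides of each other meet. -/
private theorem QLim_meet {a b c d : P}
    (h1 : det2 (b - a) (c - a) * det2 (b - a) (d - a) < 0)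
    (h2 : det2 (d - c) (a - c) * det2 (d - c) (b - c) < 0) :
    ¬ Disjoint (openSegment ℝ a b) (openSegment ℝ c d) := by
  obtain ⟨s0, s1⟩ := QLim_quot h2
  obtain ⟨t0, t1⟩ := QLim_quot h1
  rw [Set.not_disjoint_iff]
  set D1 := det2 (b - a) (c - a) with hD1
  set D2 := det2 (b - a) (d - a) with hD2
  set E1 := det2 (d - c) (a - c) with hE1
  set E2 := det2 (d - c) (b - c) with hE2
  refine ⟨a + (E1 / (E1 - E2)) • (b - a), QLim_of s0 s1, ?_⟩
  have hW : E1 - E2 = -(D1 - D2) := by
    rw [hE1, hE2, hD1, hD2]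
    simp only [det2, Prod.fst_sub, Prod.snd_sub]
    ring
  have hne : D1 - D2 ≠ 0 := by
    intro h0
    have : D1 = D2 := by linarith
    rw [this] at h1
    exact absurd (mul_self_nonneg D2) (not_le.mpr h1)
  have e : a + (E1 / (E1 - E2)) • (b - a) = c + (D1 / (D1 - D2)) • (d - c) := by
    rw [hW]
    refine Prod.ext ?_ ?_
    · simp only [Prod.fst_add, Prod.smul_fst, Prod.fst_sub, smul_eq_mul]
      rw [div_neg, ← sub_eq_zero]
      field_simp
      rw [hE1, hD1, hD2]
      simp only [det2, Prod.fst_sub, Prod.snd_sub]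
      ring
    · simp only [Prod.snd_add, Prod.smul_snd, Prod.snd_sub, smul_eq_mul]
      rw [div_neg, ← sub_eq_zero]
      field_simp
      rw [hE1, hD1, hD2]
      simp only [det2, Prod.fst_sub, Prod.snd_sub]
      ring
  rw [e]
  exact QLim_of t0 t1

private theorem QLim_det {U : Filter ℕ} {x y : ℕ → P} {x0 y0 : P} (hx : Tendsto x U (𝓝 x0))
    (hy : Tendsto y U (𝓝 y0)) : Tendsto (fun k => det2 (x k) (y k)) U (𝓝 (det2 x0 y0)) := by
  have hx1 := (continuous_fst.tendsto x0).comp hx
  have hx2 := (continuous_snd.tendsto x0).comp hx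
  have hy1 := (continuous_fst.tendsto y0).comp hy
  have hy2 := (continuous_snd.tendsto y0).comp hy
  exact (hx1.mul hy2).sub (hx2.mul hy1)

private theorem QLim_ncol {n : ℕ} {q : Fin n → P} (hc : ¬ Col q) {i j k : Fin n} (h1 : i ≠ j)
    (h2 : j ≠ k) (h3 : i ≠ k) : det2 (q j - q i) (q k - q i) ≠ 0 := fun h =>
  hc ⟨i, j, k, h1, h2, h3, h⟩

/-- Proof. `lt` holds since there is some `k` with `SLG (p k) E`. `vert`: `q l` in the open segment
would be a collinear triple, or `l` is an end and `q` is not injective. `disj`: let `x` be in the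
open segments of `e ≠ f`. If `e`, `f` have a common vertex, the other two ends and this vertex are
collinear (the lines coincide), against `¬ Col q` (the three indices are different since
`e.1 < e.2`, `f.1 < f.2`, `e ≠ f`). If the four indices are different: the ends of `f` are strictly
on different sides of the line of `e` and conversely (no collinear triples), i.e.
`det2 (q e.2 - q e.1) (q f.1 - q e.1) * det2 (q e.2 - q e.1) (q f.2 - q e.1) < 0` and the same with
`e`, `f` exchanged. These are strict inequalities in the differences, so they hold for `p k` for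
some `k`, and then the open segments of `p k` meet. -/
theorem slg_limit {n : ℕ} {U : Filter ℕ} [U.NeBot] {E : Finset (Fin n × Fin n)}
    {p : ℕ → Fin n → P} {q : Fin n → P} (h : ∀ᶠ k in U, SLG (p k) E)
    (hi : Function.Injective q) (hc : ¬ Col q)
    (hl : ∀ i j, Tendsto (fun k => p k i - p k j) U (𝓝 (q i - q j))) : SLG q E := by
  have hlt : ∀ e ∈ E, e.1 < e.2 := by
    obtain ⟨k, hk⟩ := h.exists
    exact hk.lt
  refine ⟨hi, hlt, ?_, ?_⟩
  · intro e he k hk
    have hne : e.1 ≠ e.2 := (hlt e he).ne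
    by_cases h1 : k = e.1
    · subst h1
      obtain ⟨t, t0, t1, ht⟩ := QLim_mem hk
      have h2 : t • (q e.2 - q e.1) = 0 := by
        have : q e.1 + 0 = q e.1 + t • (q e.2 - q e.1) := by rw [add_zero]; exact ht
        exact (add_left_cancel this).symm
      rcases smul_eq_zero.mp h2 with h3 | h3
      · exact t0.ne' h3
      · exact hne (hi (sub_eq_zero.mp h3)).symm
    by_cases h2 : k = e.2
    · subst h2
      rw [openSegment_symm] at hk
      obtain ⟨t, t0, t1, ht⟩ := QLim_mem hk
      have h2 : t • (q e.1 - q e.2) = 0 := by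
        have : q e.2 + 0 = q e.2 + t • (q e.1 - q e.2) := by rw [add_zero]; exact ht
        exact (add_left_cancel this).symm
      rcases smul_eq_zero.mp h2 with h3 | h3
      · exact t0.ne' h3
      · exact hne (hi (sub_eq_zero.mp h3))
    · obtain ⟨t, t0, t1, ht⟩ := QLim_mem hk
      refine QLim_ncol hc hne (Ne.symm h2) (Ne.symm h1) ?_
      rw [ht]
      simp only [det2, Prod.fst_sub, Prod.snd_sub, Prod.fst_add, Prod.snd_add, Prod.smul_fst,
        Prod.smul_snd, smul_eq_mul]
      ring
  · intro e he f hf hef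
    rw [Set.disjoint_left]
    intro x hx1 hx2
    have he' := hlt e he
    have hf' := hlt f hf
    obtain ⟨a, b⟩ := e
    obtain ⟨c, d⟩ := f
    simp only at he' hf' hx1 hx2
    by_cases hac : a = c
    · subst hac
      have hbd : b ≠ d := fun h => hef (by rw [h])
      exact QLim_ncol hc he'.ne hbd hf'.ne (QLim_share hx1 hx2)
    by_cases had : a = d
    · subst had
      have hbc : b ≠ c := by
        rintro rfl
        exact absurd he' (not_lt.mpr hf'.le)
      rw [openSegment_symm] at hx2
      exact QLim_ncol hc he'.ne hbc (Ne.symm hf'.ne) (QLim_share hx1 hx2)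
    by_cases hbc : b = c
    · subst hbc
      rw [openSegment_symm] at hx1
      exact QLim_ncol hc (Ne.symm he'.ne) had hf'.ne (QLim_share hx1 hx2)
    by_cases hbd : b = d
    · subst hbd
      rw [openSegment_symm] at hx1 hx2
      exact QLim_ncol hc (Ne.symm he'.ne) hac (Ne.symm hf'.ne) (QLim_share hx1 hx2)
    have s1 := QLim_side hx1 hx2 (QLim_ncol hc he'.ne hbc hac)
    have s2 := QLim_side hx2 hx1 (QLim_ncol hc hf'.ne (Ne.symm had) (Ne.symm hac))
    have t1 : Tendsto (fun k => det2 (p k b - p k a) (p k c - p k a) *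
        det2 (p k b - p k a) (p k d - p k a)) U
        (𝓝 (det2 (q b - q a) (q c - q a) * det2 (q b - q a) (q d - q a))) :=
      (QLim_det (hl b a) (hl c a)).mul (QLim_det (hl b a) (hl d a))
    have t2 : Tendsto (fun k => det2 (p k d - p k c) (p k a - p k c) *
        det2 (p k d - p k c) (p k b - p k c)) U
        (𝓝 (det2 (q d - q c) (q a - q c) * det2 (q d - q c) (q b - q c))) :=
      (QLim_det (hl d c) (hl a c)).mul (QLim_det (hl d c) (hl b c))
    obtain ⟨k, hk, hk1, hk2⟩ := (h.and ((t1.eventually_lt_const s1).and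
      (t2.eventually_lt_const s2))).exists
    exact QLim_meet hk1 hk2 (hk.disj (a, b) he (c, d) hf hef)

variable {m : ℕ} {a : Ix m → ℕ}

/-- Proof. `limit` (`lamL_tendsto` for `D`) gives a figure isospectral to `D` with `M' ≤ M < m + 3`
vertices, against `Reg`. -/
theorem lim_few (ha : ∀ i, 1 ≤ a i) {D : Set P} (hO : IsOpen D) (hb : Bornology.IsBounded D)
    (hne : D.Nonempty) (hR : Reg a D) {M : ℕ} (hM : M < m + 3) {E : Finset (Fin M × Fin M)}
    {D' : ℕ → Set P} {p : ℕ → Fin M → P} (hF : ∀ k, Fig (D' k) (p k) E)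
    (hl : ∀ j, Tendsto (fun k => lamL (D' k) j) atTop (𝓝 (lamL D j))) : False := by
  obtain ⟨M', p', E', D1, hM', hF', hiso, -⟩ := limit hF hl (lamL_tendsto hO hb hne)
    (hyperfilter ℕ) Nat.hyperfilter_le_atTop
  exact hR.1 M' (lt_of_le_of_lt hM' hM) p' E' D1 hF' hiso

/-- Proof. `limit` gives a figure `D'` isospectral to `D`, with `m + 3` vertices by `Reg`, and
`q`, `E''` with `Fig D' q E''`, so `¬ Col q`. The second alternative is excluded by
`split_contra` (figures over `q` isospectral to `D'` are isospectral to `D`, so not critical by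
`Reg`). So the differences converge, `SLG q E` (`slg_limit`), `nc (p k) → nc q` (`nc_tendsto`).
`c0 = nc q`; `D' k` is a rigid image of a figure over `nf (nc (p k))` (`exists_rig`, `fig_unrig`);
`limit_fig` gives `D0`, isospectral to `D` by the uniqueness of limits. A rigid image of `D0` is a
figure over `q`, so `Crit a c0 E D0` is false (`critQ_iff`). -/
theorem lim_full (ha : ∀ i, 1 ≤ a i) {D : Set P} (hO : IsOpen D) (hb : Bornology.IsBounded D)
    (hne : D.Nonempty) (hR : Reg a D) {E : Finset (Fin (m + 3) × Fin (m + 3))}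
    {D' : ℕ → Set P} {p : ℕ → Fin (m + 3) → P} (hF : ∀ k, Fig (D' k) (p k) E)
    (hl : ∀ j, Tendsto (fun k => lamL (D' k) j) atTop (𝓝 (lamL D j)))
    (U : Ultrafilter ℕ) (hU : (U : Filter ℕ) ≤ atTop) :
    ∃ c0 b ρ D0, 0 < c0 (iS m) ∧ ¬ Col (nf c0) ∧ Ch a c0 E b ρ ∧ Fig D0 (nf c0) E ∧
      ¬ Crit a c0 E D0 ∧ Iso D0 D ∧ Tendsto (fun k => nc (p k)) U (𝓝 c0) ∧
      ∀ᶠ k in (U : Filter ℕ), nc (p k) ∈ Metric.ball c0 ρ ∧
        ∃ (θ : ℝ) (β : P), (∀ i, p k i = rig θ β (nf (nc (p k)) i)) ∧
          D' k = rig θ β '' (ph b (fun i => nf (nc (p k)) i - nf c0 i) '' D0) := by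
  obtain ⟨M', p', E', D1, hM', hF', hiso, hfull⟩ := limit hF hl (lamL_tendsto hO hb hne) U hU
  have hMe : M' = m + 3 := by
    by_contra hne'
    exact hR.1 M' (lt_of_le_of_ne hM' hne') p' E' D1 hF' hiso
  obtain ⟨q, E'', hFq, halt⟩ := hfull hMe
  have hcol : ¬ Col q := (hR.2 q E'' D1 hFq hiso).1
  rcases halt with hdiff | ⟨s, hs1, hs2, hs3⟩
  swap
  · exfalso
    refine split_contra ha hFq hs1 hs2 hs3 fun D0 hD0 hI => ?_
    exact (hR.2 q E'' D0 hD0 fun k => (hI k).trans (hiso k)).2
  have hslg : SLG q E := slg_limit (Eventually.of_forall fun k => (hF k).slg) hFq.slg.inj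
    hcol hdiff
  have h01 : (0 : Fin (m + 3)) ≠ 1 := by
    intro h
    have := congrArg (fun i : Fin (m + 3) => (i : ℕ)) h
    simp at this
  have hq01 : q 0 ≠ q 1 := fun h => h01 (hslg.inj h)
  have hnc := nc_tendsto hq01 hdiff
  obtain ⟨hpos, θ, hθ⟩ := exists_rig hq01
  have hslg0 : SLG (nf (nc q)) E := by
    obtain ⟨e, he, θ', β', he'⟩ := rig_homeo θ (q 0)
    have h1 : nf (nc q) = fun i => rig θ' β' (q i) := by
      funext i
      rw [← he', hθ i, ← he, e.symm_apply_apply]
    rw [h1]
    exact slg_rig hslg θ' β'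
  have hp01 : ∀ k, p k 0 ≠ p k 1 := fun k h => h01 ((hF k).slg.inj h)
  have hk1 : ∀ k, ∃ θ : ℝ, ∀ i, p k i = rig θ (p k 0) (nf (nc (p k)) i) :=
    fun k => (exists_rig (hp01 k)).2
  choose Θ hΘ using hk1
  have hk2 : ∀ k, ∃ D0, Fig D0 (nf (nc (p k))) E ∧ D' k = rig (Θ k) (p k 0) '' D0 := by
    intro k
    refine fig_unrig ?_
    have h1 : (fun i => rig (Θ k) (p k 0) (nf (nc (p k)) i)) = p k :=
      funext fun i => (hΘ k i).symm
    rw [h1]
    exact hF k
  choose D2 hD2 hD2' using hk2
  obtain ⟨b, ρ, D0, hCh, hD0, hev, hlam⟩ := limit_fig ha U hpos hslg0 hnc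
    (Eventually.of_forall hD2)
  have hI0 : Iso D0 D := by
    intro j
    have h1 : Tendsto (fun k => lamL (D' k) j) U (𝓝 (lamL D j)) := (hl j).mono_left hU
    have h2 : (fun k => lamL (D' k) j) = fun k => lamL (D2 k) j := by
      funext k
      rw [hD2' k, lamL_rig]
    rw [h2] at h1
    exact tendsto_nhds_unique (hlam j) h1
  refine ⟨nc q, b, ρ, D0, hpos, ?_, hCh, hD0, ?_, hI0, hnc, ?_⟩
  · rw [col_nc hq01]
    exact hcol
  · intro hcr
    have h1 : CritQ a q E (rig θ (q 0) '' D0) := (critQ_iff hpos hθ D0).mpr hcr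
    have h2 : Fig (rig θ (q 0) '' D0) q E := by
      have h3 := fig_rig hD0 θ (q 0)
      have h4 : (fun i => rig θ (q 0) (nf (nc q) i)) = q := funext fun i => (hθ i).symm
      rwa [h4] at h3
    exact (hR.2 q E _ h2 fun j => by rw [lamL_rig]; exact hI0 j).2 h1
  · filter_upwards [hev] with k hk
    refine ⟨hk.1, Θ k, p k 0, hΘ k, ?_⟩
    rw [← hk.2]
    exact hD2' k

end Pool.Agent.MP4eed4eX.N
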