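import Pool.Agent.Lib.MP_4eed4e_an_PH.HPoly
import Pool.Agent.Lib.MP_4eed4e_an_XN.QLim

set_option autoImplicit false

/-!
Project X, block Q, module QFin: finiteness.
-/

namespace Pool.Agent.MP4eed4eX.N

open MeasureTheory Set Filter Topology Pool.Agent.MP4eed4eP

variable {m : ℕ} {a : Ix m → ℕ}

/-- Congruent sets. -/
def Cg (D D' : Set P) : Prop := ∃ (θ : ℝ) (β : P), D = rig θ β '' D'

/-- Proof. `rig_homeo`, composition of rigid motions (`H.rig_comp` in `MP_4eed4e_an_PH/HPoly`). -/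
theorem cg_equiv : Equivalence Cg := by
  refine ⟨fun D => ⟨0, 0, ?_⟩, ?_, ?_⟩
  · have h : rig 0 (0 : P) = id := funext fun v => H.rig_zero v
    rw [h, image_id]
  · rintro D D' ⟨θ, β, h⟩
    obtain ⟨β', hβ'⟩ := H.rig_inv θ β
    refine ⟨-θ, β', ?_⟩
    have h1 : rig (-θ) β' ∘ rig θ β = id := funext fun v => (hβ' v).1
    rw [h, ← image_comp, h1, image_id]
  · rintro D D' D'' ⟨θ, β, h⟩ ⟨θ', β', h'⟩
    refine ⟨θ + θ', rig θ β β', ?_⟩
    have h1 : rig (θ + θ') (rig θ β β') = rig θ β ∘ rig θ' β' :=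
      funext fun v => (H.rig_comp θ θ' β β' v).symm
    rw [h, h', h1, image_comp]

theorem Cg.iso {D D' : Set P} (h : Cg D D') : Iso D D' := by
  obtain ⟨θ, β, rfl⟩ := h
  intro k
  exact lamL_rig D' θ β k

/-- Sequences with more and more common eigenvalues. Proof. The number of the vertices and the
edges are constant on a subsequence (`pigeon`). `lamL (D' k) j → lamL D j` since `N k → ∞`. Fewer
vertices: `lim_few`. Otherwise `lim_full` with the hyperfilter gives `D0` over `nf c0`, isospectral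
to `D`, not critical, and `rigid` gives `nc (p k) = c0` for `U`-most `k` (the first `N k`
eigenvalues
of the chart image are those of `D' k` (`lamL_rig`), so of `D` and `D0`), hence `D' k` is
congruent to `D0` (`ph b 0 '' D0 = D0`). A property which holds for `U`-most `k` holds for
infinitely
many `k`. -/
theorem seq (ha : ∀ i, 1 ≤ a i) {D : Set P} (hO : IsOpen D) (hb : Bornology.IsBounded D)
    (hne : D.Nonempty) (hR : Reg a D) {D' : ℕ → Set P} (hP : ∀ k, Poly (m + 3) (D' k))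
    {N : ℕ → ℕ} (hN : Tendsto N atTop atTop)
    (h : ∀ k, ∀ j ≤ N k, lamL (D' k) j = lamL D j) :
    ∃ D0, Poly (m + 3) D0 ∧ Iso D0 D ∧ ∃ᶠ k in atTop, Cg (D' k) D0 := by
  choose M hM q E hF using hP
  let f : ℕ → (Σ M : Fin (m + 4), Finset (Fin (M : ℕ) × Fin (M : ℕ))) :=
    fun k => ⟨⟨M k, Nat.lt_succ_of_le (hM k)⟩, E k⟩
  obtain ⟨x, ψ, hψ, hx⟩ := pigeon f
  have key : ∀ k, ∃ q' : Fin (x.1 : ℕ) → P, Fig (D' (ψ k)) q' x.2 := by
    intro k
    rw [← hx k]
    exact ⟨q (ψ k), hF (ψ k)⟩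
  obtain ⟨⟨M0, hM0⟩, E0⟩ := x
  have key' : ∀ k, ∃ q' : Fin M0 → P, Fig (D' (ψ k)) q' E0 := key
  clear key hx
  have hNψ : Tendsto (fun k => N (ψ k)) atTop atTop := hN.comp hψ.tendsto_atTop
  have hl : ∀ j, Tendsto (fun k => lamL (D' (ψ k)) j) atTop (𝓝 (lamL D j)) := by
    intro j
    refine tendsto_const_nhds.congr' ?_
    filter_upwards [hNψ.eventually (eventually_ge_atTop j)] with k hk
    exact (h (ψ k) j hk).symm
  rcases (Nat.lt_succ_iff.1 hM0).lt_or_eq with hlt | heq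
  · choose q' hq' using key'
    exact (lim_few ha hO hb hne hR hlt hq' hl).elim
  · subst heq
    choose p hp using key'
    have hU : ((hyperfilter ℕ : Ultrafilter ℕ) : Filter ℕ) ≤ atTop := Nat.hyperfilter_le_atTop
    obtain ⟨c0, b, ρ, D0, -, -, hCh, hF0, hcr, hI, hnc, hev⟩ :=
      lim_full ha hO hb hne hR hp hl (hyperfilter ℕ) hU
    obtain ⟨N₀, hN₀⟩ := rigid ha hCh hF0 hcr
    refine ⟨D0, ⟨m + 3, le_rfl, nf c0, E0, hF0⟩, hI, ?_⟩
    have hUev : ∀ᶠ k in ((hyperfilter ℕ : Ultrafilter ℕ) : Filter ℕ), Cg (D' (ψ k)) D0 := by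
      filter_upwards [hnc.eventually hN₀, hev,
        hU (hNψ.eventually (eventually_ge_atTop N₀))] with k h1 h2 h3
      obtain ⟨-, θ, β, -, h4⟩ := h2
      have h5 : nc (p k) = c0 := by
        refine h1 fun j hj => ?_
        rw [hI j, ← h (ψ k) j (hj.trans h3), h4, lamL_rig]
      refine ⟨θ, β, ?_⟩
      rw [h4, h5]
      have h6 : ph b (fun i => nf c0 i - nf c0 i) = id := by
        funext x
        simp [ph]
      rw [h6, image_id]
    exact hψ.tendsto_atTop.frequently (hUev.frequently.filter_mono hU)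

/-- Proof. As `H.fin` in `MP_4eed4e_an_PH/HFin`, two steps: (1) there is a finite set `F` of
companions (`Poly`, `Iso`) such that every companion is congruent to a member: otherwise a sequence
of pairwise noncongruent companions (`exists_seq_of_forall_finset_exists`-like), and `seq` (`N k =
k`)
gives two of them congruent to the same `D0`; (2) there is `N`: otherwise `D' k` with the first `k`
eigenvalues of `D`, not congruent to a member of `F`, and `seq` gives a companion `D0` congruent to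
some `D' k`, and to a member of `F`. -/
theorem fin (ha : ∀ i, 1 ≤ a i) {D : Set P} (hO : IsOpen D) (hb : Bornology.IsBounded D)
    (hne : D.Nonempty) (hR : Reg a D) :
    ∃ (N : ℕ) (F : Set (Set P)), F.Finite ∧ (∀ K ∈ F, Poly (m + 3) K ∧ Iso K D) ∧
      ∀ D', Poly (m + 3) D' → (∀ k ≤ N, lamL D' k = lamL D k) → ∃ K ∈ F, Cg D' K := by
  have h1 : ∃ F : Finset (Set P), (∀ K ∈ F, Poly (m + 3) K ∧ Iso K D) ∧
      ∀ D', Poly (m + 3) D' → Iso D' D → ∃ K ∈ F, Cg D' K := by
    by_contra hcon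
    push Not at hcon
    obtain ⟨f, hf, hr⟩ := exists_seq_of_forall_finset_exists
      (fun K : Set P => Poly (m + 3) K ∧ Iso K D) (fun x y => ¬ Cg y x) (fun s hs => by
        obtain ⟨D', hq1, hq2, hq3⟩ := hcon s hs
        exact ⟨D', ⟨hq1, hq2⟩, hq3⟩)
    obtain ⟨D0, -, -, hfr⟩ := seq ha hO hb hne hR (D' := f) (fun k => (hf k).1)
      (N := fun k => k) tendsto_id (fun k j _ => (hf k).2 j)
    obtain ⟨k1, hk1⟩ := hfr.exists
    obtain ⟨k2, hk2, hlt⟩ := (hfr.and_eventually (eventually_gt_atTop k1)).exists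
    exact hr k1 k2 hlt (cg_equiv.trans hk2 (cg_equiv.symm hk1))
  obtain ⟨F, hF, hFC⟩ := h1
  have h2 : ∃ N : ℕ, ∀ D', Poly (m + 3) D' → (∀ k ≤ N, lamL D' k = lamL D k) →
      ∃ K ∈ F, Cg D' K := by
    by_contra hcon
    push Not at hcon
    choose D' hq1 hq2 hq3 using hcon
    obtain ⟨D0, hP0, hI0, hfr⟩ := seq ha hO hb hne hR (D' := D') hq1 (N := fun k => k)
      tendsto_id hq2
    obtain ⟨k, hk⟩ := hfr.exists
    obtain ⟨K, hKF, hK⟩ := hFC D0 hP0 hI0
    exact hq3 k K hKF (cg_equiv.trans hk hK)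
  obtain ⟨N, hN⟩ := h2
  exact ⟨N, F, F.finite_toSet, fun K hK => hF K hK, fun D' h3 h4 => hN D' h3 h4⟩

end Pool.Agent.MP4eed4eX.N
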