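import Pool.Agent.Lib.MP_4eed4e_an_XN.NAll
import Pool.Agent.Lib.MP_4eed4e_an_XN.NBad
import Pool.Agent.Lib.MP_4eed4e_an_XN.NPre

set_option autoImplicit false

/-!
Project X, block Q, module QFull: the good polygons have full measure.
-/

namespace Pool.Agent.MP4eed4eX.N

open MeasureTheory Set Filter Topology Pool.Agent.MP4eed4eP

variable {m : ℕ}

private theorem QFull_nc_nf {c : Par m} (h : 0 < c (iS m)) : nc (nf c) = c := by
  have h1 := nc_rig h 0 0
  have h2 : (fun i => rig 0 0 (nf c i)) = nf c := by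
    funext i
    simp [rig]
  rwa [h2] at h1

/-- Proof. Let `p` be simple and not in `UU a`: there is `D` over `p` which is not regular, so
`Tr a D ∈ Bad a` (`bad_of_not_reg`, `fig_nonempty`). With `c = nc p` (`exists_rig`) `D` is a rigid
image of `D0` over `nf c` (`fig_unrig`), `Tr a D0 = Tr a D`. So `c` is in the set of
`null_pre_fig` for `B = Bad a` (`null_bad`; `SS a c _` for all `c` with `0 < c (iS m)`,
`SLG (nf c) _` by `SS_all` for `p = nf c`, `nc (nf c) = c`). `null_nf`. -/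
theorem full {a : Ix m → ℕ} (ha : ∀ i, 1 ≤ a i)
    (hd : ∃ c ∈ CM m, (fderiv ℝ (fun (c : Par m) (i : Ix m) => Fn m (a i) c) c).det ≠ 0) :
    volume ({p : Fin (m + 3) → P | SLG p (cyc (m + 3))} \ UU a) = 0 := by
  have hS : ∀ c : Par m, 0 < c (iS m) → SLG (nf c) (cyc (m + 3)) → SS a c (cyc (m + 3)) := by
    intro c hc hs
    have h1 := SS_all ha hd hs
    rwa [QFull_nc_nf hc] at h1
  refine measure_mono_null ?_ (null_nf (null_pre_fig ha hS (null_bad ha)))
  rintro p ⟨hp, hpU⟩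
  have hp' : SLG p (cyc (m + 3)) := hp
  have h01 : p 0 ≠ p 1 := by
    intro he
    have := hp'.inj he
    simp at this
  obtain ⟨hpos, θ, hθ⟩ := exists_rig h01
  obtain ⟨D, hD, hR⟩ : ∃ D, Fig D p (cyc (m + 3)) ∧ ¬ Reg a D := by
    by_contra hcon
    push Not at hcon
    exact hpU ⟨hp', hcon⟩
  have hF' : Fig D (fun i => rig θ (p 0) (nf (nc p) i)) (cyc (m + 3)) := by
    have : (fun i => rig θ (p 0) (nf (nc p) i)) = p := funext fun i => (hθ i).symm
    rw [this]
    exact hD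
  obtain ⟨D0, hF0, hD0⟩ := fig_unrig hF'
  have hTr : Tr a D = Tr a D0 := by rw [hD0, Tr_rig]
  refine ⟨nc p, ⟨hpos, D0, hF0, ?_⟩, θ, p 0, hθ⟩
  rw [← hTr]
  exact bad_of_not_reg hD.op hD.bdd (fig_nonempty hD (by omega)) hR

end Pool.Agent.MP4eed4eX.N
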