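import Pool.Agent.Lib.MP_4eed4e_an_XN.QLim

set_option autoImplicit false

/-!
Project X, block Q, module QOpen: the set of the good polygons is open.
-/

namespace Pool.Agent.MP4eed4eX.N

open MeasureTheory Set Filter Topology Pool.Agent.MP4eed4eP

variable {m : ℕ} {a : Ix m → ℕ}

/-- Continuity of the eigenvalues in a chart at `p`. Proof. `chart`, `lip_ph`, `lamL_near`. -/
theorem lamL_chart {n : ℕ} {p : Fin n → P} {E : Finset (Fin n × Fin n)}
    {b : Fin n → P → ℝ} (hb : Hat p E b) {D : Set P} (hD : Fig D p E)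
    {d : ℕ → Fin n → P} (hd : Tendsto d atTop (𝓝 0)) (hn : 0 < n) (j : ℕ) :
    Tendsto (fun k => lamL (ph b (d k) '' D) j) atTop (𝓝 (lamL D j)) := by
  obtain ⟨C, hC, hnear⟩ := lamL_near
  obtain ⟨C', hC'⟩ := lip_ph hb.lip
  have hne : D.Nonempty := fig_nonempty hD hn
  have hd0 : Tendsto (fun k => ‖d k‖) atTop (𝓝 0) := by
    have := hd.norm
    simpa using this
  have hprod : Tendsto (fun k => (C' : ℝ) * ‖d k‖) atTop (𝓝 0) := by
    have := hd0.const_mul (C' : ℝ)
    simpa using this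
  have hev : ∀ᶠ k in atTop, (C' : ℝ) * ‖d k‖ < 1 / 4 :=
    hprod.eventually_lt_const (by norm_num)
  rw [tendsto_iff_norm_sub_tendsto_zero]
  have hz : Tendsto (fun k => C * ((C' : ℝ) * ‖d k‖) * lamL D j) atTop (𝓝 0) := by
    have := (hprod.const_mul C).mul_const (lamL D j)
    simpa using this
  refine squeeze_zero' (Eventually.of_forall fun k => norm_nonneg _) ?_ hz
  filter_upwards [hev] with k hk
  have h1 : C' * ‖d k‖₊ ≤ 1 / 4 := by
    rw [← NNReal.coe_le_coe]
    push_cast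
    exact hk.le
  have h2 := hnear (C' * ‖d k‖₊) (ph b (d k)) D h1 ((hC' (d k) 0).2) hD.op hD.bdd hne j
  rw [Real.norm_eq_abs]
  push_cast at h2
  exact h2

private theorem qo_nf_cont : Continuous (fun c : Par m => (fun i => nf c i)) := by
  have h : LipschitzWith 1 (fun c : Par m => (fun i : Fin (m + 3) => nf c i)) := by
    refine LipschitzWith.of_dist_le_mul fun c c' => ?_
    rw [NNReal.coe_one, one_mul, dist_eq_norm, dist_eq_norm]
    exact nf_norm' c c'
  exact h.continuous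

private theorem qo_not_col {c0 : Par m} (h : ¬ Col (nf c0)) : ∀ᶠ c in 𝓝 c0, ¬ Col (nf c) := by
  have h1 : ∀ t : Fin (m + 3) × Fin (m + 3) × Fin (m + 3), ∀ᶠ c in 𝓝 c0,
      ¬ (t.1 ≠ t.2.1 ∧ t.2.1 ≠ t.2.2 ∧ t.1 ≠ t.2.2 ∧
        det2 (nf c t.2.1 - nf c t.1) (nf c t.2.2 - nf c t.1) = 0) := by
    intro t
    by_cases ht : t.1 ≠ t.2.1 ∧ t.2.1 ≠ t.2.2 ∧ t.1 ≠ t.2.2
    · have h2 : det2 (nf c0 t.2.1 - nf c0 t.1) (nf c0 t.2.2 - nf c0 t.1) ≠ 0 := fun h3 =>
        h ⟨t.1, t.2.1, t.2.2, ht.1, ht.2.1, ht.2.2, h3⟩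
      have hc : ∀ i : Fin (m + 3), Continuous fun c : Par m => nf c i := fun i =>
        (continuous_apply i).comp qo_nf_cont
      have h3 : Continuous fun c : Par m =>
          det2 (nf c t.2.1 - nf c t.1) (nf c t.2.2 - nf c t.1) := by
        unfold det2
        have e0 := hc t.1
        have e1 := hc t.2.1
        have e2 := hc t.2.2
        exact ((e1.sub e0).fst.mul (e2.sub e0).snd).sub ((e1.sub e0).snd.mul (e2.sub e0).fst)
      filter_upwards [h3.continuousAt.eventually_ne h2] with c hc' h4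
      exact hc' h4.2.2.2
    · exact Eventually.of_forall fun c h4 => ht ⟨h4.1, h4.2.1, h4.2.2.1⟩
  have h2 := eventually_all.2 h1
  filter_upwards [h2] with c hc hcol
  obtain ⟨i, j, k, h3, h4, h5, h6⟩ := hcol
  exact hc (i, j, k) ⟨h3, h4, h5, h6⟩

private theorem qo_ne {q : Fin (m + 3) → P} {E : Finset (Fin (m + 3) × Fin (m + 3))}
    (h : SLG q E) : q 0 ≠ q 1 := by
  intro h01
  have := h.inj h01
  simp at this

/-- Proof. Otherwise there are `p ∈ UU a` and `p k → p`, `p k ∉ UU a`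
(`exists_seq_forall_of_frequently`, the complement meets every neighbourhood); `p k` is simple for
large `k` (`isOpen_SLG`), so there are figures `D k` over `p k` which are not regular, and a
companion `D' k` of `D k` which is bad. For large `k`, `D k = ph b (p k - p) '' Dk` with `Dk` one of
the finitely many figures over `p` (`exists_hat`, `chart`, `finite_fig`). Pass to a subsequence on
which `Dk = D`, the number of the vertices of `D' k` and its edges are constant (`pigeon`), and for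
`m + 3` vertices always `Col` or always `CritQ`. `lamL (D' k) j = lamL (D k) j → lamL D j`
(`lamL_chart`), `Reg a D` since `p ∈ UU a`. Fewer vertices: `lim_few`. Otherwise `lim_full` (`U` the
hyperfilter, `Filter.hyperfilter ℕ`): for `U`-most `k` the vertices of `D' k` have no collinear
triple (`col_nc`; `¬ Col (nf c)` is an open condition on `c`) and `D' k` is not critical
(`not_crit_near`, `critQ_iff`). -/
theorem isOpen_UU (ha : ∀ i, 1 ≤ a i) : IsOpen (UU a) := by
  classical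
  rw [isOpen_iff_mem_nhds]
  intro p hp
  by_contra hcon
  have hfreq : ∃ᶠ p' in 𝓝 p, p' ∉ UU a := fun h => hcon (by
    filter_upwards [h] with p' hp'
    exact not_not.1 hp')
  obtain ⟨ps, hps, hpsn⟩ := exists_seq_forall_of_frequently hfreq
  obtain ⟨hS, hR⟩ := hp
  obtain ⟨b, hb⟩ := exists_hat hS
  obtain ⟨ρ, hρ, hch⟩ := chart hS hb
  have hd0 : Tendsto (fun k => ps k - p) atTop (𝓝 0) := by
    have := hps.sub_const p
    simpa using this
  have hsl : ∀ᶠ k in atTop, SLG (ps k) (cyc (m + 3)) :=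
    hps.eventually ((isOpen_SLG (cyc (m + 3))).mem_nhds hS)
  have hball : ∀ᶠ k in atTop, ‖ps k - p‖ < ρ := by
    have := hd0.norm
    rw [norm_zero] at this
    exact this.eventually_lt_const hρ
  obtain ⟨K, hK⟩ := (hsl.and hball).exists_forall_of_atTop
  have hd : Tendsto (fun k => ps (k + K) - p) atTop (𝓝 0) := hd0.comp (tendsto_add_atTop_nat K)
  set d : ℕ → Fin (m + 3) → P := fun k => ps (k + K) - p with hdd
  let T : Type := {D : Set P // Fig D p (cyc (m + 3))} ×
    ((Σ M : Fin (m + 3), Finset (Fin M × Fin M)) ⊕ (Finset (Fin (m + 3) × Fin (m + 3)) × Bool))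
  haveI : Finite {D : Set P // Fig D p (cyc (m + 3))} := (finite_fig p (cyc (m + 3))).to_subtype
  haveI : Finite T := inferInstance
  let Q : ℕ → T → Prop := fun k t =>
    match t with
    | (D, Sum.inl ⟨M, E⟩) => ∃ (q : Fin M → P) (D' : Set P), Fig D' q E ∧
        Iso D' (ph b (d k) '' D.1)
    | (D, Sum.inr (E, true)) => ∃ (q : Fin (m + 3) → P) (D' : Set P), Fig D' q E ∧
        Iso D' (ph b (d k) '' D.1) ∧ Col q
    | (D, Sum.inr (E, false)) => ∃ (q : Fin (m + 3) → P) (D' : Set P), Fig D' q E ∧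
        Iso D' (ph b (d k) '' D.1) ∧ CritQ a q E D'
  have hQ : ∀ k, ∃ t, Q k t := by
    intro k
    have h1 := (hK (k + K) (Nat.le_add_left _ _)).1
    have h2 := (hK (k + K) (Nat.le_add_left _ _)).2
    have h3 := hpsn (k + K)
    have h4 : ∃ D, Fig D (ps (k + K)) (cyc (m + 3)) ∧ ¬ Reg a D := by
      by_contra h5
      push Not at h5
      exact h3 ⟨h1, h5⟩
    obtain ⟨D1, hD1, hD1R⟩ := h4
    have h5 : (fun i => p i + d k i) = ps (k + K) := by
      funext i
      simp [hdd]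
    obtain ⟨-, -, -, h6⟩ := hch (d k) h2
    rw [h5] at h6
    obtain ⟨D, hD, hDD⟩ := h6 D1 hD1
    rw [hDD] at hD1R
    by_cases h7 : ∀ M < m + 3, ∀ (q : Fin M → P) (E : Finset (Fin M × Fin M)) (D' : Set P),
        Fig D' q E → ¬ Iso D' (ph b (d k) '' D)
    · have h8 : ¬ ∀ (q : Fin (m + 3) → P) (E : Finset (Fin (m + 3) × Fin (m + 3))) (D' : Set P),
          Fig D' q E → Iso D' (ph b (d k) '' D) → ¬ Col q ∧ ¬ CritQ a q E D' := fun h9 =>
        hD1R ⟨h7, h9⟩
      push Not at h8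
      obtain ⟨q, E, D', h9, h10, h11⟩ := h8
      by_cases h12 : Col q
      · exact ⟨(⟨D, hD⟩, Sum.inr (E, true)), q, D', h9, h10, h12⟩
      · exact ⟨(⟨D, hD⟩, Sum.inr (E, false)), q, D', h9, h10, h11 h12⟩
    · push Not at h7
      obtain ⟨M, hM, q, E, D', h8, h9⟩ := h7
      exact ⟨(⟨D, hD⟩, Sum.inl ⟨⟨M, hM⟩, E⟩), q, D', h8, h9⟩
  choose f hf using hQ
  obtain ⟨x, ψ, hψ, hx⟩ := pigeon f
  have hfx : ∀ k, Q (ψ k) x := fun k => by
    have := hf (ψ k)
    rwa [hx k] at this
  have hdψ : Tendsto (fun k => d (ψ k)) atTop (𝓝 0) := hd.comp hψ.tendsto_atTop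
  obtain ⟨⟨D, hD⟩, kind⟩ := x
  have hne : D.Nonempty := fig_nonempty hD (by omega)
  have hlim : ∀ j, Tendsto (fun k => lamL (ph b (d (ψ k)) '' D) j) atTop (𝓝 (lamL D j)) :=
    fun j => lamL_chart hb hD hdψ (by omega) j
  have key : ∀ (E : Finset (Fin (m + 3) × Fin (m + 3))) (q : ℕ → Fin (m + 3) → P)
      (D' : ℕ → Set P), (∀ k, Fig (D' k) (q k) E) →
      (∀ k, Iso (D' k) (ph b (d (ψ k)) '' D)) →
      ∀ᶠ k in ((hyperfilter ℕ : Ultrafilter ℕ) : Filter ℕ),
        ¬ Col (q k) ∧ ¬ CritQ a (q k) E (D' k) := by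
    intro E q D' hF hI
    obtain ⟨c0, b', ρ', D0, h0, hnc, hCh, hFD0, hncr, -, hT, hev⟩ :=
      lim_full ha hD.op hD.bdd hne (hR D hD) hF
        (fun j => by
          have := hlim j
          refine this.congr fun k => ?_
          exact (hI k j).symm)
        (hyperfilter ℕ) Nat.hyperfilter_le_atTop
    have e1 := hT.eventually (qo_not_col hnc)
    have e2 := hT.eventually (not_crit_near hCh hFD0 hncr)
    filter_upwards [e1, e2, hev] with k h1 h2 h3
    have h4 : q k 0 ≠ q k 1 := qo_ne (hF k).slg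
    obtain ⟨-, θ, β, h5, h6⟩ := h3
    refine ⟨fun h7 => h1 ((col_nc h4).2 h7), ?_⟩
    intro h7
    rw [h6] at h7
    exact h2 ((critQ_iff (exists_rig h4).1 h5 _).1 h7)
  rcases kind with ⟨M, E⟩ | ⟨E, bo⟩
  · choose q D' hF hI using hfx
    exact lim_few ha hD.op hD.bdd hne (hR D hD) M.isLt hF
      (fun j => (hlim j).congr fun k => (hI k j).symm)
  · cases bo
    · choose q D' hF hI hC using hfx
      obtain ⟨k, hk⟩ := (key E q D' hF hI).exists
      exact hk.2 (hC k)
    · choose q D' hF hI hC using hfx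
      obtain ⟨k, hk⟩ := (key E q D' hF hI).exists
      exact hk.1 (hC k)

end Pool.Agent.MP4eed4eX.N
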