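import Pool.Agent.Lib.MP_4eed4e_an_P.OutF
import Pool.Agent.Lib.MP_4eed4e_an_PH.HEnd
import Pool.Agent.Lib.MP_4eed4e_an_XN.QFull
import Pool.Agent.Lib.MP_4eed4e_an_XN.QOpen
import Pool.Agent.Lib.MP_4eed4e_an_XN.QFin

set_option autoImplicit false

/-!
Project X, block Q, module QEnd: the final theorem.
-/

namespace Pool.Agent.MP4eed4eX.N

open MeasureTheory Set Filter Topology Pool.Agent.MP4eed4eP

section

variable {V W : Type*} [NormedAddCommGroup V] [NormedSpace ℝ V] [NormedAddCommGroup W]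
  [NormedSpace ℝ W]

private theorem openSeg_lin (L : V ≃L[ℝ] W) (a b : V) :
    openSegment ℝ (L a) (L b) = L '' openSegment ℝ a b :=
  (image_openSegment ℝ (L.toLinearEquiv : V →ₗ[ℝ] W).toAffineMap a b).symm

private theorem seg_lin (L : V ≃L[ℝ] W) (a b : V) :
    segment ℝ (L a) (L b) = L '' segment ℝ a b :=
  (image_segment ℝ (L.toLinearEquiv : V →ₗ[ℝ] W).toAffineMap a b).symm

private theorem slg_lin1 (L : V ≃L[ℝ] W) {n : ℕ} {p : Fin n → V}
    {E : Finset (Fin n × Fin n)} (h : SLG p E) : SLG (fun i => L (p i)) E := by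
  refine ⟨fun i j hij => h.inj (L.injective hij), h.lt, fun e he k hk => h.vert e he k ?_,
    fun e he f hf hef => ?_⟩
  · have hk' : L (p k) ∈ openSegment ℝ (L (p e.1)) (L (p e.2)) := hk
    rw [openSeg_lin] at hk'
    obtain ⟨y, hy, hy'⟩ := hk'
    rw [← L.injective hy']
    exact hy
  · show Disjoint (openSegment ℝ (L (p e.1)) (L (p e.2))) (openSegment ℝ (L (p f.1)) (L (p f.2)))
    rw [openSeg_lin, openSeg_lin, Set.disjoint_image_iff L.injective]
    exact h.disj e he f hf hef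

private theorem gr_lin (L : V ≃L[ℝ] W) {n : ℕ} (p : Fin n → V) (E : Finset (Fin n × Fin n)) :
    Gr (fun i => L (p i)) E = L '' Gr p E := by
  unfold Gr
  rw [image_union, image_iUnion₂]
  congr 1
  · exact range_comp L p
  · exact iUnion₂_congr fun e _ => seg_lin L _ _

private theorem fig_lin1 (L : V ≃L[ℝ] W) {n : ℕ} {D : Set V} {p : Fin n → V}
    {E : Finset (Fin n × Fin n)} (h : Fig D p E) : Fig (L '' D) (fun i => L (p i)) E := by
  refine ⟨slg_lin1 L h.slg, L.toHomeomorph.isOpen_image.2 h.op,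
    L.lipschitz.isBounded_image h.bdd, ?_⟩
  rw [gr_lin, ← h.fr]
  exact (L.toHomeomorph.image_frontier D).symm

end

/-- A linear homeomorphism maps figures to figures. -/
theorem fig_lin {V W : Type*} [NormedAddCommGroup V] [NormedSpace ℝ V] [NormedAddCommGroup W]
    [NormedSpace ℝ W] (L : V ≃L[ℝ] W) {n : ℕ} {D : Set V} {p : Fin n → V}
    {E : Finset (Fin n × Fin n)} : Fig (L '' D) (fun i => L (p i)) E ↔ Fig D p E := by
  refine ⟨fun h => ?_, fig_lin1 L⟩
  have h1 := fig_lin1 L.symm h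
  have h2 : L.symm '' (L '' D) = D := by
    rw [image_image]
    simp
  rw [h2] at h1
  have h3 : (fun i => L.symm (L (p i))) = p := by
    funext i
    simp
  rw [h3] at h1
  exact h1

theorem slg_lin {V W : Type*} [NormedAddCommGroup V] [NormedSpace ℝ V] [NormedAddCommGroup W]
    [NormedSpace ℝ W] (L : V ≃L[ℝ] W) {n : ℕ} {p : Fin n → V}
    {E : Finset (Fin n × Fin n)} : SLG (fun i => L (p i)) E ↔ SLG p E := by
  refine ⟨fun h => ?_, slg_lin1 L⟩
  have h1 := slg_lin1 L.symm h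
  have h3 : (fun i => L.symm (L (p i))) = p := by
    funext i
    simp
  rw [h3] at h1
  exact h1

private theorem fig_toP {n : ℕ} {D : Set E2} {p : Fin n → E2} {E : Finset (Fin n × Fin n)} :
    Fig (toP '' D) (H.toPs p) E ↔ Fig D p E := by
  obtain ⟨e, he, -⟩ := exists_toPL
  have h1 : toP '' D = e '' D := image_congr fun x _ => (he x).symm
  have h2 : H.toPs p = fun i => e (p i) := by
    funext i
    exact (he (p i)).symm
  rw [h1, h2]
  exact fig_lin e

private theorem slg_toP {n : ℕ} {p : Fin n → E2} {E : Finset (Fin n × Fin n)} :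
    SLG (H.toPs p) E ↔ SLG p E := by
  obtain ⟨e, he, -⟩ := exists_toPL
  have h2 : H.toPs p = fun i => e (p i) := by
    funext i
    exact (he (p i)).symm
  rw [h2]
  exact slg_lin e

/-- Proof. `exists_toPL`, `fig_lin`. -/
theorem poly_toP {n : ℕ} {D : Set E2} : Poly n (toP '' D) ↔ Poly n D := by
  constructor
  · rintro ⟨M, hM, q, E, h⟩
    refine ⟨M, hM, fun i => ofP (q i), E, ?_⟩
    rw [← fig_toP]
    have h1 : H.toPs (fun i => ofP (q i)) = q := by
      funext i
      exact toP_ofP (q i)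
    rw [h1]
    exact h
  · rintro ⟨M, hM, q, E, h⟩
    exact ⟨M, hM, H.toPs q, E, fig_toP.2 h⟩

private theorem toP_ofP_image (K : Set P) : toP '' (ofP '' K) = K := by
  rw [image_image]
  simp [toP_ofP]

private theorem ofP_toP_image (D : Set E2) : ofP '' (toP '' D) = D := by
  rw [image_image]
  simp [ofP_toP]

/-- Proof. `exists_isometry` gives `φ` with `toP ∘ φ = rig θ β ∘ toP`; take the inverse (see
`H.cg_iso` in `MP_4eed4e_an_PH/HEnd`). -/
theorem cg_iso {D : Set E2} {K : Set P} (h : Cg (toP '' D) K) :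
    ∃ φ : E2 ≃ᵢ E2, φ '' D = ofP '' K := by
  obtain ⟨θ, b, h⟩ := h
  obtain ⟨φ, hφ⟩ := exists_isometry θ b
  have hinj : Function.Injective toP := Function.LeftInverse.injective ofP_toP
  have h1 : φ '' (ofP '' K) = D := by
    refine hinj.image_injective ?_
    rw [h, image_image, image_image]
    refine image_congr fun x _ => ?_
    rw [hφ, toP_ofP]
  refine ⟨φ.symm, ?_⟩
  rw [← h1, image_image]
  simp

/-- Proof. `n = m + 3`; `exists_det m` gives `a`; `U = {p | toP ∘ p ∈ UU a}` (`isOpen_UU`, the map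
is a linear homeomorphism; `slg_lin`; `full`, `H.null_toPs`). For `p ∈ U` the inside `D` exists
and is
unique by `unique_fig` and `fig_lin`; it is open, bounded and nonempty (`fig_nonempty`), and
`toP '' D` is regular. `fin`, `eig_eq` (all figures are open), `F` is replaced by the image sets
`ofP '' K`. -/
theorem finite_polygonal' (n : ℕ) (hn : 3 ≤ n) :
    ∃ U : Set (Fin n → E2), IsOpen U ∧ U ⊆ {p | SLG p (cyc n)} ∧
      volume ({p | SLG p (cyc n)} \ U) = 0 ∧
      ∀ p ∈ U, ∃ D : Set E2, (Fig D p (cyc n) ∧ ∀ D', Fig D' p (cyc n) → D' = D) ∧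
        ∃ (N : ℕ) (F : Set (Set E2)), F.Finite ∧
          (∀ K ∈ F, Poly n K ∧ ∀ k, eig K k = eig D k) ∧
          ∀ D', Poly n D' → (∀ k ≤ N, eig D' k = eig D k) →
            ∃ K ∈ F, ∃ φ : E2 ≃ᵢ E2, φ '' D' = K := by
  obtain ⟨m, rfl⟩ : ∃ m, n = m + 3 := ⟨n - 3, by omega⟩
  obtain ⟨a, ha2, hd⟩ := exists_det m
  have ha : ∀ i, 1 ≤ a i := fun i => le_trans (by norm_num) (ha2 i)
  refine ⟨{p | H.toPs p ∈ UU a}, (isOpen_UU ha).preimage (H.toPs_cont _), ?_, ?_, ?_⟩
  · intro p hp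
    exact slg_toP.1 hp.1
  · have h1 : {p : Fin (m + 3) → E2 | SLG p (cyc (m + 3))} \ {p | H.toPs p ∈ UU a} =
        {p | H.toPs p ∈ {p : Fin (m + 3) → P | SLG p (cyc (m + 3))} \ UU a} := by
      ext p
      exact and_congr slg_toP.symm Iff.rfl
    rw [h1]
    exact H.null_toPs (full ha hd)
  · intro p hp
    obtain ⟨D0, hD0, hun⟩ := unique_fig hp.1
    obtain ⟨N, F, hF, hF1, hF2⟩ := fin ha hD0.op hD0.bdd (fig_nonempty hD0 (by omega))
      (hp.2 D0 hD0)
    have hDt : toP '' (ofP '' D0) = D0 := toP_ofP_image D0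
    have hD : Fig (ofP '' D0) p (cyc (m + 3)) := by
      rw [← fig_toP, hDt]
      exact hD0
    refine ⟨ofP '' D0, ⟨hD, fun D' hD' => ?_⟩, N, (fun K => ofP '' K) '' F, hF.image _, ?_, ?_⟩
    · have h1 : toP '' D' = D0 := hun _ (fig_toP.2 hD')
      rw [← h1, ofP_toP_image]
    · rintro _ ⟨K, hK, rfl⟩
      obtain ⟨h1, h2⟩ := hF1 K hK
      have h3 : Poly (m + 3) (ofP '' K) := by
        rw [← poly_toP, toP_ofP_image]
        exact h1
      refine ⟨h3, fun k => ?_⟩
      obtain ⟨M, hM, q, E, hq⟩ := h3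
      show eig (ofP '' K) k = eig (ofP '' D0) k
      rw [eig_eq _ hq.op, eig_eq _ hD.op, hDt, toP_ofP_image]
      exact h2 k
    · intro D' hD' hk
      have hO : IsOpen D' := by
        obtain ⟨M, hM, q, E, hq⟩ := hD'
        exact hq.op
      obtain ⟨K, hK, hcg⟩ := hF2 (toP '' D') (poly_toP.2 hD') fun k hk' => by
        rw [← eig_eq _ hO, hk k hk', eig_eq _ hD.op, hDt]
      exact ⟨ofP '' K, ⟨K, hK, rfl⟩, cg_iso hcg⟩

end Pool.Agent.MP4eed4eX.N
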